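import Pool.Agent.Helper95.HH.RO
import Pool.Agent.Helper93.HH.Defs

/-!
# HH/RingWalk: paths of H in the graph with doors (drawing half of theorem (H), MP_0dbcb7_co)

D5c. A path `P` of `H` from a vertex `u` outside `U` gives a walk outside the hubs: at an inner hub `a` of `P` with the
neighbours `y`, `y'` on `P` one goes from the door `(y, a)` along the ring to the door `(y', a)` (at most `deg H a - 1`
steps, since `ord a` is a bijection from the neighbours of `a` to `0, .., deg H a - 1`); if the last vertex is a hub, the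
walk stops at its door.
-/

set_option autoImplicit false

open Set
open Pool.Agent.Helper83.OP Pool.Agent.Helper83.HR Pool.Agent.Helper93.HH

namespace Pool.Agent.Helper95.HH

/-- along the ring about `a`, upwards -/
private theorem ring_up {V : Type} (H : SimpleGraph V) (U : Set V) (ord : V → V → ℕ)
    (hord : IsOrd H U ord) (k : ℕ) : ∀ (d d' : Dor H U), d.1.2 = d'.1.2 →
      ord d.1.2 d.1.1 + k = ord d.1.2 d'.1.1 →
      ∃ W : (ringOut H U ord).Walk (Sum.inr d) (Sum.inr d'), W.length = k := by
  induction k with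
  | zero =>
    intro d d' h1 h2
    have h3 : d.1.1 = d'.1.1 := by
      refine (hord d.1.2 (dor_mem d)).injOn ?_ ?_ h2
      · exact (dor_adj d).symm
      · rw [h1]
        exact (dor_adj d').symm
    have h4 : d = d' := dor_ext d d' h3 h1
    subst h4
    exact ⟨SimpleGraph.Walk.nil, rfl⟩
  | succ k ih =>
    intro d d' h1 h2
    have hlt : ord d.1.2 d'.1.1 < deg H d.1.2 := by
      have h3 := (hord d.1.2 (dor_mem d)).mapsTo (x := d'.1.1) (by
        rw [h1]
        exact (dor_adj d').symm)
      exact h3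
    have hm : ord d.1.2 d.1.1 + 1 ∈ Set.Iio (deg H d.1.2) := by
      change ord d.1.2 d.1.1 + 1 < deg H d.1.2
      omega
    obtain ⟨y, hy, hyo⟩ := (hord d.1.2 (dor_mem d)).surjOn hm
    have hy' : H.Adj y d.1.2 := by
      have : H.Adj d.1.2 y := hy
      exact this.symm
    obtain ⟨W, hW⟩ := ih (mkDor y d.1.2 hy' (dor_mem d)) d' h1 (by
      simp only [mkDor_fst, mkDor_snd]
      omega)
    exact ⟨SimpleGraph.Walk.cons (ringOut_ring d (mkDor y d.1.2 hy' (dor_mem d)) rfl hyo.symm) W, by
      rw [SimpleGraph.Walk.length_cons, hW]⟩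

/-- along the ring about `a` -/
private theorem ring_seg {V : Type} (H : SimpleGraph V) (U : Set V) (ord : V → V → ℕ)
    (hord : IsOrd H U ord) (d d' : Dor H U) (h1 : d.1.2 = d'.1.2) :
    ∃ W : (ringOut H U ord).Walk (Sum.inr d) (Sum.inr d'), W.length ≤ deg H d.1.2 := by
  have hb : ord d.1.2 d.1.1 < deg H d.1.2 :=
    (hord d.1.2 (dor_mem d)).mapsTo (x := d.1.1) (dor_adj d).symm
  have hb' : ord d.1.2 d'.1.1 < deg H d.1.2 :=
    (hord d.1.2 (dor_mem d)).mapsTo (x := d'.1.1) (by
        rw [h1]
        exact (dor_adj d').symm)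
  rcases le_total (ord d.1.2 d.1.1) (ord d.1.2 d'.1.1) with h | h
  · obtain ⟨W, hW⟩ := ring_up H U ord hord (ord d.1.2 d'.1.1 - ord d.1.2 d.1.1) d d' h1 (by omega)
    exact ⟨W, by omega⟩
  · obtain ⟨W, hW⟩ := ring_up H U ord hord (ord d.1.2 d.1.1 - ord d.1.2 d'.1.1) d' d h1.symm (by
      rw [← h1]
      omega)
    exact ⟨W.reverse, by
      rw [SimpleGraph.Walk.length_reverse]
      omega⟩

open Classical in
private theorem ring_walk_aux {V : Type} (H : SimpleGraph V) (U : Set V) (ord : V → V → ℕ)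
    (hord : IsOrd H U ord) (hU : ∀ u ∈ U, ∀ v ∈ U, ¬ H.Adj u v) (n : ℕ) :
    ∀ {u v : V} (_ : u ∉ U) (P : H.Walk u v), P.IsPath → P.length ≤ n →
    ∃ t : V ⊕ Dor H U, ((v ∉ U ∧ t = Sum.inl v) ∨ (v ∈ U ∧ ∃ d : Dor H U, d.1.2 = v ∧ t = Sum.inr d)) ∧
      ∃ W : (ringOut H U ord).Walk (Sum.inl u) t,
        W.length ≤ P.length +
          (P.support.map (fun z => if z ∈ U ∧ z ≠ v then deg H z else 0)).sum := by
  induction n with
  | zero =>
    intro u v hu P _ hn
    cases P with
    | nil => exact ⟨Sum.inl u, Or.inl ⟨hu, rfl⟩, SimpleGraph.Walk.nil, by simp⟩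
    | cons h P' =>
      rw [SimpleGraph.Walk.length_cons] at hn
      omega
  | succ n ih =>
    intro u v hu P hP hn
    cases P with
    | nil => exact ⟨Sum.inl u, Or.inl ⟨hu, rfl⟩, SimpleGraph.Walk.nil, by simp⟩
    | @cons _ w _ h P' =>
      rw [SimpleGraph.Walk.length_cons] at hn
      by_cases hw : w ∈ U
      · cases P' with
        | nil =>
          have a1 : (ringOut H U ord).Adj (Sum.inl u) (Sum.inr (mkDor u v h hw)) :=
            ringOut_door (mkDor u v h hw) hu
          refine ⟨Sum.inr (mkDor u v h hw), Or.inr ⟨hw, _, rfl, rfl⟩,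
            SimpleGraph.Walk.cons a1 SimpleGraph.Walk.nil, ?_⟩
          rw [SimpleGraph.Walk.length_cons, SimpleGraph.Walk.length_cons,
            SimpleGraph.Walk.length_nil]
          exact Nat.le_add_right _ _
        | @cons _ w2 _ h' P2 =>
          rw [SimpleGraph.Walk.length_cons] at hn
          have hw2 : w2 ∉ U := fun hw2 => hU _ hw _ hw2 h'
          have hP1 := (SimpleGraph.Walk.cons_isPath_iff h _).1 hP
          have hP2 := (SimpleGraph.Walk.cons_isPath_iff h' _).1 hP1.1
          obtain ⟨t, ht, W, hW⟩ := ih hw2 P2 hP2.1 (by omega)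
          obtain ⟨S, hS⟩ := ring_seg H U ord hord (mkDor u w h hw) (mkDor w2 w h'.symm hw) rfl
          have hwv : w ≠ v := by
            rintro rfl
            exact hP2.2 P2.end_mem_support
          have a1 : (ringOut H U ord).Adj (Sum.inl u) (Sum.inr (mkDor u w h hw)) :=
            ringOut_door (mkDor u w h hw) hu
          have a2 : (ringOut H U ord).Adj (Sum.inr (mkDor w2 w h'.symm hw)) (Sum.inl w2) :=
            (ringOut_door (mkDor w2 w h'.symm hw) hw2).symm
          refine ⟨t, ht, SimpleGraph.Walk.cons a1 (S.append (SimpleGraph.Walk.cons a2 W)), ?_⟩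
          simp only [SimpleGraph.Walk.length_cons, SimpleGraph.Walk.length_append,
            SimpleGraph.Walk.support_cons, List.map_cons, List.sum_cons]
          have e1 : (if u ∈ U ∧ u ≠ v then deg H u else 0) = 0 := if_neg (fun h => hu h.1)
          have e2 : (if w ∈ U ∧ w ≠ v then deg H w else 0) = deg H w := if_pos ⟨hw, hwv⟩
          rw [e1, e2]
          have hS' : S.length ≤ deg H w := hS
          omega
      · have hP1 := (SimpleGraph.Walk.cons_isPath_iff h _).1 hP
        obtain ⟨t, ht, W, hW⟩ := ih hw P' hP1.1 (by omega)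
        refine ⟨t, ht, SimpleGraph.Walk.cons (ringOut_old h hu hw) W, ?_⟩
        simp only [SimpleGraph.Walk.length_cons, SimpleGraph.Walk.support_cons, List.map_cons,
          List.sum_cons]
        have e1 : (if u ∈ U ∧ u ≠ v then deg H u else 0) = 0 := if_neg (fun h => hu h.1)
        rw [e1]
        omega

open Classical in
/-- **D5c** -/
theorem ring_walk {V : Type} [Finite V] (H : SimpleGraph V) (U : Set V) (ord : V → V → ℕ)
    (hord : IsOrd H U ord) (hU : ∀ u ∈ U, ∀ v ∈ U, ¬ H.Adj u v) {u v : V} (hu : u ∉ U)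
    (P : H.Walk u v) (hP : P.IsPath) :
    (v ∉ U → ∃ W : (ringOut H U ord).Walk (Sum.inl u) (Sum.inl v),
      W.length ≤ P.length + (P.support.map (fun z => if z ∈ U ∧ z ≠ v then deg H z else 0)).sum) ∧
    (v ∈ U → ∃ d : Dor H U, d.1.2 = v ∧ ∃ W : (ringOut H U ord).Walk (Sum.inl u) (Sum.inr d),
      W.length ≤ P.length + (P.support.map (fun z => if z ∈ U ∧ z ≠ v then deg H z else 0)).sum) := by
  obtain ⟨t, ht, W, hW⟩ := ring_walk_aux H U ord hord hU P.length hu P hP le_rfl
  constructor
  · intro hv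
    rcases ht with ⟨-, ht⟩ | ⟨hv', -⟩
    · subst ht
      exact ⟨W, hW⟩
    · exact absurd hv' hv
  · intro hv
    rcases ht with ⟨hv', -⟩ | ⟨-, d, hd, ht⟩
    · exact absurd hv hv'
    · subst ht
      exact ⟨d, hd, W, hW⟩

/-- walks of `H` outside the hubs -/
theorem ring_out_walk {V : Type} (H : SimpleGraph V) (U : Set V) (ord : V → V → ℕ) {u v : V}
    (P : H.Walk u v) (hP : ∀ z ∈ P.support, z ∉ U) :
    ∃ W : (ringOut H U ord).Walk (Sum.inl u) (Sum.inl v), W.length = P.length ∧
      ∀ k, W.getVert k = Sum.inl (P.getVert k) := by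
  induction P with
  | nil => exact ⟨SimpleGraph.Walk.nil, rfl, fun k => by simp⟩
  | @cons a b c h P' ih =>
    have ha : a ∉ U := hP a (by simp)
    have hb : b ∉ U := hP b (by simp)
    obtain ⟨W, hW1, hW2⟩ := ih (fun z hz => hP z (by
      rw [SimpleGraph.Walk.support_cons]
      exact List.mem_cons_of_mem _ hz))
    refine ⟨SimpleGraph.Walk.cons (ringOut_old h ha hb) W, ?_, ?_⟩
    · rw [SimpleGraph.Walk.length_cons, SimpleGraph.Walk.length_cons, hW1]
    · intro k
      cases k with
      | zero => simp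
      | succ k =>
        rw [SimpleGraph.Walk.getVert_cons_succ, SimpleGraph.Walk.getVert_cons_succ]
        exact hW2 k

end Pool.Agent.Helper95.HH
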