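import Pool.Agent.Helper95.HH.GOk
import Pool.Agent.Helper93.HH.Basic

/-!
# HH/VolCmp: the two volumes (drawing half of theorem (H), MP_0dbcb7_co)

D8a. A vertex outside `U` and outside `VN` has degree at most two in `G` (`cover`: its edges are on pins or threads between
hubs, `w_deg`, `wq_deg`; `x p ∈ VN`). For `v ∈ VN` of degree at least three `deg G v = dg v ≤ 3 (dg v - 2)`.
-/

set_option autoImplicit false

open Set
open Pool.Agent.Helper83.OP Pool.Agent.Helper93.HH

namespace Pool.Agent.Helper95.HH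

private theorem nb_of_deg {V : Type} {H : SimpleGraph V} {v : V} (h : deg H v ≠ 0) :
    ∃ u, H.Adj v u := by
  unfold deg at h
  have h1 : (H.neighborSet v).Nonempty := by
    rw [Set.nonempty_iff_ne_empty]
    intro h0
    rw [h0, Set.ncard_empty] at h
    exact h rfl
  exact h1

private theorem mem_left {V : Type} {H : SimpleGraph V} {a b u v : V} {p : H.Walk a b}
    (h : s(u, v) ∈ p.edges) : u ∈ p.support := p.fst_mem_support_of_mem_edges h

private theorem mem_right {V : Type} {H : SimpleGraph V} {a b u v : V} {p : H.Walk a b}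
    (h : s(u, v) ∈ p.edges) : v ∈ p.support := p.snd_mem_support_of_mem_edges h

/-- the first edge of a path is its only edge at the first vertex -/
private theorem snd_of_path {V : Type} {H : SimpleGraph V} {a b z : V} (p : H.Walk a b)
    (hp : p.IsPath) (h : s(a, z) ∈ p.edges) : p.getVert 1 = z := by
  cases p with
  | nil => simp at h
  | @cons _ w _ hw q =>
    rw [SimpleGraph.Walk.edges_cons, List.mem_cons] at h
    rcases h with h | h
    · rw [SimpleGraph.Walk.getVert_cons_succ, SimpleGraph.Walk.getVert_zero]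
      rcases Sym2.eq_iff.1 h with ⟨-, h2⟩ | ⟨h1, h2⟩
      · exact h2.symm
      · rw [h2, ← h1]
    · exact absurd (mem_left h) ((SimpleGraph.Walk.cons_isPath_iff hw q).1 hp).2

theorem deg_out {V P Q : Type} [Finite V] (D : HD V P Q) (hD : D.Ok) (hG : GOk D) (v : V)
    (hU : v ∉ D.U) (hN : v ∉ D.VN) : deg D.G v ≤ 2 := by
  by_contra hcon
  obtain ⟨u, hu⟩ := nb_of_deg (H := D.G) (v := v) (by omega)
  rcases hG.cover v u hu with h | ⟨p, h⟩ | ⟨q, h⟩
  · exact hN (HD.VN_of_adj h)
  · have h1 := mem_left h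
    have h2 := hG.w_deg p v h1 (fun h0 => hN (h0 ▸ HD.x_VN p)) (fun h0 => hU (h0 ▸ hD.hub_U p))
    omega
  · have h1 := mem_left h
    have h2 := hG.wq_deg q v h1 (fun h0 => hU (h0 ▸ hD.ha_U q)) (fun h0 => hU (h0 ▸ hD.hb_U q))
    omega

/-- **D8a** -/
theorem vol_cmp {V P Q : Type} [Finite V] (D : HD V P Q) (hD : D.Ok) (hG : GOk D) (B S : Set V)
    (hBU : ∀ v ∈ B, v ∉ D.U) (hBS : ∀ v ∈ B, v ∈ D.VN → v ∈ S) :
    Pool.Agent.Helper95.UP.vol D.G B ≤ 3 * D.vol S := by
  classical
  obtain ⟨F, hF⟩ : ∃ F : Finset V, ∀ v, v ∈ F ↔ (v ∈ B ∧ 3 ≤ deg D.G v) :=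
    ⟨(Set.toFinite {v | v ∈ B ∧ 3 ≤ deg D.G v}).toFinset, fun v => by
      rw [Set.Finite.mem_toFinset]; rfl⟩
  have h1 : Pool.Agent.Helper95.UP.vol D.G B ≤ ∑ v ∈ F, deg D.G v := by
    obtain ⟨N, hN⟩ : ∃ N : V → Finset V, ∀ v w, w ∈ N v ↔ D.G.Adj v w :=
      ⟨fun v => (Set.toFinite (D.G.neighborSet v)).toFinset, fun v w => by
        rw [Set.Finite.mem_toFinset]; rfl⟩
    have hc : ∀ v, (N v).card = deg D.G v := by
      intro v
      unfold deg
      rw [← Set.ncard_coe_finset]
      congr 1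
      ext w
      exact hN v w
    have h2 : Pool.Agent.Helper95.UP.vol D.G B
        ≤ (F.biUnion fun v => (N v).image fun w => (v, w)).card := by
      unfold Pool.Agent.Helper95.UP.vol
      rw [← Set.ncard_coe_finset]
      refine Set.ncard_le_ncard ?_ (Finset.finite_toSet _)
      rintro ⟨v, w⟩ ⟨ha, hb, hc⟩
      rw [Finset.mem_coe, Finset.mem_biUnion]
      exact ⟨v, (hF v).2 ⟨ha, hb⟩, Finset.mem_image.2 ⟨w, (hN v w).2 hc, rfl⟩⟩
    refine h2.trans (Finset.card_biUnion_le.trans (Finset.sum_le_sum fun v _ => ?_))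
    exact Finset.card_image_le.trans (hc v).le
  refine h1.trans ?_
  unfold HD.vol
  rw [Finset.mul_sum]
  have h3 : ∀ v ∈ F, v ∈ D.VN := by
    intro v hv
    by_contra hcon
    have := deg_out D hD hG v (hBU v ((hF v).1 hv).1) hcon
    have := ((hF v).1 hv).2
    omega
  refine (Finset.sum_le_sum (g := fun v => 3 * (D.dg v - 2)) fun v hv => ?_).trans
    (Finset.sum_le_sum_of_subset fun v hv => ?_)
  · have h4 := hG.dg_eq v (h3 v hv)
    have h5 := ((hF v).1 hv).2
    show deg D.G v ≤ 3 * (D.dg v - 2)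
    omega
  · rw [Set.Finite.mem_toFinset]
    exact hBS v ((hF v).1 hv).1 (h3 v hv)

/-- no two hubs are adjacent -/
theorem hub_nadj {V P Q : Type} (D : HD V P Q) (hD : D.Ok) (hG : GOk D) :
    ∀ a ∈ D.U, ∀ b ∈ D.U, ¬ D.G.Adj a b := by
  intro a ha b hb h
  have h1 := hG.low a b (SimpleGraph.Walk.cons h SimpleGraph.Walk.nil) (by simp [h.ne]) h.ne
    (hG.U_ge a ha) (hG.U_ge b hb) (by
      intro x hx hxa hxb
      simp only [SimpleGraph.Walk.support_cons, SimpleGraph.Walk.support_nil, List.mem_cons,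
        List.not_mem_nil, or_false] at hx
      rcases hx with hx | hx
      · exact absurd hx hxa
      · exact absurd hx hxb)
  have h2 := hD.r_pos
  simp at h1
  omega

/-- a neighbour of a vertex of `N` outside the hubs, reached by an edge of `G`, is a neighbour in `N` or the next vertex
of a pin -/
theorem adj_cases {V P Q : Type} (D : HD V P Q) (hD : D.Ok) (hG : GOk D) (z z' : V)
    (hz : z ∈ D.VN) (h : D.G.Adj z z') :
    D.N.Adj z z' ∨ ∃ p, D.x p = z ∧ (D.w p).getVert 1 = z' := by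
  rcases hG.cover z z' h with h | ⟨p, h⟩ | ⟨q, h⟩
  · exact Or.inl h
  · right
    have h1 : D.x p = z := by
      by_contra hcon
      exact hD.w_N p z (mem_left h) (fun h0 => hcon h0.symm) hz
    subst h1
    exact ⟨p, rfl, snd_of_path _ (hD.w_path p) h⟩
  · exact absurd hz (hD.wq_N q z (mem_left h))

/-- the vertices between two hubs are only joined to vertices of the same thread -/
theorem adj_wq {V P Q : Type} (D : HD V P Q) (hD : D.Ok) (hG : GOk D) (q : Q) (z z' : V)
    (hz : z ∈ (D.wq q).support) (hzU : z ∉ D.U) (h : D.G.Adj z z') : z' ∈ (D.wq q).support := by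
  rcases hG.cover z z' h with h | ⟨p, h⟩ | ⟨q', h⟩
  · exfalso
    have h2 := hG.wq_deg q z hz (fun h0 => hzU (h0 ▸ hD.ha_U q)) (fun h0 => hzU (h0 ▸ hD.hb_U q))
    have h3 : (D.G.neighborSet z).Finite := by
      refine Set.finite_of_ncard_ne_zero ?_
      unfold deg at h2
      omega
    have h4 : (D.N.neighborSet z).Finite := h3.subset fun w hw => hD.N_le hw
    refine hD.wq_N q z hz (Or.inl ?_)
    unfold deg
    exact ((Set.ncard_pos h4).2 ⟨z', h⟩).ne'
  · exact absurd (hD.wq_w q p z hz (mem_left h) ▸ hD.hub_U p) hzU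
  · rw [hD.wq_disj q q' z hz (mem_left h) hzU]
    exact mem_right h

/-- a walk in `G` without the hubs and the edge `e`, which starts in `VN` and is so short that it meets no foot of a pin,
is a walk of `N` -/
theorem nr_out {V P Q : Type} [Finite V] (D : HD V P Q) (hD : D.Ok) (hG : GOk D) (e : Sym2 V)
    (y z : V) (ρ : ℕ) (hy : y ∈ D.VN) (hfree : ∀ p, ¬ Nr D.N ρ y (D.x p))
    (h : Nr (outG D.G D.U e) ρ y z) : z ∈ D.VN ∧ Nr D.N ρ y z := by
  suffices H : ∀ (n : ℕ) (z : V) (p : (outG D.G D.U e).Walk z y), p.length ≤ n → n ≤ ρ →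
      z ∈ D.VN ∧ Nr D.N n y z by
    obtain ⟨p, hp⟩ := h
    exact H ρ z p.reverse (by rwa [SimpleGraph.Walk.length_reverse]) le_rfl
  intro n
  induction n with
  | zero =>
    intro z p hp _
    have := SimpleGraph.Walk.eq_of_length_eq_zero (Nat.le_zero.1 hp)
    subst this
    exact ⟨hy, Nr.refl _ _ _⟩
  | succ n ih =>
    intro z p hp hn
    cases p with
    | nil => exact ⟨hy, Nr.refl _ _ _⟩
    | @cons _ w _ hw q =>
      rw [SimpleGraph.Walk.length_cons] at hp
      obtain ⟨h1, h2⟩ := ih w q (by omega) (by omega)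
      have h3 : D.G.Adj w z := hw.1.symm
      rcases adj_cases D hD hG w z h1 h3 with h4 | ⟨s, h4, -⟩
      · exact ⟨HD.VN_of_adj' h4, h2.trans (Nr.of_adj h4)⟩
      · exact absurd (h4 ▸ h2.mono (by omega)) (hfree s)

end Pool.Agent.Helper95.HH
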