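import Pool.Agent.Helper95.HH.GOk
import Pool.Agent.Helper71.UT.SegEx
import Pool.Agent.Helper85.HH.ExA
import Pool.Agent.Helper7.HH.ExB

/-!
# HH/Exist: the data of a graph with hubs (drawing half of theorem (H), MP_0dbcb7_co)

D10. `exists_cut` (`Helper71/UT/SegEx`) with `M` = the vertices of degree different from two gives the threads as segments
(`Cut.sg`). Hubs: `U` = the vertices of degree more than `Kh r` (so at least three). `N` = the union of the segments with no
end in `U`, `P` = the segments with exactly one end in `U` (oriented towards the hub), `Q` = the segments with both ends in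
`U`. All vertices of degree different from two have degree at least three or zero (`hdeg1`; isolated vertices are harmless).
`thr_le`: a path of `N` whose vertices have `dg = 2` (that is, degree two in `G`) is inside one segment, and so the path
extended by one edge at both ends is a path through vertices of degree two: length at most `L`.
-/

set_option autoImplicit false

open Set
open Pool.Agent.Helper83.OP Pool.Agent.Helper93.HH Pool.Agent.Helper95.UP

namespace Pool.Agent.Helper95.HH

/-- **D10** -/
theorem exists_hd {V : Type} [Finite V] (G : SimpleGraph V) (r L Kh : ℕ) (hr : 2 ≤ r)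
    (hrL : r ≤ L) (hK : 2 ≤ Kh * r) (hdeg1 : ∀ v, deg G v ≠ 1)
    (hlow : ∀ u v (p : G.Walk u v), p.IsPath → u ≠ v → 3 ≤ deg G u → 3 ≤ deg G v →
      (∀ x ∈ p.support, x ≠ u → x ≠ v → deg G x = 2) → r ≤ p.length)
    (hup : ∀ u v (p : G.Walk u v), p.IsPath →
      (∀ x ∈ p.support, x ≠ u → x ≠ v → deg G x = 2) → p.length ≤ L)
    (hcyc : ∀ (x : V) (C : G.Walk x x), C.IsCycle →
      ∃ u ∈ C.support, ∃ v ∈ C.support, u ≠ v ∧ 3 ≤ deg G u ∧ 3 ≤ deg G v) :
    ∃ (P Q : Type) (_ : Finite P) (_ : Finite Q) (D : HD V P Q), D.G = G ∧ D.r = r ∧ D.L = L ∧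
      D.Kh = Kh ∧ D.U = {v | Kh * r < deg G v} ∧ D.Ok ∧ GOk D := by
  obtain ⟨Q0, hQ0, ⟨C⟩⟩ := Pool.Agent.Helper71.UT.exists_cut (G := G) (M := {v | deg G v ≠ 2})
    (fun v hv => hv) (by
      intro x C hC
      obtain ⟨u, hu, v, hv, huv, h1, h2⟩ := hcyc x C hC
      refine ⟨u, hu, v, hv, huv, ?_, ?_⟩
      · change deg G u ≠ 2
        omega
      · change deg G v ≠ 2
        omega)
  let U : Set V := {v | Kh * r < deg G v}
  -- degrees
  have hdpos : ∀ {v w : V}, G.Adj v w → 0 < deg G v := by
    intro v w h
    exact (Set.ncard_pos (Set.toFinite _)).mpr ⟨w, h⟩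
  have hadjS : ∀ q, (∃ w, G.Adj (C.sg.a q) w) ∧ ∃ w, G.Adj (C.sg.b q) w := by
    intro q
    constructor
    · obtain ⟨w, hw⟩ := Pool.Agent.Helper71.UT.exists_edge (C.sg.T q) (C.sg.ne q)
        (C.sg.T q).start_mem_support
      exact ⟨w, (C.sg.T q).adj_of_mem_edges hw⟩
    · obtain ⟨w, hw⟩ := Pool.Agent.Helper71.UT.exists_edge (C.sg.T q) (C.sg.ne q)
        (C.sg.T q).end_mem_support
      exact ⟨w, (C.sg.T q).adj_of_mem_edges hw⟩
  have H : Helper7.HH.Hy C.sg U := by
    constructor
    · intro q
      obtain ⟨w, hw⟩ := (hadjS q).1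
      have h1 := hdpos hw
      have h2 := hdeg1 (C.sg.a q)
      have h3 : deg G (C.sg.a q) ≠ 2 := C.ma q
      omega
    · intro q
      obtain ⟨w, hw⟩ := (hadjS q).2
      have h1 := hdpos hw
      have h2 := hdeg1 (C.sg.b q)
      have h3 : deg G (C.sg.b q) ≠ 2 := C.mb q
      omega
    · intro u hu
      have : Kh * r < deg G u := hu
      omega
  -- the data
  let D := Helper7.HH.hd C.sg U r L Kh
  have hVN : ∀ v, v ∈ D.VN ↔ Helper7.HH.VNs C.sg U v := by
    intro v
    constructor
    · rintro (h | h)
      · left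
        have hne : ((Helper7.HH.nG C.sg U).neighborSet v).Nonempty := by
          rw [← Set.ncard_pos (Set.toFinite _)]
          exact Nat.pos_of_ne_zero h
        exact hne
      · exact Or.inr h
    · rintro (⟨w, hw⟩ | h)
      · left
        have : 0 < ((Helper7.HH.nG C.sg U).neighborSet v).ncard :=
          (Set.ncard_pos (Set.toFinite _)).mpr ⟨w, hw⟩
        exact this.ne'
      · exact Or.inr h
  have hdg : ∀ v ∈ D.VN, deg G v = D.dg v := fun v hv => Helper7.HH.dg_eq H ((hVN v).mp hv)
  have hdg0 : ∀ v, v ∉ D.VN → D.dg v = 0 := by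
    intro v hv
    have h1 : deg D.N v = 0 := by
      by_contra h
      exact hv (Or.inl h)
    have h2 : D.pn v = 0 := by
      unfold HD.pn
      rw [Set.ncard_eq_zero (Set.toFinite _), Set.eq_empty_iff_forall_notMem]
      intro p hp
      exact hv (Or.inr ⟨p, hp⟩)
    unfold HD.dg
    omega
  have hVN_of : ∀ v, D.dg v ≠ 0 → v ∈ D.VN := by
    intro v h
    by_contra hn
    exact h (hdg0 v hn)
  have hadjV : ∀ v ∈ D.VN, ∃ w, G.Adj v w := by
    intro v hv
    rcases (hVN v).mp hv with ⟨w, hw⟩ | ⟨p, rfl⟩
    · exact ⟨w, Helper7.HH.nG_le hw⟩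
    · obtain ⟨w, hw⟩ := Pool.Agent.Helper71.UT.exists_edge (Helper7.HH.pw p)
        (Helper7.HH.px_ne_ph p) (Helper7.HH.pw p).start_mem_support
      exact ⟨w, (Helper7.HH.pw p).adj_of_mem_edges hw⟩
  have hxVN : ∀ p, D.x p ∈ D.VN := fun p => Or.inr ⟨p, rfl⟩
  have hphU : ∀ p : Helper7.HH.PT C.sg U, 3 ≤ deg G (Helper7.HH.ph p) :=
    fun p => H.hU _ (Helper7.HH.ph_U p)
  have hsum : ∀ a ∈ U, deg G a = {p | D.hub p = a}.ncard + {q | D.ha q = a}.ncard +
      {q | D.hb q = a}.ncard := by
    intro a ha
    have h3 := H.hU a ha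
    have hM : a ∈ {v | deg G v ≠ 2} := by
      change deg G a ≠ 2
      omega
    rw [Helper85.HH.deg_mark C hM]
    exact Helper7.HH.hub_count ha
  have hwqd : ∀ q : Helper7.HH.QT C.sg U, ∀ z ∈ (C.sg.T q.1).support, z ≠ C.sg.a q.1 →
      z ≠ C.sg.b q.1 → deg G z = 2 := fun q z hz h1 h2 => C.sg.inner q.1 z hz h1 h2
  have hnU : ∀ z, deg G z = 2 → z ∉ U := by
    intro z h hz
    have := H.hU z hz
    omega
  refine ⟨Helper7.HH.PT C.sg U, Helper7.HH.QT C.sg U, inferInstance, inferInstance, D, rfl, rfl,
    rfl, rfl, rfl, ?_, ?_⟩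
  · constructor
    case r_pos => exact hr
    case r_le => exact hrL
    case N_le => exact Helper7.HH.nG_le
    case N_U => exact fun u v h => Helper7.HH.nG_notU H h
    case x_U => exact fun p => Helper7.HH.px_U p
    case hub_U => exact fun p => Helper7.HH.ph_U p
    case w_path => exact fun p => Helper7.HH.pw_path p
    case w_ge =>
      intro p
      exact hlow _ _ (Helper7.HH.pw p) (Helper7.HH.pw_path p) (Helper7.HH.px_ne_ph p)
        (Helper7.HH.px_deg H p) (hphU p) (fun z hz h1 h2 => Helper7.HH.pw_inner p hz h1 h2)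
    case w_le =>
      intro p
      exact hup _ _ (Helper7.HH.pw p) (Helper7.HH.pw_path p)
        (fun z hz h1 h2 => Helper7.HH.pw_inner p hz h1 h2)
    case w_U =>
      intro p z hz hne
      by_cases hx : z = D.x p
      · rw [hx]; exact Helper7.HH.px_U p
      · exact hnU z (Helper7.HH.pw_inner p hz hx hne)
    case w_N =>
      intro p z hz hne hv
      exact Helper7.HH.pw_VN H p hz hne ((hVN z).mp hv)
    case w_disj =>
      intro p p' z hz hz' h1 h2
      exact Helper7.HH.pw_disj hz hz' h1 h2
    case ha_U => exact fun q => q.2.1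
    case hb_U => exact fun q => q.2.2
    case q_ne => exact fun q => C.sg.ne q.1
    case wq_path => exact fun q => C.sg.path q.1
    case wq_le =>
      intro q
      exact hup _ _ (C.sg.T q.1) (C.sg.path q.1) (hwqd q)
    case wq_U =>
      intro q z hz h1 h2
      exact hnU z (hwqd q z hz h1 h2)
    case wq_N =>
      intro q z hz hv
      exact Helper7.HH.wq_VN H q hz ((hVN z).mp hv)
    case wq_w =>
      intro q p z hz hz'
      exact Helper7.HH.wq_pw q p hz hz'
    case wq_disj =>
      intro q q' z hz hz' hU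
      exact Helper7.HH.wq_disj hz hz' hU
    case hub_deg => exact fun a ha => ha
    case hub_sum => exact hsum
    case dg_le =>
      intro v hv
      by_cases h : v ∈ D.VN
      · rw [← hdg v h]
        exact not_lt.mp hv
      · rw [hdg0 v h]
        exact Nat.zero_le _
    case two =>
      intro v hv
      rw [← hdg v hv]
      obtain ⟨w, hw⟩ := hadjV v hv
      have h1 := hdpos hw
      have h2 := hdeg1 v
      omega
    case three =>
      intro p
      rw [← hdg _ (hxVN p)]
      exact Helper7.HH.px_deg H p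
    case thr_le =>
      intro u v W hW h2
      have hW' : (W.mapLe (Helper7.HH.nG_le (Sg := C.sg) (U := U))).IsPath := hW.mapLe _
      have := Helper85.HH.thr_le hup hcyc (W.mapLe (Helper7.HH.nG_le (Sg := C.sg) (U := U))) hW' (by
        intro z hz
        rw [SimpleGraph.Walk.support_mapLe_eq_support] at hz
        have h3 := h2 z hz
        rw [hdg z (hVN_of z (by omega))]
        exact h3)
      rw [SimpleGraph.Walk.length_map] at this
      exact this
    case thr_ge =>
      intro u v W huv hu hv
      have := Helper85.HH.thr_ge hlow (W.mapLe (Helper7.HH.nG_le (Sg := C.sg) (U := U))) huv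
        (by rw [hdg u (hVN_of u (by omega))]; exact hu)
        (by rw [hdg v (hVN_of v (by omega))]; exact hv)
      rw [SimpleGraph.Walk.length_map] at this
      exact this
  · constructor
    case deg_ne => exact hdeg1
    case deg_le => exact fun v hv => not_lt.mp hv
    case U_ge => exact H.hU
    case low => exact hlow
    case up => exact hup
    case cyc => exact hcyc
    case dg_eq => exact hdg
    case cover => exact fun u v h => Helper7.HH.cover u v h
    case w_deg => exact fun p z hz h1 h2 => Helper7.HH.pw_inner p hz h1 h2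
    case wq_deg => exact fun q z hz h1 h2 => hwqd q z hz h1 h2
    case wq_ge =>
      intro q
      exact hlow _ _ (C.sg.T q.1) (C.sg.path q.1) (C.sg.ne q.1) (H.hU _ q.2.1) (H.hU _ q.2.2)
        (hwqd q)

end Pool.Agent.Helper95.HH
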