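import Pool.Agent.Helper93.HH.Defs
import Pool.Agent.Helper95.UP.Defs

/-!
# HH/GOk: the graph around the data HD (drawing half of theorem (H), MP_0dbcb7_co)
-/

set_option autoImplicit false

open Set
open Pool.Agent.Helper83.OP Pool.Agent.Helper93.HH

namespace Pool.Agent.Helper95.HH

/-- the properties of the graph `D.G` itself (in addition to `D.Ok`) -/
structure GOk {V P Q : Type} (D : HD V P Q) : Prop where
  deg_ne : ∀ v, deg D.G v ≠ 1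
  deg_le : ∀ v, v ∉ D.U → deg D.G v ≤ D.Kh * D.r
  U_ge : ∀ u ∈ D.U, 3 ≤ deg D.G u
  low : ∀ u v (p : D.G.Walk u v), p.IsPath → u ≠ v → 3 ≤ deg D.G u → 3 ≤ deg D.G v →
    (∀ x ∈ p.support, x ≠ u → x ≠ v → deg D.G x = 2) → D.r ≤ p.length
  up : ∀ u v (p : D.G.Walk u v), p.IsPath →
    (∀ x ∈ p.support, x ≠ u → x ≠ v → deg D.G x = 2) → p.length ≤ D.L
  cyc : ∀ (x : V) (C : D.G.Walk x x), C.IsCycle →
    ∃ u ∈ C.support, ∃ v ∈ C.support, u ≠ v ∧ 3 ≤ deg D.G u ∧ 3 ≤ deg D.G v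
  dg_eq : ∀ v ∈ D.VN, deg D.G v = D.dg v
  cover : ∀ u v, D.G.Adj u v →
    D.N.Adj u v ∨ (∃ p, s(u, v) ∈ (D.w p).edges) ∨ ∃ q, s(u, v) ∈ (D.wq q).edges
  w_deg : ∀ p, ∀ z ∈ (D.w p).support, z ≠ D.x p → z ≠ D.hub p → deg D.G z = 2
  wq_deg : ∀ q, ∀ z ∈ (D.wq q).support, z ≠ D.ha q → z ≠ D.hb q → deg D.G z = 2
  wq_ge : ∀ q, D.r ≤ (D.wq q).length

/-- the graph without the edge `e` and without the hubs -/
def outG {V : Type} (G : SimpleGraph V) (U : Set V) (e : Sym2 V) : SimpleGraph V where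
  Adj a b := G.Adj a b ∧ s(a, b) ≠ e ∧ a ∉ U ∧ b ∉ U
  symm := ⟨fun a b h => ⟨h.1.symm, by rw [Sym2.eq_swap]; exact h.2.1, h.2.2.2, h.2.2.1⟩⟩
  loopless := ⟨fun _ h => h.1.ne rfl⟩

end Pool.Agent.Helper95.HH
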