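import Pool.Agent.Helper83.HR.Ring

/-!
# HH/RO: the graph with doors, without the hubs (drawing half of theorem (H), MP_0dbcb7_co)

`Helper83/HR`: `Dor H U` are the doors (pairs of a neighbour of a hub and the hub), `ringGraph H U ord` the graph with doors.
-/

set_option autoImplicit false

open Set
open Pool.Agent.Helper83.OP Pool.Agent.Helper83.HR

namespace Pool.Agent.Helper95.HH

/-- `ord a` numbers the neighbours of the hub `a` by `0, .., deg a - 1` -/
def IsOrd {V : Type} (H : SimpleGraph V) (U : Set V) (ord : V → V → ℕ) : Prop :=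
  ∀ a ∈ U, Set.BijOn (ord a) (H.neighborSet a) (Set.Iio (deg H a))

/-- the door of the edge `y a` at the hub `a` -/
def mkDor {V : Type} {H : SimpleGraph V} {U : Set V} (y a : V) (h : H.Adj y a) (ha : a ∈ U) :
    Dor H U :=
  (⟨(y, a), h, ha⟩ : {d : V × V // H.Adj d.1 d.2 ∧ d.2 ∈ U})

@[simp] theorem mkDor_fst {V : Type} {H : SimpleGraph V} {U : Set V} (y a : V) (h : H.Adj y a)
    (ha : a ∈ U) : (mkDor y a h ha).1.1 = y := rfl

@[simp] theorem mkDor_snd {V : Type} {H : SimpleGraph V} {U : Set V} (y a : V) (h : H.Adj y a)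
    (ha : a ∈ U) : (mkDor y a h ha).1.2 = a := rfl

theorem dor_adj {V : Type} {H : SimpleGraph V} {U : Set V} (d : Dor H U) : H.Adj d.1.1 d.1.2 :=
  d.2.1

theorem dor_mem {V : Type} {H : SimpleGraph V} {U : Set V} (d : Dor H U) : d.1.2 ∈ U :=
  d.2.2

theorem dor_ext {V : Type} {H : SimpleGraph V} {U : Set V} (d d' : Dor H U)
    (h1 : d.1.1 = d'.1.1) (h2 : d.1.2 = d'.1.2) : d = d' :=
  Subtype.ext (Prod.ext h1 h2)

/-- the graph with doors, without the hubs -/
def ringOut {V : Type} (H : SimpleGraph V) (U : Set V) (ord : V → V → ℕ) :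
    SimpleGraph (V ⊕ Dor H U) where
  Adj s t := (ringGraph H U ord).Adj s t ∧ (∀ a ∈ U, s ≠ Sum.inl a) ∧ ∀ a ∈ U, t ≠ Sum.inl a
  symm := ⟨fun _ _ h => ⟨h.1.symm, h.2.2, h.2.1⟩⟩
  loopless := ⟨fun _ h => h.1.ne rfl⟩

theorem ringOut_le {V : Type} (H : SimpleGraph V) (U : Set V) (ord : V → V → ℕ) :
    ringOut H U ord ≤ ringGraph H U ord := fun _ _ h => h.1

/-- an old edge -/
theorem ringOut_old {V : Type} {H : SimpleGraph V} {U : Set V} {ord : V → V → ℕ} {u v : V}
    (h : H.Adj u v) (hu : u ∉ U) (hv : v ∉ U) :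
    (ringOut H U ord).Adj (Sum.inl u) (Sum.inl v) := by
  refine ⟨⟨h, hu, hv⟩, fun a ha e => ?_, fun a ha e => ?_⟩
  · cases e
    exact hu ha
  · cases e
    exact hv ha

/-- from a vertex to its door -/
theorem ringOut_door {V : Type} {H : SimpleGraph V} {U : Set V} {ord : V → V → ℕ} (d : Dor H U)
    (h : d.1.1 ∉ U) : (ringOut H U ord).Adj (Sum.inl d.1.1) (Sum.inr d) := by
  refine ⟨Or.inl rfl, fun a ha e => ?_, fun a _ e => ?_⟩
  · exact h (Sum.inl.inj e ▸ ha)
  · cases e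

/-- from a door to the next one -/
theorem ringOut_ring {V : Type} {H : SimpleGraph V} {U : Set V} {ord : V → V → ℕ} (d d' : Dor H U)
    (h1 : d.1.2 = d'.1.2) (h2 : ord d.1.2 d.1.1 + 1 = ord d.1.2 d'.1.1) :
    (ringOut H U ord).Adj (Sum.inr d) (Sum.inr d') := by
  refine ⟨Or.inl ⟨h1, h2⟩, fun a _ e => ?_, fun a _ e => ?_⟩
  · cases e
  · cases e

end Pool.Agent.Helper95.HH
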