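import Pool.Agent.Helper93.HH.Basic

/-!
# HH/CoreF: the neighbourhood of a path is a forest over the path (drawing half of theorem (H), MP_0dbcb7_co)

D5d. `Γ` is a path of `G0`, `B` the set of the vertices within `J` of `Γ`. If all cycles of `G0` that meet `B` are longer than
`2 J + 1 + |Γ|`, then `B` is a forest over `Γ`, and `Γ` has no chord.

Proof. `tt z` = the distance from `Γ` (`sInf`), `par z` = a neighbour with `tt (par z) + 1 = tt z`, `core z = par^[tt z] z`. If `z`,
`z'` in `B` are adjacent, and neither is the parent of the other, and not both are on `Γ`, then the walk from `z` along the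
parents to `Γ`, along `Γ`, and back to `z'` does not use the edge `z z'` (parents: `tt` decreases; `Γ`: `tt = 0`), so there is a
path from `z` to `z'` in `G0` without this edge of length at most `2 J + |Γ|`, and a cycle through `z` of length at most
`2 J + 1 + |Γ|` (`SimpleGraph.Walk.bypass`, `cons_isCycle_iff`). The same for a chord of `Γ`.
-/

set_option autoImplicit false

open Set
open Pool.Agent.Helper93.HH

namespace Pool.Agent.Helper95.HH

/-- the part of `Γ` between two of its vertices -/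
private theorem coref_sub {V : Type} {G0 : SimpleGraph V} {a b : V} (Γ : G0.Walk a b) {x x' : V}
    (hx : x ∈ Γ.support) (hx' : x' ∈ Γ.support) :
    ∃ q : G0.Walk x x', q.length ≤ Γ.length ∧ q.edges ⊆ Γ.edges := by
  classical
  have h1 : x' ∈ ((Γ.takeUntil x hx).append (Γ.dropUntil x hx)).support := by
    rw [Γ.take_spec hx]
    exact hx'
  rw [SimpleGraph.Walk.mem_support_append_iff] at h1
  rcases h1 with h1 | h1
  · refine ⟨((Γ.takeUntil x hx).dropUntil x' h1).reverse, ?_, ?_⟩
    · rw [SimpleGraph.Walk.length_reverse]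
      exact (SimpleGraph.Walk.length_dropUntil_le_length _ _).trans
        (SimpleGraph.Walk.length_takeUntil_le_length _ _)
    · intro e he
      rw [SimpleGraph.Walk.edges_reverse, List.mem_reverse] at he
      exact SimpleGraph.Walk.edges_takeUntil_subset_edges _ _
        (SimpleGraph.Walk.edges_dropUntil_subset_edges _ _ he)
  · refine ⟨(Γ.dropUntil x hx).takeUntil x' h1, ?_, ?_⟩
    · exact (SimpleGraph.Walk.length_takeUntil_le_length _ _).trans
        (SimpleGraph.Walk.length_dropUntil_le_length _ _)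
    · intro e he
      exact SimpleGraph.Walk.edges_dropUntil_subset_edges _ _
        (SimpleGraph.Walk.edges_takeUntil_subset_edges _ _ he)

/-- a walk between two adjacent vertices without the edge gives a cycle -/
private theorem coref_cyc {V : Type} {G0 : SimpleGraph V} {z z' : V} (h : G0.Adj z z')
    (W : G0.Walk z z') (hW : s(z, z') ∉ W.edges) :
    ∃ Z : G0.Walk z' z', Z.IsCycle ∧ Z.length ≤ W.length + 1 := by
  classical
  refine ⟨SimpleGraph.Walk.cons h.symm W.bypass, ?_, ?_⟩
  · rw [SimpleGraph.Walk.cons_isCycle_iff]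
    refine ⟨W.bypass_isPath, fun h1 => hW ?_⟩
    rw [Sym2.eq_swap]
    exact W.edges_bypass_subset_edges h1
  · rw [SimpleGraph.Walk.length_cons]
    exact Nat.succ_le_succ W.length_bypass_le_length

/-- **D5d** -/
theorem core_forest {V : Type} [Finite V] (G0 : SimpleGraph V) (J : ℕ) {a b : V}
    (Γ : G0.Walk a b) (hΓ : Γ.IsPath)
    (hcyc : ∀ z (Z : G0.Walk z z), Z.IsCycle → (∃ y ∈ Γ.support, Nr G0 J y z) →
      2 * J + 1 + Γ.length < Z.length) :
    ∃ (tt : V → ℕ) (par core : V → V),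
      (∀ z, (∃ y ∈ Γ.support, Nr G0 J y z) → tt z ≤ J) ∧
      (∀ z, (∃ y ∈ Γ.support, Nr G0 J y z) → tt z ≠ 0 → (∃ y ∈ Γ.support, Nr G0 J y (par z)) ∧
        G0.Adj z (par z) ∧ tt (par z) + 1 = tt z ∧ core (par z) = core z) ∧
      (∀ z, (∃ y ∈ Γ.support, Nr G0 J y z) → tt z = 0 → core z = z) ∧
      (∀ z, (∃ y ∈ Γ.support, Nr G0 J y z) → (tt z = 0 ↔ z ∈ Γ.support)) ∧
      (∀ z z', (∃ y ∈ Γ.support, Nr G0 J y z) → (∃ y ∈ Γ.support, Nr G0 J y z') → G0.Adj z z' →
        (tt z ≠ 0 ∧ par z = z') ∨ (tt z' ≠ 0 ∧ par z' = z) ∨ (tt z = 0 ∧ tt z' = 0)) ∧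
      (∀ z z', (∃ y ∈ Γ.support, Nr G0 J y z) → ¬ (∃ y ∈ Γ.support, Nr G0 J y z') → G0.Adj z z' →
        tt z = J) ∧
      ∀ i j, i < j → j ≤ Γ.length → G0.Adj (Γ.getVert i) (Γ.getVert j) → j = i + 1 := by
  classical
  set D : V → Set ℕ := fun z => {t | ∃ y ∈ Γ.support, Nr G0 t y z} with hD
  set tt : V → ℕ := fun z => sInf (D z) with htt
  have hle : ∀ z t, t ∈ D z → tt z ≤ t := fun z t ht => Nat.sInf_le ht
  have hmem : ∀ z t, t ∈ D z → tt z ∈ D z := fun z t ht => Nat.sInf_mem ⟨t, ht⟩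
  have hmono : ∀ z t t', t ∈ D z → t ≤ t' → t' ∈ D z := by
    rintro z t t' ⟨y, hy, hn⟩ h
    exact ⟨y, hy, hn.mono h⟩
  have hadj : ∀ z z' t, G0.Adj z z' → t ∈ D z → t + 1 ∈ D z' := by
    rintro z z' t h ⟨y, hy, hn⟩
    exact ⟨y, hy, hn.trans (Nr.of_adj h)⟩
  have hzero : ∀ z, 0 ∈ D z ↔ z ∈ Γ.support := by
    intro z
    constructor
    · rintro ⟨y, hy, hn⟩
      rw [← hn.eq]
      exact hy
    · intro h
      exact ⟨z, h, Nr.refl _ _ _⟩
  have hsup : ∀ z, J ∈ D z → (tt z = 0 ↔ z ∈ Γ.support) := by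
    intro z hz
    rw [← hzero]
    constructor
    · intro h
      rw [← h]
      exact hmem z J hz
    · intro h
      exact Nat.le_zero.1 (hle z 0 h)
  have hpar0 : ∀ z, ∃ w, J ∈ D z → tt z ≠ 0 → G0.Adj z w ∧ J ∈ D w ∧ tt w + 1 = tt z := by
    intro z
    by_cases hz : J ∈ D z ∧ tt z ≠ 0
    · obtain ⟨hz, h0⟩ := hz
      obtain ⟨y, hy, p, hp⟩ := hmem z J hz
      have h1 : ∀ (q : G0.Walk z y), q.length ≤ tt z →
          ∃ w, G0.Adj z w ∧ J ∈ D w ∧ tt w + 1 = tt z := by
        intro q hq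
        cases q with
        | nil => exact absurd ((hsup z hz).2 hy) h0
        | @cons _ w _ h q =>
          rw [SimpleGraph.Walk.length_cons] at hq
          have h2 : tt z - 1 ∈ D w := ⟨y, hy, q.reverse, by
            rw [SimpleGraph.Walk.length_reverse]
            omega⟩
          have h3 := hle w _ h2
          have h4 := hle z _ (hadj w z _ h.symm (hmem w _ h2))
          have h5 := hle z J hz
          exact ⟨w, h, hmono w _ J h2 (by omega), by omega⟩
      obtain ⟨w, hw⟩ := h1 p.reverse (by rw [SimpleGraph.Walk.length_reverse]; exact hp)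
      exact ⟨w, fun _ _ => hw⟩
    · exact ⟨z, fun h1 h2 => absurd ⟨h1, h2⟩ hz⟩
  choose par hpar using hpar0
  have hcore : ∀ z, J ∈ D z → tt z ≠ 0 → par^[tt (par z)] (par z) = par^[tt z] z := by
    intro z hz h0
    rw [← (hpar z hz h0).2.2, Function.iterate_succ_apply]
  -- the walk to the root
  have hroot : ∀ k z, J ∈ D z → tt z = k → ∃ x ∈ Γ.support, ∃ p : G0.Walk z x, p.length = k ∧
      ∀ e ∈ p.edges, ∃ w, J ∈ D w ∧ tt w ≠ 0 ∧ e = s(w, par w) := by
    intro k
    induction k with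
    | zero =>
      intro z hz h0
      refine ⟨z, (hsup z hz).1 h0, SimpleGraph.Walk.nil, rfl, ?_⟩
      intro e he
      rw [SimpleGraph.Walk.edges_nil] at he
      exact absurd he List.not_mem_nil
    | succ k ih =>
      intro z hz hk
      have h0 : tt z ≠ 0 := by omega
      obtain ⟨h1, h2, h3⟩ := hpar z hz h0
      obtain ⟨x, hx, p, hp, hpe⟩ := ih (par z) h2 (by omega)
      refine ⟨x, hx, SimpleGraph.Walk.cons h1 p, by rw [SimpleGraph.Walk.length_cons, hp], ?_⟩
      intro e he
      rw [SimpleGraph.Walk.edges_cons, List.mem_cons] at he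
      rcases he with he | he
      · exact ⟨z, hz, h0, he⟩
      · exact hpe e he
  refine ⟨tt, par, fun z => par^[tt z] z, fun z hz => hle z J hz, ?_, ?_, fun z hz => hsup z hz,
    ?_, ?_, ?_⟩
  · intro z hz h0
    obtain ⟨h1, h2, h3⟩ := hpar z hz h0
    exact ⟨h2, h1, h3, hcore z hz h0⟩
  · intro z hz h0
    show par^[tt z] z = z
    rw [h0]
    rfl
  · intro z z' hz hz' hzz
    by_contra hcon
    push Not at hcon
    obtain ⟨hc1, hc2, hc3⟩ := hcon
    obtain ⟨x, hx, p, hp, hpe⟩ := hroot (tt z) z hz rfl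
    obtain ⟨x', hx', p', hp', hpe'⟩ := hroot (tt z') z' hz' rfl
    obtain ⟨q, hq, hqe⟩ := coref_sub Γ hx hx'
    have hno : ∀ w, J ∈ D w → tt w ≠ 0 → s(z, z') ≠ s(w, par w) := by
      intro w hw h0 he
      rw [Sym2.eq_iff] at he
      rcases he with ⟨rfl, h2⟩ | ⟨h1, rfl⟩
      · exact hc1 h0 h2.symm
      · exact hc2 h0 h1.symm
    have hW : s(z, z') ∉ ((p.append q).append p'.reverse).edges := by
      rw [SimpleGraph.Walk.edges_append, SimpleGraph.Walk.edges_append, List.mem_append,
        List.mem_append, SimpleGraph.Walk.edges_reverse, List.mem_reverse]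
      rintro ((h | h) | h)
      · obtain ⟨w, h1, h2, h3⟩ := hpe _ h
        exact hno w h1 h2 h3
      · have h1 := hqe h
        exact hc3 ((hsup z hz).2 (Γ.fst_mem_support_of_mem_edges h1))
          ((hsup z' hz').2 (Γ.snd_mem_support_of_mem_edges h1))
      · obtain ⟨w, h1, h2, h3⟩ := hpe' _ h
        exact hno w h1 h2 h3
    obtain ⟨Z, hZ, hZl⟩ := coref_cyc hzz _ hW
    have h1 := hcyc z' Z hZ hz'
    rw [SimpleGraph.Walk.length_append, SimpleGraph.Walk.length_append,
      SimpleGraph.Walk.length_reverse, hp, hp'] at hZl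
    have h2 := hle z J hz
    have h3 := hle z' J hz'
    omega
  · intro z z' hz hz' hzz
    have h1 := hle z J hz
    by_contra hcon
    exact hz' (hmono z' _ J (hadj z z' _ hzz (hmem z J hz)) (by omega))
  · intro i j hij hj hadjij
    by_contra hcon
    have hi : Γ.getVert i ∈ Γ.support := Γ.getVert_mem_support i
    have hjs : Γ.getVert j ∈ Γ.support := Γ.getVert_mem_support j
    obtain ⟨q, hq, hqe⟩ := coref_sub Γ hi hjs
    have hW : s(Γ.getVert i, Γ.getVert j) ∉ q.edges := by
      intro h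
      have h1 := hqe h
      rw [SimpleGraph.Walk.mk_mem_edges_iff_exists] at h1
      have hinj : ∀ k l, k ≤ Γ.length → l ≤ Γ.length → Γ.getVert k = Γ.getVert l → k = l :=
        fun k l hk hl h => hΓ.getVert_injOn hk hl h
      obtain ⟨k, hk, hk2⟩ := h1
      rw [Sym2.eq_iff] at hk2
      rcases hk2 with ⟨h3, h4⟩ | ⟨h3, h4⟩
      · have h5 := hinj k i (by omega) (by omega) h3
        have h6 := hinj (k + 1) j (by omega) hj h4
        omega
      · have h5 := hinj k j (by omega) hj h3
        have h6 := hinj (k + 1) i (by omega) (by omega) h4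
        omega
    obtain ⟨Z, hZ, hZl⟩ := coref_cyc hadjij _ hW
    have h1 := hcyc _ Z hZ ⟨_, hjs, Nr.refl _ _ _⟩
    omega

end Pool.Agent.Helper95.HH
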