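import Pool.Agent.Helper95.HH.RingSum
import Pool.Agent.Helper83.HR.Hub

/-!
# HH/Close: closure and surgery with hubs (drawing half of theorem (H), MP_0dbcb7_co)

D4d. `G` is partitioned into pieces `Th` of length at least `r`, and at most `2 r` outside `S0`; only the last vertex of a
piece may be a hub.
`H = G - e` is 1-planar; the pieces outside `S0` avoid `e`. For every numbering `ord` of the doors the vertices outside `U`
have places `pl v` (vertices outside `U`, or doors) such that the places of the ends of every piece are joined by a short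
walk outside the hubs (from the place of the first vertex to some door of the last vertex, if the latter is a hub).
Then `G` is `K`-planar. From `Helper83/HR/Ring.exists_ring`, `Helper83/HR/Hub.surg_hub` and `ring_sum`.
-/

set_option autoImplicit false

open Set
open Pool.Agent.Helper83.OP Pool.Agent.Helper83.LN Pool.Agent.Helper83.HR

namespace Pool.Agent.Helper95.HH

/-- a walk of the graph without hubs, turned into a walk with small degree sum -/
private theorem cl_walk {V : Type} [Finite V] (G H : SimpleGraph V) (U : Set V) (ord : V → V → ℕ)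
    (C r K1 len : ℕ) (hHG : H ≤ G) (hord : IsOrd H U ord) (hU : ∀ u ∈ U, ∀ v ∈ U, ¬ G.Adj u v)
    (hU3 : ∀ u ∈ U, 3 ≤ deg G u) (hr : 1 ≤ r) (hdeg : ∀ v, v ∉ U → deg G v ≤ C * r)
    (hsp : ∀ u v (p : G.Walk u v), p.IsPath → u ≠ v → 3 ≤ deg G u → 3 ≤ deg G v →
      (∀ x ∈ p.support, x ≠ u → x ≠ v → deg G x = 2) → r ≤ p.length)
    (hone : ∀ v, deg G v ≠ 1) (hlen : r ≤ len)
    {s t : V ⊕ Dor H U} (p : (ringOut H U ord).Walk s t) (hp : p.length ≤ K1 * len)
    (hs : ∀ a ∈ U, s ≠ Sum.inl a) :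
    ∃ q : (ringGraph H U ord).Walk s t, (∀ a ∈ U, Sum.inl a ∉ q.support) ∧
      2 * (q.support.map (deg (ringGraph H U ord))).sum + 8 * q.length ≤
        (2 * (C + 6) * (K1 + 1) + 8 * K1) * len := by
  classical
  refine ⟨p.bypass.mapLe (ringOut_le H U ord), ?_, ?_⟩
  · intro a ha hmem
    rw [SimpleGraph.Walk.support_mapLe_eq_support] at hmem
    have h2 : ∀ x ∈ p.support, x ≠ Sum.inl a := by
      have key : ∀ (s t : V ⊕ Dor H U) (p : (ringOut H U ord).Walk s t), s ≠ Sum.inl a →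
          ∀ x ∈ p.support, x ≠ Sum.inl a := by
        intro s t p
        induction p with
        | nil =>
          intro hs x hx
          simp only [SimpleGraph.Walk.support_nil, List.mem_singleton] at hx
          rw [hx]
          exact hs
        | cons h q ih =>
          intro hs x hx
          rw [SimpleGraph.Walk.support_cons, List.mem_cons] at hx
          rcases hx with hx | hx
          · rw [hx]
            exact hs
          · exact ih (h.2.2 a ha) x hx
      exact key s t p (hs a ha)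
    exact h2 _ (p.support_bypass_subset_support hmem) rfl
  · rw [SimpleGraph.Walk.support_mapLe_eq_support, SimpleGraph.Walk.length_map]
    have h1 := ring_sum G H U ord C r hHG hord hU hU3 hr hdeg hsp hone p.bypass
      p.bypass_isPath hs
    have h2 : p.bypass.length ≤ K1 * len := p.length_bypass_le_length.trans hp
    have h3 : (C + 6) * (p.bypass.length + r) ≤ (C + 6) * ((K1 + 1) * len) := by
      apply Nat.mul_le_mul_left
      calc p.bypass.length + r ≤ K1 * len + len := Nat.add_le_add h2 hlen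
        _ = (K1 + 1) * len := by ring
    calc 2 * (p.bypass.support.map (deg (ringGraph H U ord))).sum + 8 * p.bypass.length
        ≤ 2 * ((C + 6) * ((K1 + 1) * len)) + 8 * (K1 * len) := by omega
      _ = (2 * (C + 6) * (K1 + 1) + 8 * K1) * len := by ring

/-- **D4d** -/
theorem surg_close_hub (C K1 : ℕ) : ∃ K : ℕ, ∀ (V T : Type) [Finite V] [Fintype T]
    (G : SimpleGraph V) (U : Set V) (Th : Threads G T) (e : Sym2 V) (r : ℕ) (S0 : Finset T),
    KPl 1 (G.deleteEdges {e}) → 1 ≤ r →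
    (∀ v, deg G v ≠ 1) → (∀ v, v ∉ U → deg G v ≤ C * r) → (∀ u ∈ U, 3 ≤ deg G u) →
    (∀ u v (p : G.Walk u v), p.IsPath → u ≠ v → 3 ≤ deg G u → 3 ≤ deg G v →
      (∀ x ∈ p.support, x ≠ u → x ≠ v → deg G x = 2) → r ≤ p.length) →
    S0.card ≤ C * r → (∀ τ, r ≤ Th.len τ) → (∀ τ, τ ∉ S0 → Th.len τ ≤ 2 * r) →
    (∀ τ t, t < Th.len τ → Th.x τ t ∉ U) →
    (∀ τ, τ ∉ S0 → ∀ t < Th.len τ, s(Th.x τ t, Th.x τ (t + 1)) ≠ e) →
    (∀ ord : V → V → ℕ, IsOrd (G.deleteEdges {e}) U ord →
      ∃ pl : V → V ⊕ Dor (G.deleteEdges {e}) U,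
        (∀ v, v ∉ U → ∀ a ∈ U, pl v ≠ Sum.inl a) ∧
        (∀ τ, τ ∉ S0 → pl (Th.x τ 0) = Sum.inl (Th.x τ 0) ∧
          (Th.x τ (Th.len τ) ∉ U → pl (Th.x τ (Th.len τ)) = Sum.inl (Th.x τ (Th.len τ)))) ∧
        (∀ τ, Th.x τ (Th.len τ) ∉ U →
          ∃ p : (ringOut (G.deleteEdges {e}) U ord).Walk (pl (Th.x τ 0)) (pl (Th.x τ (Th.len τ))),
            p.length ≤ K1 * Th.len τ) ∧
        ∀ τ, Th.x τ (Th.len τ) ∈ U → ∃ d : Dor (G.deleteEdges {e}) U,
          d.1.2 = Th.x τ (Th.len τ) ∧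
          ∃ p : (ringOut (G.deleteEdges {e}) U ord).Walk (pl (Th.x τ 0)) (Sum.inr d),
            p.length ≤ K1 * Th.len τ) →
    KPl K G := by
  classical
  obtain ⟨K, hK⟩ := surg_hub C (2 * (C + 6) * (K1 + 1) + 8 * K1)
  refine ⟨K, ?_⟩
  intro V T _ _ G U Th e r S0 h1 hr hone hdeg hU3 hsp hS0 hlen hlen2 hx he hpl
  have hHG : G.deleteEdges {e} ≤ G := SimpleGraph.deleteEdges_le _
  have hUG : ∀ u ∈ U, ∀ v ∈ U, ¬ G.Adj u v := by
    intro u hu v hv huv
    obtain ⟨τ, t, ht, h2⟩ := Th.cover u v huv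
    have h3 := hx τ t ht
    have h4 : Th.x τ t ∈ s(u, v) := by
      rw [h2]
      exact Sym2.mem_mk_left _ _
    rcases Sym2.mem_iff.1 h4 with h5 | h5
    · exact h3 (h5 ▸ hu)
    · exact h3 (h5 ▸ hv)
  have hUH : ∀ u ∈ U, ∀ v ∈ U, ¬ (G.deleteEdges {e}).Adj u v :=
    fun u hu v hv h => hUG u hu v hv (hHG h)
  obtain ⟨ord, hord, hring⟩ := exists_ring (G.deleteEdges {e}) h1 U hUH
  obtain ⟨pl, p1, p2, p3, p4⟩ := hpl ord hord
  have hx0 : ∀ τ, Th.x τ 0 ∉ U := fun τ => hx τ 0 (Th.pos τ)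
  refine hK V T G (G.deleteEdges {e}) U ord Th (fun v => if v ∈ U then Sum.inl v else pl v) r S0
    hring (fun a ha => (hord a ha).injOn) hHG hUH hr hdeg hS0 hlen hlen2 hx ?_ ?_ ?_ ?_
  · intro u hu
    simp [hu]
  · intro v hv a ha
    simp only [hv, if_false]
    exact p1 v hv a ha
  · intro τ hτ
    refine ⟨fun t ht => ?_, ?_, ?_⟩
    · rw [SimpleGraph.deleteEdges_adj]
      exact ⟨Th.adj τ t ht, he τ hτ t ht⟩
    · simp only [hx0 τ, if_false]
      exact (p2 τ hτ).1
    · by_cases h : Th.x τ (Th.len τ) ∈ U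
      · simp [h]
      · simp only [h, if_false]
        exact (p2 τ hτ).2 h
  · intro τ
    rw [if_neg (hx0 τ)]
    by_cases h : Th.x τ (Th.len τ) ∈ U
    · obtain ⟨d, hd, p, hp⟩ := p4 τ h
      refine ⟨Sum.inr d, fun h' => absurd h h', fun _ => ⟨d, rfl, hd⟩, ?_⟩
      exact cl_walk G _ U ord C r K1 (Th.len τ) hHG hord hUG hU3 hr hdeg hsp hone (hlen τ) p hp
        (p1 _ (hx0 τ))
    · obtain ⟨p, hp⟩ := p3 τ h
      refine ⟨pl (Th.x τ (Th.len τ)), fun _ => ?_, fun h' => absurd h' h, ?_⟩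
      · simp [h]
      · exact cl_walk G _ U ord C r K1 (Th.len τ) hHG hord hUG hU3 hr hdeg hsp hone (hlen τ) p hp
          (p1 _ (hx0 τ))

end Pool.Agent.Helper95.HH
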