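import Pool.Agent.Helper95.HH.GOk
import Pool.Agent.Helper71.UT.MK
import Pool.Agent.Helper71.UT.ToThreads

/-!
# HH/Marks: the pieces of the threads (drawing half of theorem (H), MP_0dbcb7_co)

D5b. `Helper71/UT/MK.marks` for `r / 2` and the set `B`, `toThreads`, with the segments oriented so that only the last vertex
may be a hub. No segment joins two hubs: it would be a path between two vertices of degree at least three through
vertices of degree two, so its length is at least `D.r`, hence it is in `S0` and meets `B`; but it starts with the first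
edge of a thread between two hubs (`cover`: not an edge of `N` by `N_U`, not an edge of a pin: it would follow the pin to
`x p`, which has degree at least three and is not a hub), so its vertices are on that thread `wq q` (`stay` in `MK`, or by
induction along the path), which does not meet `B`.
-/

set_option autoImplicit false

open Set
open Pool.Agent.Helper83.OP Pool.Agent.Helper83.LN Pool.Agent.Helper93.HH

namespace Pool.Agent.Helper95.HH

section

variable {V : Type} {G : SimpleGraph V}

/-- two paths with a common start and a common first edge; the inner vertices of the first have degree two -/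
private theorem follow [Finite V] {a b c : V} {p : G.Walk a b} {q : G.Walk a c}
    (hp : p.IsPath) (hq : q.IsPath) (hin : ∀ x ∈ p.support, x ≠ a → x ≠ b → deg G x = 2)
    (h1 : p.getVert 1 = q.getVert 1) :
    ∀ i, i ≤ p.length → i ≤ q.length → p.getVert i = q.getVert i := by
  have key : ∀ i, (i ≤ p.length → i ≤ q.length → p.getVert i = q.getVert i) ∧
      (i + 1 ≤ p.length → i + 1 ≤ q.length → p.getVert (i + 1) = q.getVert (i + 1)) := by
    intro i
    induction i with
    | zero => exact ⟨fun _ _ => by simp, fun _ _ => by simpa using h1⟩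
    | succ i ih =>
      refine ⟨ih.2, fun hi hi' => ?_⟩
      have e0 := ih.1 (by omega) (by omega)
      have e1 := ih.2 (by omega) (by omega)
      have hd : deg G (p.getVert (i + 1)) = 2 := by
        apply hin _ (p.getVert_mem_support _)
        · intro h
          have := (hp.getVert_eq_start_iff (by omega)).mp h
          omega
        · intro h
          have := (hp.getVert_eq_end_iff (by omega)).mp h
          omega
      have hadj : G.Adj (p.getVert (i + 1)) (q.getVert (i + 1 + 1)) := by
        rw [e1]
        exact q.adj_getVert_succ (by omega)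
      rcases Pool.Agent.Helper71.UT.nbr_inner hp (i := i + 1) (by omega) (by omega) hd hadj with h | h
      · exfalso
        have h2 : q.getVert (i + 1 + 1) = q.getVert i := by
          rw [h]
          simpa using e0
        have := hq.getVert_injOn (by simp; omega) (by simp; omega) h2
        omega
      · exact h.symm
  exact fun i => (key i).1

/-- a path that starts with an edge of the path `q` -/
private theorem first_edge {a b c : V} {p : G.Walk a b} {q : G.Walk a c} (hq : q.IsPath)
    (h : s(a, p.getVert 1) ∈ q.edges) : p.getVert 1 = q.getVert 1 :=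
  hq.eq_snd_of_mem_edges h

end

/-- a path with inner vertices of degree two between two hubs lies on a thread between two hubs -/
private theorem on_wq {V P Q : Type} [Finite V] (D : HD V P Q) (hD : D.Ok) (hG : GOk D) {a b : V}
    (T : D.G.Walk a b) (hT : T.IsPath) (hab : a ≠ b) (ha : a ∈ D.U) (hb : b ∈ D.U)
    (hin : ∀ x ∈ T.support, x ≠ a → x ≠ b → deg D.G x = 2) :
    ∃ q, ∀ z ∈ T.support, z ∈ (D.wq q).support := by
  have hpos : 0 < T.length := by
    rcases Nat.eq_zero_or_pos T.length with h | h
    · exact absurd (SimpleGraph.Walk.eq_of_length_eq_zero h) hab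
    · exact h
  have hadj : D.G.Adj a (T.getVert 1) := by
    have := T.adj_getVert_succ hpos
    rwa [T.getVert_zero] at this
  have h3 : ∀ c ∈ D.U, ∀ i, 0 < i → i < T.length → T.getVert i ≠ c := by
    intro c hc i h0 hi h
    have h2 : deg D.G (T.getVert i) = 2 := by
      apply hin _ (T.getVert_mem_support _)
      · intro h
        have := (hT.getVert_eq_start_iff hi.le).mp h
        omega
      · intro h
        have := (hT.getVert_eq_end_iff hi.le).mp h
        omega
    rw [h] at h2
    have := hG.U_ge c hc
    omega
  rcases hG.cover _ _ hadj with h | ⟨p, h⟩ | ⟨q, h⟩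
  · exact absurd ha (hD.N_U _ _ h)
  · exfalso
    have hap : a = D.hub p := by
      by_contra hne
      exact hD.w_U p a ((D.w p).fst_mem_support_of_mem_edges h) hne ha
    subst hap
    have hR : (D.w p).reverse.IsPath := (hD.w_path p).reverse
    have h1 : T.getVert 1 = (D.w p).reverse.getVert 1 := by
      apply first_edge hR
      rw [SimpleGraph.Walk.edges_reverse, List.mem_reverse]
      exact h
    have hf := follow hT hR hin h1
    have hlen : 0 < (D.w p).reverse.length := by
      rw [SimpleGraph.Walk.length_reverse]
      have := hD.w_ge p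
      have := hD.r_pos
      omega
    rcases le_or_gt (D.w p).reverse.length T.length with hl | hl
    · have h2 := hf _ hl le_rfl
      rw [SimpleGraph.Walk.getVert_length] at h2
      have hxU := hD.x_U p
      have hd : deg D.G (D.x p) = 2 := by
        apply hin
        · rw [← h2]
          exact T.getVert_mem_support _
        · rintro h'
          exact hxU (h' ▸ ha)
        · rintro h'
          exact hxU (h' ▸ hb)
      have h4 := hG.dg_eq (D.x p) (Or.inr ⟨p, rfl⟩)
      have h5 := hD.three p
      omega
    · have h2 := hf _ le_rfl hl.le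
      rw [SimpleGraph.Walk.getVert_length] at h2
      have hbs : b ∈ (D.w p).support := by
        have : b ∈ (D.w p).reverse.support := by
          rw [h2]
          exact (D.w p).reverse.getVert_mem_support _
        rwa [SimpleGraph.Walk.support_reverse, List.mem_reverse] at this
      exact hD.w_U p b hbs hab.symm hb
  · refine ⟨q, ?_⟩
    have haq : a = D.ha q ∨ a = D.hb q := by
      by_contra hne
      push Not at hne
      exact hD.wq_U q a ((D.wq q).fst_mem_support_of_mem_edges h) hne.1 hne.2 ha
    have hmain : ∀ (c : V) (R : D.G.Walk a c), R.IsPath → c ∈ D.U → s(a, T.getVert 1) ∈ R.edges →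
        (∀ z ∈ R.support, z ∈ (D.wq q).support) → ∀ z ∈ T.support, z ∈ (D.wq q).support := by
      intro c R hR hc he hs z hz
      have hf := follow hT hR hin (first_edge hR he)
      have hRl : 0 < R.length := by
        rcases Nat.eq_zero_or_pos R.length with h | h'
        · cases R with
          | nil => simp at he
          | cons _ _ => simp at h
        · exact h'
      rcases lt_or_ge R.length T.length with hl | hl
      · have h2 := hf _ hl.le le_rfl
        rw [SimpleGraph.Walk.getVert_length] at h2
        exact absurd h2 (h3 c hc _ hRl hl)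
      · obtain ⟨i, hi, hil⟩ := SimpleGraph.Walk.mem_support_iff_exists_getVert.mp hz
        subst hi
        rw [hf i hil (by omega)]
        exact hs _ (R.getVert_mem_support _)
    rcases haq with rfl | rfl
    · exact hmain _ (D.wq q) (hD.wq_path q) (hD.hb_U q) h (fun z hz => hz)
    · refine hmain _ (D.wq q).reverse (hD.wq_path q).reverse (hD.ha_U q) ?_ ?_
      · rw [SimpleGraph.Walk.edges_reverse, List.mem_reverse]
        exact h
      · intro z hz
        rwa [SimpleGraph.Walk.support_reverse, List.mem_reverse] at hz

/-- **D5b** -/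
theorem marks_hub {V P Q : Type} [Finite V] (D : HD V P Q) (hD : D.Ok) (hG : GOk D) (B : Set V)
    (x0 : V) (hB : ∀ w ∈ B, ∃ p : D.G.Walk x0 w, ∀ z ∈ p.support, z ∈ B)
    (hBU : ∀ z ∈ B, z ∉ D.U) (hBq : ∀ z ∈ B, ∀ q, z ∉ (D.wq q).support) :
    ∃ (T : Type) (_ : Fintype T) (Th : Threads D.G T) (S0 : Finset T),
      (∀ τ, D.r / 2 ≤ Th.len τ) ∧ (∀ τ, τ ∉ S0 → Th.len τ ≤ 2 * (D.r / 2)) ∧
      (∀ τ, τ ∈ S0 ↔ ∃ t ≤ Th.len τ, Th.x τ t ∈ B) ∧
      S0.card ≤ Pool.Agent.Helper95.UP.vol D.G B + 1 ∧
      (∀ τ t, t < Th.len τ → Th.x τ t ∉ D.U) ∧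
      ∀ τ t, 0 < t → t < Th.len τ → deg D.G (Th.x τ t) = 2 := by
  classical
  have hr : 1 ≤ D.r / 2 := by
    have := hD.r_pos
    omega
  obtain ⟨T, hT, Sg, S, h1, h2, h3, h4⟩ := Pool.Agent.Helper71.UT.marks D.G (D.r / 2) hr hG.deg_ne
    (fun u v p hp huv hu hv hin => by
      have := hG.low u v p hp huv hu hv hin
      omega) hG.cyc B x0 hB
  -- no segment joins two hubs
  have hno : ∀ q, Sg.a q ∈ D.U → Sg.b q ∉ D.U := by
    intro q ha hb
    have hlow := hG.low _ _ (Sg.T q) (Sg.path q) (Sg.ne q) (hG.U_ge _ ha) (hG.U_ge _ hb) (Sg.inner q)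
    have hqS : q ∈ S := by
      by_contra hq
      have := h2 q hq
      have h5 : Sg.len q = (Sg.T q).length := rfl
      omega
    obtain ⟨z, hz, hzB⟩ := (h3 q).mp hqS
    obtain ⟨q', hq'⟩ := on_wq D hD hG (Sg.T q) (Sg.path q) (Sg.ne q) ha hb (Sg.inner q)
    exact hBq z hzB q' (hq' z hz)
  -- orientation
  have hor : ∀ q, ∃ (u v : V) (p : D.G.Walk u v), p.IsPath ∧ u ≠ v ∧ u ∉ D.U ∧
      p.length = Sg.len q ∧ (∀ f, f ∈ p.edges ↔ f ∈ (Sg.T q).edges) ∧
      (∀ x, x ∈ p.support ↔ x ∈ (Sg.T q).support) ∧
      (∀ x ∈ p.support, x ≠ u → x ≠ v → deg D.G x = 2) := by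
    intro q
    by_cases ha : Sg.a q ∈ D.U
    · refine ⟨Sg.b q, Sg.a q, (Sg.T q).reverse, (Sg.path q).reverse, (Sg.ne q).symm, hno q ha, ?_, ?_,
        ?_, ?_⟩
      · rw [SimpleGraph.Walk.length_reverse]
        rfl
      · intro f; simp
      · intro x; simp
      · intro x hx hxu hxv
        rw [SimpleGraph.Walk.support_reverse, List.mem_reverse] at hx
        exact Sg.inner q x hx hxv hxu
    · exact ⟨Sg.a q, Sg.b q, Sg.T q, Sg.path q, Sg.ne q, ha, rfl, fun _ => Iff.rfl, fun _ => Iff.rfl,
        Sg.inner q⟩
  choose u v p hp huv huU hlen hed hsu hin using hor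
  let Sg' : Pool.Agent.Helper95.UP.Seg D.G T :=
    { a := u, b := v, T := p, ne := huv, path := hp
      cover := fun f hf => by
        obtain ⟨q, hq⟩ := Sg.cover f hf
        exact ⟨q, (hed q f).mpr hq⟩
      disj := fun q q' f hf hf' => Sg.disj q q' f ((hed q f).mp hf) ((hed q' f).mp hf')
      inner := hin }
  refine ⟨T, Fintype.ofFinite T, Pool.Agent.Helper71.UT.toThreads Sg', (Set.toFinite S).toFinset,
    ?_, ?_, ?_, ?_, ?_, ?_⟩
  · intro τ
    show D.r / 2 ≤ (p τ).length
    rw [hlen]
    exact h1 τ
  · intro τ hτ
    show (p τ).length ≤ 2 * (D.r / 2)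
    rw [hlen]
    refine (h2 τ fun h => hτ ?_).le
    rwa [Set.Finite.mem_toFinset]
  · intro τ
    rw [Set.Finite.mem_toFinset, h3]
    constructor
    · rintro ⟨z, hz, hzB⟩
      rw [← hsu] at hz
      obtain ⟨t, ht, htl⟩ := SimpleGraph.Walk.mem_support_iff_exists_getVert.mp hz
      exact ⟨t, htl, by
        show (p τ).getVert t ∈ B
        rwa [ht]⟩
    · rintro ⟨t, ht, htB⟩
      exact ⟨(p τ).getVert t, (hsu τ _).mp ((p τ).getVert_mem_support t), htB⟩
  · rw [← Set.ncard_eq_toFinset_card S (Set.toFinite S)]
    exact h4
  · intro τ t ht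
    show (p τ).getVert t ∉ D.U
    have ht' : t < (p τ).length := ht
    rcases Nat.eq_zero_or_pos t with rfl | h0
    · rw [SimpleGraph.Walk.getVert_zero]
      exact huU τ
    · intro hU
      have hd : deg D.G ((p τ).getVert t) = 2 := by
        apply hin τ _ ((p τ).getVert_mem_support _)
        · intro h
          have := ((hp τ).getVert_eq_start_iff ht'.le).mp h
          omega
        · intro h
          have := ((hp τ).getVert_eq_end_iff ht'.le).mp h
          omega
      have := hG.U_ge _ hU
      omega
  · intro τ t h0 ht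
    show deg D.G ((p τ).getVert t) = 2
    have ht' : t < (p τ).length := ht
    apply hin τ _ ((p τ).getVert_mem_support _)
    · intro h
      have := ((hp τ).getVert_eq_start_iff ht'.le).mp h
      omega
    · intro h
      have := ((hp τ).getVert_eq_end_iff ht'.le).mp h
      omega

end Pool.Agent.Helper95.HH
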