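import Pool.Agent.Helper93.HH.Basic

/-!
# HH/Tracks: a path moves onto another path (drawing half of theorem (H), MP_0dbcb7_co)

D5e. The point `g i` of the path `g 0, .., g n` moves with unit speed along this path to `g i0 = p 0`, along
`p 0, .., p m = g' j0`, and along the path `g' 0, .., g' n'` to `g' (f i)`, and stays there. The map `f` is monotone around
`i0` (`f i0 = j0`) and neighbours have images at distance at most `c`. Then neighbours are at distance at most `c + 1` at
every time.

Proof. With `d = |i - i0|`: position at time `k` is `g (i ∓ k)` for `k ≤ d`, `p (k - d)` for `d ≤ k ≤ d + m`, and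
`g' (j0 ± min (k - d - m) |f i - j0|)` for `d + m ≤ k`. If `i`, `i'` are neighbours, `d = d' + 1`, on the same side of `i0`, then
the position of `i` at time `k + 1` is within `c` of the position of `i'` at time `k`: they are the same before the
last phase, and in the last phase the indices differ by at most `|f i - f i'|`. Suggestion: treat the two sides
separately: for the side `i ≤ i0` define the walk by the index `d + m + e` with a function on `ℕ` (one line through
`g i0 = p 0` and `p m = g' j0`), the other side by symmetry (reverse `g` and `g'`: `i ↦ n - i`, `j ↦ n' - j`).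
-/

set_option autoImplicit false

open Set
open Pool.Agent.Helper93.HH

namespace Pool.Agent.Helper95.HH

/-- the walk along `G d, .., G 0 = p 0, .., p m = G' 0, .., G' e` -/
private def tracksT {W : Type} (G p G' : ℕ → W) (m d e k : ℕ) : W :=
  if k ≤ d then G (d - k) else if k ≤ d + m then p (k - d) else G' (min (k - d - m) e)

private theorem tracks_a {W : Type} {G p G' : ℕ → W} {m d e k : ℕ} (h : k ≤ d) :
    tracksT G p G' m d e k = G (d - k) := if_pos h

private theorem tracks_b {W : Type} {G p G' : ℕ → W} {m d e k : ℕ} (h0 : p 0 = G 0)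
    (h : d ≤ k) (h' : k ≤ d + m) : tracksT G p G' m d e k = p (k - d) := by
  unfold tracksT
  split_ifs with h1
  · have : k = d := by omega
    subst this
    simp [h0]
  · rfl

private theorem tracks_c {W : Type} {G p G' : ℕ → W} {m d e k : ℕ} (h0 : p 0 = G 0)
    (h1 : p m = G' 0) (h : d + m ≤ k) : tracksT G p G' m d e k = G' (min (k - d - m) e) := by
  rcases h.eq_or_lt with h2 | h2
  · subst h2
    rw [tracks_b h0 (by omega) le_rfl]
    have e1 : d + m - d = m := by omega
    rw [e1, Nat.sub_self, Nat.zero_min, h1]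
  · unfold tracksT
    rw [if_neg (by omega), if_neg (by omega)]

/-- two vertices of a path -/
private theorem tracks_ch {W : Type} {R : SimpleGraph W} {G : ℕ → W} {e : ℕ}
    (h : ∀ x < e, R.Adj (G x) (G (x + 1))) (x : ℕ) : ∀ t, x + t ≤ e → Nr R t (G x) (G (x + t)) := by
  intro t
  induction t with
  | zero => intro _; exact Nr.refl R 0 _
  | succ t ih =>
    intro ht
    exact (ih (by omega)).trans (Nr.of_adj (h (x + t) (by omega)))

private theorem tracks_ch' {W : Type} {R : SimpleGraph W} {G : ℕ → W} {e c x y : ℕ}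
    (h : ∀ x < e, R.Adj (G x) (G (x + 1))) (hx : x ≤ e) (hy : y ≤ e) (h1 : x ≤ y + c)
    (h2 : y ≤ x + c) : Nr R c (G x) (G y) := by
  rcases le_total x y with h3 | h3
  · have h4 := tracks_ch h x (y - x) (by omega)
    have e1 : x + (y - x) = y := by omega
    rw [e1] at h4
    exact h4.mono (by omega)
  · have h4 := tracks_ch h y (x - y) (by omega)
    have e1 : y + (x - y) = x := by omega
    rw [e1] at h4
    exact h4.symm.mono (by omega)

private theorem tracks_step {W : Type} {R : SimpleGraph W} {G p G' : ℕ → W} {m d e : ℕ}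
    (hG : ∀ x < d, R.Adj (G x) (G (x + 1))) (hp : ∀ k < m, R.Adj (p k) (p (k + 1)))
    (hG' : ∀ x < e, R.Adj (G' x) (G' (x + 1))) (h0 : p 0 = G 0) (h1 : p m = G' 0) (k : ℕ) :
    Nr R 1 (tracksT G p G' m d e k) (tracksT G p G' m d e (k + 1)) := by
  rcases Nat.lt_or_ge k d with h2 | h2
  · rw [tracks_a h2.le, tracks_a (by omega)]
    exact tracks_ch' hG (by omega) (by omega) (by omega) (by omega)
  rcases Nat.lt_or_ge k (d + m) with h3 | h3
  · rw [tracks_b h0 h2 h3.le, tracks_b h0 (by omega) (by omega)]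
    exact tracks_ch' hp (by omega) (by omega) (by omega) (by omega)
  · rw [tracks_c h0 h1 h3, tracks_c h0 h1 (by omega)]
    exact tracks_ch' hG' (by omega) (by omega) (by omega) (by omega)

private theorem tracks_nb {W : Type} {R : SimpleGraph W} {G p G' : ℕ → W} {m d e e' E c : ℕ}
    (hG' : ∀ x < E, R.Adj (G' x) (G' (x + 1))) (h0 : p 0 = G 0) (h1 : p m = G' 0) (he : e ≤ E)
    (he' : e' ≤ E) (h2 : e ≤ e' + c) (h3 : e' ≤ e + c) (k : ℕ) :
    Nr R c (tracksT G p G' m (d + 1) e (k + 1)) (tracksT G p G' m d e' k) := by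
  rcases Nat.lt_or_ge k d with h4 | h4
  · rw [tracks_a (by omega), tracks_a h4.le]
    have e1 : d + 1 - (k + 1) = d - k := by omega
    rw [e1]
    exact Nr.refl R c _
  rcases Nat.lt_or_ge k (d + m) with h5 | h5
  · rw [tracks_b h0 (by omega) (by omega), tracks_b h0 h4 h5.le]
    have e1 : k + 1 - (d + 1) = k - d := by omega
    rw [e1]
    exact Nr.refl R c _
  · rw [tracks_c h0 h1 (by omega), tracks_c h0 h1 h5]
    exact tracks_ch' hG' (by omega) (by omega) (by omega) (by omega)

private theorem tracks_mem {W : Type} {G p G' : ℕ → W} {m d e : ℕ} (h0 : p 0 = G 0)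
    (h1 : p m = G' 0) (k : ℕ) : (∃ x ≤ d, tracksT G p G' m d e k = G x) ∨
      (∃ j ≤ m, tracksT G p G' m d e k = p j) ∨ ∃ x ≤ e, tracksT G p G' m d e k = G' x := by
  rcases Nat.lt_or_ge k d with h2 | h2
  · exact Or.inl ⟨d - k, by omega, tracks_a h2.le⟩
  rcases Nat.lt_or_ge k (d + m) with h3 | h3
  · exact Or.inr (Or.inl ⟨k - d, by omega, tracks_b h0 h2 h3.le⟩)
  · exact Or.inr (Or.inr ⟨min (k - d - m) e, by omega, tracks_c h0 h1 h3⟩)

/-- **D5e** -/
theorem tracks {W : Type} (R : SimpleGraph W) (n n' m c i0 j0 : ℕ) (g p g' : ℕ → W) (f : ℕ → ℕ)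
    (hg : ∀ i < n, R.Adj (g i) (g (i + 1))) (hp : ∀ k < m, R.Adj (p k) (p (k + 1)))
    (hg' : ∀ i < n', R.Adj (g' i) (g' (i + 1))) (h0 : p 0 = g i0) (h1 : p m = g' j0)
    (hi0 : i0 ≤ n) (hj0 : j0 ≤ n') (hf0 : f i0 = j0) (hf : ∀ i ≤ n, f i ≤ n')
    (hf1 : ∀ i ≤ i0, f i ≤ j0) (hf2 : ∀ i, i0 ≤ i → i ≤ n → j0 ≤ f i)
    (hc : ∀ i < n, f (i + 1) ≤ f i + c ∧ f i ≤ f (i + 1) + c) :
    ∃ trk : ℕ → ℕ → W, ∀ i ≤ n, trk i 0 = g i ∧
      (∀ k, Nr R 1 (trk i k) (trk i (k + 1))) ∧
      (∀ k, n + m + n' ≤ k → trk i k = g' (f i)) ∧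
      (i < n → ∀ k, Nr R (c + 1) (trk i k) (trk (i + 1) k)) ∧
      ∀ k, (∃ j ≤ n, trk i k = g j) ∨ (∃ j ≤ m, trk i k = p j) ∨ ∃ j ≤ n', trk i k = g' j := by
  -- the two sides
  set A : ℕ → ℕ → W := fun i k =>
    tracksT (fun x => g (i0 - x)) p (fun x => g' (j0 - x)) m (i0 - i) (j0 - f i) k with hA
  set B : ℕ → ℕ → W := fun i k =>
    tracksT (fun x => g (i0 + x)) p (fun x => g' (j0 + x)) m (i - i0) (f i - j0) k with hB
  have a0 : p 0 = (fun x => g (i0 - x)) 0 := h0
  have a1 : p m = (fun x => g' (j0 - x)) 0 := h1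
  have b0 : p 0 = (fun x => g (i0 + x)) 0 := h0
  have b1 : p m = (fun x => g' (j0 + x)) 0 := h1
  have hgA : ∀ x < i0, R.Adj ((fun x => g (i0 - x)) x) ((fun x => g (i0 - x)) (x + 1)) := by
    intro x hx
    have h2 := hg (i0 - (x + 1)) (by omega)
    have e1 : i0 - (x + 1) + 1 = i0 - x := by omega
    rw [e1] at h2
    exact h2.symm
  have hgA' : ∀ x < j0, R.Adj ((fun x => g' (j0 - x)) x) ((fun x => g' (j0 - x)) (x + 1)) := by
    intro x hx
    have h2 := hg' (j0 - (x + 1)) (by omega)
    have e1 : j0 - (x + 1) + 1 = j0 - x := by omega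
    rw [e1] at h2
    exact h2.symm
  have hgB : ∀ x < n - i0, R.Adj ((fun x => g (i0 + x)) x) ((fun x => g (i0 + x)) (x + 1)) := by
    intro x hx
    exact hg (i0 + x) (by omega)
  have hgB' : ∀ x < n' - j0, R.Adj ((fun x => g' (j0 + x)) x) ((fun x => g' (j0 + x)) (x + 1)) := by
    intro x hx
    exact hg' (j0 + x) (by omega)
  have hAB : ∀ k, A i0 k = B i0 k := by
    intro k
    have e1 : j0 - f i0 = 0 := by omega
    have e2 : f i0 - j0 = 0 := by omega
    simp only [hA, hB, e1, e2, Nat.sub_self]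
    unfold tracksT
    simp
  refine ⟨fun i k => if i ≤ i0 then A i k else B i k, ?_⟩
  intro i hi
  have hup : i0 ≤ i → ∀ k, (if i ≤ i0 then A i k else B i k) = B i k := by
    intro h2 k
    split_ifs with h3
    · have : i = i0 := by omega
      subst this
      exact hAB k
    · rfl
  refine ⟨?_, ?_, ?_, ?_, ?_⟩
  · show (if i ≤ i0 then A i 0 else B i 0) = g i
    split_ifs with h2
    · simp only [hA]
      rw [tracks_a (Nat.zero_le _)]
      show g (i0 - (i0 - i - 0)) = g i
      congr 1
      omega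
    · simp only [hB]
      rw [tracks_a (Nat.zero_le _)]
      show g (i0 + (i - i0 - 0)) = g i
      congr 1
      omega
  · intro k
    show Nr R 1 (if i ≤ i0 then A i k else B i k) (if i ≤ i0 then A i (k + 1) else B i (k + 1))
    by_cases h2 : i ≤ i0
    · rw [if_pos h2, if_pos h2]
      exact tracks_step (fun x hx => hgA x (by omega)) hp (fun x hx => hgA' x (by omega)) a0 a1 k
    · rw [if_neg h2, if_neg h2]
      have h3 := hf i hi
      exact tracks_step (fun x hx => hgB x (by omega)) hp (fun x hx => hgB' x (by omega)) b0 b1 k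
  · intro k hk
    show (if i ≤ i0 then A i k else B i k) = g' (f i)
    by_cases h2 : i ≤ i0
    · rw [if_pos h2]
      have h3 := hf1 i h2
      simp only [hA]
      rw [tracks_c a0 a1 (by omega)]
      show g' (j0 - min (k - (i0 - i) - m) (j0 - f i)) = g' (f i)
      congr 1
      omega
    · rw [if_neg h2]
      have h3 := hf2 i (by omega) hi
      have h4 := hf i hi
      simp only [hB]
      rw [tracks_c b0 b1 (by omega)]
      show g' (j0 + min (k - (i - i0) - m) (f i - j0)) = g' (f i)
      congr 1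
      omega
  · intro hin k
    have hci := hc i hin
    show Nr R (c + 1) (if i ≤ i0 then A i k else B i k)
      (if i + 1 ≤ i0 then A (i + 1) k else B (i + 1) k)
    by_cases h2 : i + 1 ≤ i0
    · rw [if_pos (by omega : i ≤ i0), if_pos h2]
      have h3 := hf1 i (by omega)
      have h4 := hf1 (i + 1) h2
      have h5 : Nr R 1 (A i k) (A i (k + 1)) :=
        tracks_step (fun x hx => hgA x (by omega)) hp (fun x hx => hgA' x (by omega)) a0 a1 k
      have h6 : Nr R c (A i (k + 1)) (A (i + 1) k) := by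
        have e1 : i0 - i = i0 - (i + 1) + 1 := by omega
        simp only [hA]
        rw [e1]
        exact tracks_nb hgA' a0 a1 (by omega) (by omega) (by omega) (by omega) k
      have h7 := h5.trans h6
      rwa [Nat.add_comm] at h7
    · rw [hup (by omega) k, if_neg h2]
      have h3 := hf2 i (by omega) hi
      have h4 := hf2 (i + 1) (by omega) (by omega)
      have h3' := hf i hi
      have h4' := hf (i + 1) (by omega)
      have h5 : Nr R 1 (B (i + 1) k) (B (i + 1) (k + 1)) :=
        tracks_step (fun x hx => hgB x (by omega)) hp (fun x hx => hgB' x (by omega)) b0 b1 k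
      have h6 : Nr R c (B (i + 1) (k + 1)) (B i k) := by
        have e1 : i + 1 - i0 = i - i0 + 1 := by omega
        simp only [hB]
        rw [e1]
        exact tracks_nb hgB' b0 b1 (by omega) (by omega) (by omega) (by omega) k
      have h7 := (h5.trans h6).symm
      rwa [Nat.add_comm] at h7
  · intro k
    show (∃ j ≤ n, (if i ≤ i0 then A i k else B i k) = g j) ∨
      (∃ j ≤ m, (if i ≤ i0 then A i k else B i k) = p j) ∨
        ∃ j ≤ n', (if i ≤ i0 then A i k else B i k) = g' j
    by_cases h2 : i ≤ i0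
    · rw [if_pos h2]
      rcases tracks_mem (G := fun x => g (i0 - x)) (G' := fun x => g' (j0 - x)) (e := j0 - f i)
        (d := i0 - i) a0 a1 k with ⟨x, hx, hx'⟩ | ⟨x, hx, hx'⟩ | ⟨x, hx, hx'⟩
      · exact Or.inl ⟨i0 - x, by omega, hx'⟩
      · exact Or.inr (Or.inl ⟨x, hx, hx'⟩)
      · exact Or.inr (Or.inr ⟨j0 - x, by omega, hx'⟩)
    · rw [if_neg h2]
      have h3 := hf i hi
      rcases tracks_mem (G := fun x => g (i0 + x)) (G' := fun x => g' (j0 + x)) (e := f i - j0)
        (d := i - i0) b0 b1 k with ⟨x, hx, hx'⟩ | ⟨x, hx, hx'⟩ | ⟨x, hx, hx'⟩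
      · exact Or.inl ⟨i0 + x, by omega, hx'⟩
      · exact Or.inr (Or.inl ⟨x, hx, hx'⟩)
      · exact Or.inr (Or.inr ⟨j0 + x, by omega, hx'⟩)

end Pool.Agent.Helper95.HH
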