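import Pool.Agent.Helper95.HH.Final
import Pool.Agent.Helper23.HM.S2
import Pool.Agent.Helper23.HM.S4
import Pool.Agent.Helper43.HM.S1
import Pool.Agent.Helper43.HM.S3
import Pool.Agent.Helper71.QU.Any

/-!
# HH/Crit: the final statements for `m`-planar-critical graphs (MP_0dbcb7_co, theorem (H))
-/

set_option autoImplicit false

open Set
open Pool.Agent.Helper83.OP Pool.Agent.Helper95.UP
open Pool.Agent.Helper23.HM Pool.Agent.Helper43.HM

namespace Pool.Agent.Helper95.HH

/-- all `m`-planar-critical graphs whose threads have between `r` and `R` edges -/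
theorem main_final :
    ∃ (c : ℕ) (K : ℕ → ℕ), ∀ (m r R : ℕ) (V : Type) [Fintype V] (G : SimpleGraph V), 1 ≤ m →
      1 ≤ r → ¬ KPl m G → (∀ e ∈ G.edgeSet, KPl m (G.deleteEdges {e})) → ThrLen G r R →
      KPl (min (K (R / r)) (c * ((R / r + 1) * (Nat.log 2 (m * R) + 1) ^ 2)) * m) G := by
  classical
  obtain ⟨K, hK⟩ := main_H
  obtain ⟨c, hc⟩ := Pool.Agent.Helper71.QU.main_any
  refine ⟨c, fun x => K (x + 1), fun m r R V _ G hm hr h1 hcrit hthr => s1 m _ hm G ?_⟩
  have hmr : 1 ≤ m * r := Nat.mul_pos hm hr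
  have a1 : ¬ KPl 1 (Sd m G) := by
    intro h
    apply h1
    have := s1 m 1 hm G h
    rwa [Nat.one_mul] at this
  have a2 : ∀ e ∈ (Sd m G).edgeSet, KPl 1 ((Sd m G).deleteEdges {e}) := by
    intro e he
    obtain ⟨f, t, hf, ht, rfl⟩ := Sd_edge.1 he
    exact s3 m hm G f hf t ht (s2 m hm _ (hcrit f hf))
  have a3 : ThrLen (Sd m G) (m * r) (m * R) := s4 m hm G r R hthr
  have b1 : KPl (K (R / r + 1)) (Sd m G) := by
    refine hK (R / r + 1) (m * r) (SV V m) (Sd m G) hmr a1 a2 ?_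
    intro u v p hp huv hu hv hin
    have := a3 u v p hp huv hu hv hin
    refine ⟨this.1, this.2.trans ?_⟩
    have h4 : R ≤ r * (R / r + 1) := (Nat.lt_mul_div_succ R hr).le
    calc m * R ≤ m * (r * (R / r + 1)) := Nat.mul_le_mul_left _ h4
      _ = (R / r + 1) * (m * r) := by ring
  have b2 := hc (m * r) (m * R) (SV V m) (Sd m G) hmr a1 a2 a3
  rw [Nat.mul_div_mul_left _ _ hm] at b2
  rcases min_choice (K (R / r + 1)) (c * ((R / r + 1) * (Nat.log 2 (m * R) + 1) ^ 2)) with h | h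
  · rw [h]
    exact b1
  · rw [h]
    exact b2

end Pool.Agent.Helper95.HH
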