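import Pool.Agent.Helper95.HH.Main
import Pool.Agent.Helper93.HH.Count

/-!
# HH/Final: theorem (H) (MP_0dbcb7_co)
-/

set_option autoImplicit false

open Set
open Pool.Agent.Helper83.OP Pool.Agent.Helper93.HH Pool.Agent.Helper95.UP

namespace Pool.Agent.Helper95.HH

/-- **Theorem (H).** For every `C` there is one `k` such that all 1-planar-critical graphs all of whose threads have between
`r` and `C r` edges are `k`-planar. -/
theorem main_H : ∃ K : ℕ → ℕ, ∀ (C r : ℕ) (V : Type) [Fintype V] (G : SimpleGraph V), 1 ≤ r →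
    ¬ KPl 1 G → (∀ e ∈ G.edgeSet, KPl 1 (G.deleteEdges {e})) → ThrLen G r (C * r) →
    KPl (K C) G := by
  choose K hK using main_of_count (fun C0 => count C0)
  exact ⟨K, fun C r V _ G => hK C r V G⟩

end Pool.Agent.Helper95.HH
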