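import Pool.Agent.Helper95.HH.NoPl
import Pool.Agent.Helper95.HH.Exist
import Pool.Agent.Helper71.PV.Main

/-!
# HH/Main: 1-planar-critical graphs with threads of comparable lengths, arbitrary degrees (MP_0dbcb7_co, theorem (H))

D11. From the counting half (`hcount`, `Helper93/HH/Count`) and the drawing half.
-/

set_option autoImplicit false

open Set
open Pool.Agent.Helper83.OP Pool.Agent.Helper93.HH Pool.Agent.Helper95.UP

namespace Pool.Agent.Helper95.HH

theorem main_of_count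
    (hcount : ∀ C0 : ℕ, ∃ Kh K r0 : ℕ, 1 ≤ Kh ∧ ∀ (V P Q : Type) [Finite V] [Finite P] [Finite Q]
      (D : HD V P Q) (H : SimpleGraph V) (e0 : Sym2 V) (X : Sym2 V → Sym2 V → Prop),
      D.Ok → D.L ≤ C0 * D.r → D.Kh = Kh → r0 ≤ D.r → D.U.Nonempty → D.Dr H e0 X →
      ¬ D.NoPl K) (C : ℕ) :
    ∃ k : ℕ, ∀ (r : ℕ) (V : Type) [Fintype V] (G : SimpleGraph V), 1 ≤ r →
      ¬ KPl 1 G → (∀ e ∈ G.edgeSet, KPl 1 (G.deleteEdges {e})) → ThrLen G r (C * r) →
      KPl k G := by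
  classical
  obtain ⟨Kh, K, r0, hKh, hcount⟩ := hcount C
  obtain ⟨k1, hk1⟩ := noPl_of_crit (max C Kh) K
  obtain ⟨c, hc⟩ := Pool.Agent.Helper71.QU.main_any
  obtain ⟨k2, hk2⟩ : ∃ k2, k2 = c * ((C + 1) * (Nat.log 2 (C * (r0 + 2)) + 1) ^ 2) := ⟨_, rfl⟩
  obtain ⟨k3, hk3⟩ : ∃ k3, k3 = 16 + (9 + 4 * (64 * (1561 * (C + 1 + 1))) *
    (Kh * (64 * (1561 * (C + 1 + 1))) + 4)) +
    Pool.Agent.Helper71.PV.kk (C + 1) Kh (1561 * (C + 1 + 1)) := ⟨_, rfl⟩
  refine ⟨k1 + k2 + k3 + 16, fun r V _ G hr h1 hcrit hthr => ?_⟩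
  -- small r
  by_cases hr0 : r < r0 + 2
  · refine kpl_le (hc r (C * r) V G hr h1 hcrit hthr) ?_
    have h2 : C * r / r + 1 = C + 1 := by rw [Nat.mul_div_cancel _ hr]
    have h3 : (Nat.log 2 (C * r) + 1) ^ 2 ≤ (Nat.log 2 (C * (r0 + 2)) + 1) ^ 2 := by
      apply Nat.pow_le_pow_left
      apply Nat.add_le_add_right
      exact Nat.log_mono_right (Nat.mul_le_mul_left _ hr0.le)
    rw [h2]
    have h4 := Nat.mul_le_mul_left c (Nat.mul_le_mul_left (C + 1) h3)
    omega
  push Not at hr0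
  -- closed threads
  by_cases hcyc : ∀ (x : V) (D : G.Walk x x), D.IsCycle →
      ∃ u ∈ D.support, ∃ v ∈ D.support, u ≠ v ∧ 3 ≤ deg G u ∧ 3 ≤ deg G v
  swap
  · push Not at hcyc
    obtain ⟨x, D, hD, hno⟩ := hcyc
    refine kpl_le (loop16 G hcrit D hD ?_) (by omega)
    rintro ⟨u, hu, v, hv, huv, h2, h3⟩
    exact absurd (hno u hu v hv huv h2) (by omega)
  have hdeg := crit_deg G h1 hcrit
  have hlow : ∀ u v (p : G.Walk u v), p.IsPath → u ≠ v → 3 ≤ deg G u → 3 ≤ deg G v →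
      (∀ x ∈ p.support, x ≠ u → x ≠ v → deg G x = 2) → r ≤ p.length :=
    fun u v p hp huv hu hv hin => (hthr u v p hp huv hu hv hin).1
  have hup : ∀ u v (p : G.Walk u v), p.IsPath →
      (∀ x ∈ p.support, x ≠ u → x ≠ v → deg G x = 2) → p.length ≤ C * r :=
    fun u v p hp hin => path_le G (C * r) hdeg hcyc
      (fun u v p hp huv hu hv hin => (hthr u v p hp huv hu hv hin).2) p hp hin
  -- no hubs
  by_cases hU : ∀ v, deg G v ≤ Kh * r
  · refine kpl_le (Pool.Agent.Helper71.PV.main_c (C + 1) Kh _ rfl V G r h1 hcrit ?_ hU) (by omega)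
    intro u v p hp huv hu hv hin
    have h2 := hthr u v p hp huv hu hv hin
    refine ⟨h2.1, h2.2.trans ?_⟩
    have h3 : C < 2 ^ C := Nat.lt_two_pow_self
    have h4 : 2 ^ C ≤ (r + 1) ^ C := Nat.pow_le_pow_left (by omega) _
    calc C * r ≤ (r + 1) ^ C * (r + 1) := Nat.mul_le_mul (by omega) (by omega)
      _ = (r + 1) ^ (C + 1) := (pow_succ _ _).symm
  push Not at hU
  obtain ⟨a, ha⟩ := hU
  have ha2 : 2 ≤ Kh * r := by
    calc 2 ≤ r := by omega
      _ = 1 * r := (Nat.one_mul r).symm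
      _ ≤ Kh * r := Nat.mul_le_mul_right _ hKh
  by_cases hCr : r ≤ C * r
  swap
  · -- there are no threads, hence no cycles and no edges
    exfalso
    obtain ⟨b, hb⟩ : ∃ b, G.Adj a b := by
      have : (G.neighborSet a).Nonempty := by
        rw [← Set.ncard_pos (Set.toFinite _)]
        unfold deg at ha
        omega
      exact this
    have hC0 : C = 0 := by
      by_contra hcon
      apply hCr
      calc r = 1 * r := (Nat.one_mul r).symm
        _ ≤ C * r := Nat.mul_le_mul_right _ (by omega)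
    have := hup a b (SimpleGraph.Walk.cons hb SimpleGraph.Walk.nil)
      (by simp [SimpleGraph.Walk.cons_isPath_iff, hb.ne]) (by
        intro c hc h1 h2
        simp only [SimpleGraph.Walk.support_cons, SimpleGraph.Walk.support_nil, List.mem_cons,
          List.not_mem_nil, or_false] at hc
        rcases hc with hc | hc
        · exact absurd hc h1
        · exact absurd hc h2)
    rw [hC0] at this
    simp at this
  obtain ⟨P, Q, hP, hQ, D, hDG, hDr, hDL, hDK, hDU, hOk, hGOk⟩ :=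
    exists_hd G r (C * r) Kh (by omega) hCr ha2 hdeg hlow hup hcyc
  by_contra hcon
  have hno : D.NoPl K := by
    refine hk1 V P Q D hOk hGOk (by rw [hDK]; exact le_max_right _ _) ?_ (by rw [hDG]; exact hcrit)
      ?_
    · rw [hDL, hDr]
      exact Nat.mul_le_mul_right _ (le_max_left _ _)
    · rw [hDG]
      intro h
      exact hcon (kpl_le h (by omega))
  obtain ⟨b, hb⟩ : ∃ b, G.Adj a b := by
    have : (G.neighborSet a).Nonempty := by
      rw [← Set.ncard_pos (Set.toFinite _)]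
      unfold deg at ha
      omega
    exact this
  have haU : a ∈ D.U := by rw [hDU]; exact ha
  obtain ⟨pos, γ, hd, hcr⟩ := hcrit s(a, b) hb
  refine hcount V P Q D (G.deleteEdges {s(a, b)}) s(a, b) (CrossRel γ) hOk
    (by rw [hDL, hDr]) hDK (by rw [hDr]; omega) ⟨a, haU⟩ ?_ hno
  refine ⟨by rw [hDG], by rw [hDG]; exact hb, ?_, crossRel_symm γ, ?_, 
    planarLike_of_drawing _ pos γ hd⟩
  · intro h
    exact hOk.N_U a b h haU
  · intro f hf
    have hf' : f ∈ G.edgeSet ∧ f ≠ s(a, b) := by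
      rw [SimpleGraph.edgeSet_deleteEdges] at hf
      exact ⟨hf.1, hf.2⟩
    refine le_trans (Set.ncard_le_ncard ?_ (Set.toFinite _))
      (partner_le G s(a, b) γ hcr f hf'.1 hf'.2)
    rintro f' ⟨h2, h3⟩
    rw [SimpleGraph.edgeSet_deleteEdges] at h2
    exact ⟨h2.1, h2.2, h3⟩

end Pool.Agent.Helper95.HH
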