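import Pool.Agent.Helper95.HH.VolCmp
import Pool.Agent.Helper95.HH.SU
import Pool.Agent.Helper43.HH.P3c

/-!
# HH/P2: the place E2' (drawing half of theorem (H), MP_0dbcb7_co)

D8c. Two pins `p`, `p'` of the same hub `a`, `d(x p, x p') ≤ t ≤ K ρ`, no other foot within `ρ ≥ L` of `x p`, small volume.
`e` = the last edge of the pin `p` (`u` the neighbour of `a` on `w p`, `v = a`), `ρ₁ = ρ / 4`, `place_SU`: the ball of radius
`ρ₁` around `u` in `outG` consists of vertices of the pin `p` and of vertices of `N` within `ρ₁` of `x p`; its only vertex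
joined to a hub is `u` (another one would be on a pin whose foot is in the ball). Cycles of `N` through a vertex `z` within
`ρ₁` of `x p` are longer than `8 (Rs z + L)` (`hsp`), and `Rs z ≥ min (ρ / 2) |V|`; a cycle of `outG` which meets the ball is a
cycle of `N` (the inner vertices of the pins and of the threads between hubs are on no cycle of `outG`: the pin ends at
the hub). `P` = the pin `p` back to `x p`, the walk to `x p'` (bypass), the pin `p'`; no inner hub.
-/

set_option autoImplicit false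

open Set
open Pool.Agent.Helper83.OP Pool.Agent.Helper93.HH
open Pool.Agent.Helper43.HH (walk_fun pg pl3 pg_zero pg_end pg_adj pg_inj pg_notU near_core
  near_VN pin_fin pen_adj pen_notU pen_inj VN_nadj pin_iso out_cycle Rs_ge cycle_le)

namespace Pool.Agent.Helper95.HH

/-- **D8c** -/
theorem place_e2' (C K : ℕ) : ∃ k : ℕ, ∀ (V P Q : Type) [Finite V] (D : HD V P Q),
    D.Ok → GOk D → D.Kh ≤ C → D.L ≤ C * D.r →
    (∀ e ∈ D.G.edgeSet, KPl 1 (D.G.deleteEdges {e})) →
    (∀ v (Z : D.N.Walk v v), Z.IsCycle → ∀ y ∈ Z.support, 8 * (D.Rs y + D.L) < Z.length) →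
    ∀ p p', p ≠ p' → D.hub p = D.hub p' → ∀ t, Nr D.N t (D.x p) (D.x p') → ∀ ρ, D.L ≤ ρ →
    (∀ q, q ≠ p → ¬ Nr D.N ρ (D.x p) (D.x q)) → D.vol (D.ball ρ (D.x p)) ≤ D.n0 → t ≤ K * ρ →
    KPl k D.G := by
  classical
  obtain ⟨k, hk⟩ := place_SU (12 * C) (8 * (K + 2))
  refine ⟨k, ?_⟩
  intro V P Q _ D hD hG hKh _ hcrit hcyc p p' hpp hhub t ht ρ hLρ hfree hvol htK
  have hfinP := pin_fin hD
  have hr := hD.r_pos
  have hrL := hD.r_le
  obtain ⟨ρ₁, h1ρ, h8ρ, h2ρ⟩ : ∃ ρ₁ : ℕ, 1 ≤ ρ₁ ∧ ρ ≤ 8 * ρ₁ ∧ 2 * ρ₁ ≤ ρ := by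
    by_cases h4 : ρ < 4
    · exact ⟨1, le_rfl, by omega, by omega⟩
    · exact ⟨ρ / 4, by omega, by omega, by omega⟩
  have lp1 := hD.w_ge p
  have lp2 := hD.w_le p
  have lp1' := hD.w_ge p'
  have lp2' := hD.w_le p'
  obtain ⟨π, hπ, hπt⟩ : ∃ π : D.N.Walk (D.x p) (D.x p'), π.IsPath ∧ π.length ≤ t := by
    obtain ⟨W, hW⟩ := ht
    exact ⟨W.bypass, W.bypass_isPath, W.length_bypass_le_length.trans hW⟩
  obtain ⟨u, hu⟩ : ∃ u, u = (D.w p).penultimate := ⟨_, rfl⟩
  obtain ⟨a, ha⟩ : ∃ a, a = D.hub p := ⟨_, rfl⟩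
  have haU : a ∈ D.U := ha ▸ hD.hub_U p
  have huU : u ∉ D.U := hu ▸ pen_notU hD p
  have hadj : D.G.Adj u a := by
    rw [hu, ha]
    exact pen_adj hD p
  -- the ball
  have hB : ∀ z, Nr (outG D.G D.U s(u, a)) ρ₁ u z → z ∉ D.U ∧ (z ∈ (D.w p).support ∨
      (z ∈ D.VN ∧ Nr D.N ρ₁ (D.x p) z)) := by
    intro z hz
    have h1 := near_core (D := D) (p := p) (q := p) (π := SimpleGraph.Walk.nil) hD hG
      (e := s(u, a)) (ρ := ρ) (fun s hs _ => hfree s hs) (i := 0) (Nat.zero_le _) (n := ρ₁)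
      (by rw [SimpleGraph.Walk.length_nil]; omega) (z := z) (by rw [pg_zero, ← hu]; exact hz)
    rw [SimpleGraph.Walk.length_nil, Nat.zero_add] at h1
    refine ⟨h1.1, ?_⟩
    rcases h1.2 with h | h | h
    · exact Or.inl h
    · exact Or.inl h
    · exact Or.inr h
  have hBVN : ∀ z, Nr (outG D.G D.U s(u, a)) ρ₁ u z → z ∈ D.VN → Nr D.N ρ₁ (D.x p) z := by
    intro z hz hVN
    rcases (hB z hz).2 with h | h
    · have h1 : z = D.x p := by
        by_contra hne
        exact hD.w_N p z h hne hVN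
      rw [h1]
      exact Nr.refl _ _ _
    · exact h.2
  -- the path
  obtain ⟨Γ, Γ1, -, Γ3, Γ4⟩ := walk_fun (G := outG D.G D.U s(u, a)) (pg D p p' π) (pl3 D p p' π)
    (fun i hi => pg_adj hD haU hi)
  have hΓp : Γ.IsPath := Γ4 fun i j hij hj => pg_inj hD hpp hπ hij hj
  have hΓU : ∀ z ∈ Γ.support, z ∉ D.U := by
    intro z hz
    obtain ⟨i, hi, rfl⟩ := Γ3 z hz
    exact pg_notU hD hi
  have hle : outG D.G D.U s(u, a) ≤ D.G.deleteEdges {s(u, a)} := by
    intro x y h
    rw [SimpleGraph.deleteEdges_adj]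
    exact ⟨h.1, fun h3 => h.2.1 h3⟩
  have hlast : (D.G.deleteEdges {s(u, a)}).Adj (pg D p p' π (pl3 D p p' π)) a := by
    rw [pg_end hD, SimpleGraph.deleteEdges_adj]
    refine ⟨?_, ?_⟩
    · rw [ha, hhub]
      exact pen_adj hD p'
    · intro h3
      have h4 : s((D.w p').penultimate, a) = s(u, a) := h3
      rw [Sym2.eq_iff] at h4
      rcases h4 with ⟨h4, -⟩ | ⟨-, h4⟩
      · rw [hu] at h4
        exact hpp (pen_inj hD h4).symm
      · exact huU (h4 ▸ haU)
  have hstart : pg D p p' π 0 = u := by rw [pg_zero, hu]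
  obtain ⟨W, hW⟩ : ∃ W : (D.G.deleteEdges {s(u, a)}).Walk u a,
      W = ((Γ.mapLe hle).concat hlast).copy hstart rfl := ⟨_, rfl⟩
  have hWp : W.IsPath := by
    rw [hW, SimpleGraph.Walk.isPath_copy]
    refine ((SimpleGraph.Walk.isPath_mapLe _).2 hΓp).concat ?_ _
    rw [SimpleGraph.Walk.support_mapLe_eq_support]
    exact fun h => hΓU _ h haU
  have hWs : ∀ z ∈ W.support, z ∈ D.U → z = a := by
    intro z hz hzU
    rw [hW, SimpleGraph.Walk.support_copy, SimpleGraph.Walk.support_concat, List.mem_append,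
      List.mem_singleton, SimpleGraph.Walk.support_mapLe_eq_support] at hz
    rcases hz with hz | hz
    · exact absurd hzU (hΓU z hz)
    · exact hz
  have hWl : W.length = pl3 D p p' π + 1 := by
    rw [hW, SimpleGraph.Walk.length_copy, SimpleGraph.Walk.length_concat,
      SimpleGraph.Walk.length_mapLe, Γ1]
  have hpl : pl3 D p p' π = (D.w p).length - 1 + π.length + ((D.w p').length - 1) := rfl
  refine hk V P Q D hD hG (hKh.trans (by omega)) hcrit u a hadj huU ?_ ρ₁ h1ρ ?_ ?_ ?_ ?_ W hWp ?_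
  · intro q hq
    have h1 := hD.wq_w q p u hq (by rw [hu]; exact SimpleGraph.Walk.getVert_mem_support _ _)
    exact huU (h1 ▸ hD.hub_U p)
  · -- isolation
    intro z hz b hb hzb
    obtain ⟨hzU, h⟩ := hB z hz
    by_cases hVN : z ∈ D.VN
    · exact absurd hzb (VN_nadj hD hG hVN hb)
    rcases h with h | h
    · obtain ⟨h1, h2⟩ := pin_iso hD hG h (fun h' => hVN (h' ▸ HD.x_VN _))
        (fun h' => hzU (h' ▸ hD.hub_U _)) hzb hb
      rw [h1, h2, hu, ha]
    · exact absurd h.1 hVN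
  · -- volume
    have h1 := vol_cmp D hD hG {z | Nr (outG D.G D.U s(u, a)) ρ₁ u z} (D.ball ρ (D.x p))
      (fun z hz => (hB z hz).1) (fun z hz hVN => (hBVN z hz hVN).mono (by omega))
    refine h1.trans ((Nat.mul_le_mul_left 3 hvol).trans ?_)
    unfold HD.n0
    have h3 : D.Kh * D.r ≤ C * D.r := Nat.mul_le_mul_right _ hKh
    calc 3 * (4 * D.Kh * D.r) = 12 * (D.Kh * D.r) := by ring
      _ ≤ 12 * (C * D.r) := Nat.mul_le_mul_left _ h3
      _ = 12 * C * D.r := by ring
  · -- cycles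
    intro z Z hZ hz
    obtain ⟨Z', hZ', hlen, -⟩ := out_cycle hD hG Z hZ
    have hzVN : z ∈ D.VN := by
      obtain ⟨w, hw⟩ : ∃ w, D.N.Adj z w := by
        cases Z' with
        | nil => exact absurd hZ' SimpleGraph.Walk.not_isCycle_nil
        | cons h _ => exact ⟨_, h⟩
      exact HD.VN_of_adj hw
    have h1 := hcyc z Z' hZ' z (SimpleGraph.Walk.start_mem_support _)
    have h2 := Rs_ge (D := D) (y := D.x p) (z := z) (ρ := ρ) (s := ρ₁) ({p} : Set P)
      (by rw [Set.ncard_singleton]; omega) (by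
        intro s hs
        by_contra hno
        rw [Set.mem_singleton_iff] at hno
        exact hfree s hno hs) hvol (hBVN z hz hzVN)
    have h3 := cycle_le Z' hZ'
    rw [hlen] at h1 h3
    have h4 : ρ + 1 - ρ₁ ≤ D.Rs z := by
      rcases le_total (ρ + 1 - ρ₁) (Nat.card V) with h5 | h5
      · rwa [min_eq_left h5] at h2
      · rw [min_eq_right h5] at h2
        omega
    omega
  · intro h
    exact (hB a h).1 haU
  · have h0 : (W.support.map (fun z => if z ∈ D.U ∧ z ≠ a then deg D.G z else 0)).sum = 0 := by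
      refine List.sum_eq_zero fun x hx => ?_
      obtain ⟨z, hz, rfl⟩ := List.mem_map.1 hx
      exact if_neg fun h => h.2 (hWs z hz h.1)
    have h1 : W.length ≤ K * ρ + 2 * ρ := by omega
    have h2 : W.length ≤ (K + 2) * ρ := by
      rw [add_mul]
      exact h1
    have h3 : (K + 2) * ρ ≤ (K + 2) * (8 * ρ₁) := Nat.mul_le_mul_left _ h8ρ
    have h4 : 8 * (K + 2) * ρ₁ = (K + 2) * (8 * ρ₁) := by ring
    rw [h4]
    have h5 := h2.trans h3
    refine le_trans (Nat.add_le_add_left (le_of_eq (?_ : _ = 0)) W.length) h5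
    convert h0 using 4

end Pool.Agent.Helper95.HH
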