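import Pool.Agent.Helper95.HH.VolCmp
import Pool.Agent.Helper95.HH.PSlide
import Pool.Agent.Helper95.HH.CoreF
import Pool.Agent.Helper95.HH.Tracks
import Pool.Agent.Helper43.HH.P3c

/-!
# HH/P3: the place E3, two double units with the same hubs (drawing half of theorem (H), MP_0dbcb7_co)

D8e. Pins `p`, `q` with different hubs `a`, `c` and `d(x p, x q) ≤ g`, pins `p'`, `q'` with the same hubs `a`, `c` and
`d(x p', x q') ≤ g' ≤ d(x p, x q)`, `d(x p, x p') ≤ t ≤ K ρ`, `4 g ≤ ρ`, `L ≤ ρ`; no other foot than `x p`, `x q` within `ρ` of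
`x p`, small volume. `e` = the last edge of the pin `p`: `u` = the last vertex of `w p` before `a`, `v = a`. `place_slide` with
the core `Γ` = the pin `p` without `a` (backwards, from `u` to `x p`), a shortest path of `N` from `x p` to `x q`, the pin `q`
without `c`; `J = ρ / 8` (or `1`), `B` = the vertices within `J` of `Γ` in `outG`: `core_forest`. `Γ` is a path of `outG`; a
cycle of `outG` through a vertex of `B` is a cycle of `N` and longer than `64 (Rs z + L)`, `Rs z ≥ min (ρ / 4) |V|`, whereas
`2 J + 1 + |Γ| ≤ ρ / 4 + 3 + 2 L + g`. The tracks: `tracks` with `R = ringOut`, all vertices as `inl` (`ring_out_walk`).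
Let `Γ'` be the path from the last vertex of `w p'` before `a` via `x p'`, `x q'` (shortest path of `N`) to the last vertex
of `w q'` before `c`, `π` a walk of `N` of length at most `t` from `x p` to `x p'`. The vertex `γ` of `Γ` moves with unit
speed along `Γ` to `x p`, along `π`, and along `Γ'` to the vertex `γ'` corresponding to `γ` under the piecewise affine map
(pin `p` to pin `p'`, gap to gap, pin `q` to pin `q'`), and stays there: all the walks have the form (first part on `Γ`) `π` (last
part on `Γ'`), the positions of neighbours on `Γ` differ by at most `2 C + 3` steps at every time (pins: `L / (r - 1) ≤ 2 C`;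
the gap is not stretched, as `d(x p', x q') ≤ d(x p, x q)`), `M` = the maximal length of these walks
`≤ 4 L + 2 g + t ≤ (K + 5) ρ`. At the end `u` is next to the door of `w p'` at `a`, and the last vertex of `w q` before `c` is
next to the door of `w q'` at `c`. All vertices of `B` joined to a hub are these two (`adj_cases`, `w_disj`; a pin has at
least two edges). `p'`, `q'` are different from `p`, `q` (hubs; and `q' = q` would put `x p'` within `2 g ≤ ρ / 2` of `x p`).
-/

set_option autoImplicit false

open Set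
open Pool.Agent.Helper83.OP Pool.Agent.Helper93.HH

namespace Pool.Agent.Helper95.HH

/-- **D8e** -/
theorem place_e3 (C K : ℕ) : ∃ k : ℕ, ∀ (V P Q : Type) [Finite V] (D : HD V P Q),
    D.Ok → GOk D → D.Kh ≤ C → D.L ≤ C * D.r →
    (∀ e ∈ D.G.edgeSet, KPl 1 (D.G.deleteEdges {e})) →
    (∀ v (Z : D.N.Walk v v), Z.IsCycle → ∀ y ∈ Z.support, 64 * (D.Rs y + D.L) < Z.length) →
    ∀ p p' q q', p ≠ p' → q ≠ p → q' ≠ p' → D.hub p = D.hub p' → D.hub q = D.hub q' →
    D.hub q ≠ D.hub p → ∀ g g' t, Nr D.N g (D.x p) (D.x q) → Nr D.N g' (D.x p') (D.x q') →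
    (∀ s, Nr D.N s (D.x p) (D.x q) → g' ≤ s) → Nr D.N t (D.x p) (D.x p') →
    ∀ ρ, D.L ≤ ρ → 4 * g ≤ ρ →
    (∀ s, s ≠ p → s ≠ q → ¬ Nr D.N ρ (D.x p) (D.x s)) → D.vol (D.ball ρ (D.x p)) ≤ D.n0 →
    t ≤ K * ρ → KPl k D.G :=
  Pool.Agent.Helper43.HH.place_e3 C K

end Pool.Agent.Helper95.HH
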