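import Pool.Agent.Helper95.HH.VolCmp
import Pool.Agent.Helper95.HH.SU

/-!
# HH/P4: the place E4, a cycle through one hub (drawing half of theorem (H), MP_0dbcb7_co)

D8d. Two pins `p`, `p'` of the hub `a`, a path `W` of `N` between their feet, a free ball of radius `ρ ≥ L` at a vertex `y`
of `W`, `|W| + deg a ≤ K ρ`. `y` is not an end of `W` (free); `e = y y'` the next edge of `W`, `u = y`, `v = y'`,
`ρ₁ = ρ / 4` (at least `1` since `ρ ≥ L ≥ r ≥ 2`; if `ρ < 4` use `ρ₁ = 1`), `place_SU` as in P1 (cycles through the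
ball: `he`). `P` = from `y` back along `W` to `x p`, the pin `p`, the hub `a`, the pin `p'` backwards, `W` backwards from
`x p'` to `y'`: a path, its only hub is `a`.
-/

set_option autoImplicit false

open Set
open Pool.Agent.Helper83.OP Pool.Agent.Helper93.HH

namespace Pool.Agent.Helper95.HH

/-- two paths which only meet in the common end -/
private theorem path_append {V : Type} {H : SimpleGraph V} {a b c : V} (p : H.Walk a b)
    (q : H.Walk b c) (hp : p.IsPath) (hq : q.IsPath)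
    (h : ∀ z ∈ p.support, z ∈ q.support → z = b) : (p.append q).IsPath := by
  induction p with
  | nil => simpa using hq
  | @cons u w b hw p ih =>
    rw [SimpleGraph.Walk.cons_append, SimpleGraph.Walk.cons_isPath_iff]
    rw [SimpleGraph.Walk.cons_isPath_iff] at hp
    refine ⟨ih q hp.1 hq fun z hz hz' => h z (by simp [hz]) hz', ?_⟩
    rw [SimpleGraph.Walk.mem_support_append_iff]
    rintro (h1 | h1)
    · exact hp.2 h1
    · have h2 := h u (by simp) h1
      subst h2
      exact hp.2 p.end_mem_support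

/-- a sum over different vertices with one nonzero term -/
private theorem sum_one {V : Type} (f : V → ℕ) (a : V) (l : List V) (hl : l.Nodup)
    (h : ∀ z ∈ l, z ≠ a → f z = 0) : (l.map f).sum ≤ f a := by
  induction l with
  | nil => simp
  | cons z l ih =>
    rw [List.nodup_cons] at hl
    rw [List.map_cons, List.sum_cons]
    have h1 := ih hl.2 fun w hw => h w (List.mem_cons_of_mem _ hw)
    by_cases hz : z = a
    · subst hz
      have h2 : (l.map f).sum = 0 := by
        rw [List.sum_eq_zero_iff]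
        intro n hn
        obtain ⟨w, hw, rfl⟩ := List.mem_map.1 hn
        exact h w (List.mem_cons_of_mem _ hw) (by rintro rfl; exact hl.1 hw)
      omega
    · rw [h z (by simp) hz]
      omega

/-- the vertices of a closed walk are within half of its length -/
private theorem nr_half {V : Type} {H : SimpleGraph V} {z w : V} (Z : H.Walk z z) (t : ℕ)
    (ht : Z.length ≤ 2 * t + 1) (hw : w ∈ Z.support) : Nr H t z w := by
  classical
  have h1 : (Z.takeUntil w hw).length + (Z.dropUntil w hw).length = Z.length := by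
    rw [← SimpleGraph.Walk.length_append, SimpleGraph.Walk.take_spec]
  by_cases h2 : (Z.takeUntil w hw).length ≤ t
  · exact ⟨_, h2⟩
  · exact Nr.symm ⟨_, (by omega : (Z.dropUntil w hw).length ≤ t)⟩

/-- the edges of `outG` at a vertex of `N` near a vertex without feet are in `N` -/
private theorem adj_N {V P Q : Type} [Finite V] (D : HD V P Q) (hD : D.Ok) (hG : GOk D) (e : Sym2 V)
    (y z z' : V) (ρ t : ℕ) (hy : y ∈ D.VN) (hfree : ∀ p, ¬ Nr D.N ρ y (D.x p)) (ht : t ≤ ρ)
    (h : Nr (outG D.G D.U e) t y z) (h' : D.G.Adj z z') : D.N.Adj z z' := by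
  obtain ⟨h1, h2⟩ := nr_out D hD hG e y z t hy (fun p hp => hfree p (hp.mono ht)) h
  rcases adj_cases D hD hG z z' h1 h' with h3 | ⟨s, h3, -⟩
  · exact h3
  · exact absurd (h3 ▸ h2.mono ht) (hfree s)

/-- walks of `outG` near a vertex without feet are walks of `N` -/
private theorem edges_N {V P Q : Type} [Finite V] (D : HD V P Q) (hD : D.Ok) (hG : GOk D)
    (e : Sym2 V) (y : V) (ρ t : ℕ) (hy : y ∈ D.VN) (hfree : ∀ p, ¬ Nr D.N ρ y (D.x p)) (ht : t ≤ ρ)
    {c d : V} (Z : (outG D.G D.U e).Walk c d)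
    (h : ∀ z ∈ Z.support, Nr (outG D.G D.U e) t y z) : ∀ f ∈ Z.edges, f ∈ D.N.edgeSet := by
  intro f hf
  induction f with
  | h z z' =>
    have h1 := Z.fst_mem_support_of_mem_edges hf
    have h2 := Z.adj_of_mem_edges hf
    exact adj_N D hD hG e y z z' ρ t hy hfree ht (h z h1) h2.1

/-- **D8d** -/
theorem place_e4 (C K : ℕ) : ∃ k : ℕ, ∀ (V P Q : Type) [Finite V] (D : HD V P Q),
    D.Ok → GOk D → D.Kh ≤ C → D.L ≤ C * D.r →
    (∀ e ∈ D.G.edgeSet, KPl 1 (D.G.deleteEdges {e})) →
    (∀ v (Z : D.N.Walk v v), Z.IsCycle → 16 * D.L < Z.length ∧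
      ∀ y ∈ Z.support, ∀ ρ, D.L ≤ ρ → D.Free ρ y → 16 * ρ < Z.length) →
    ∀ p p', p ≠ p' → D.hub p = D.hub p' → ∀ W : D.N.Walk (D.x p) (D.x p'), W.IsPath →
    ∀ y ∈ W.support, ∀ ρ, D.L ≤ ρ → D.Free ρ y → W.length + deg D.G (D.hub p) ≤ K * ρ →
    KPl k D.G := by
  classical
  obtain ⟨k, hk⟩ := place_SU (12 * C) (8 * (K + 2))
  refine ⟨k, ?_⟩
  intro V P Q _ D hD hG hC _ hcrit hcyc p p' hpp hhub W hW y hy ρ hLρ hfree hlen
  have hr := hD.r_pos
  have hrL := hD.r_le
  obtain ⟨ρ₁, h1ρ, h8ρ, h2ρ⟩ : ∃ ρ₁ : ℕ, 1 ≤ ρ₁ ∧ ρ ≤ 8 * ρ₁ ∧ 2 * ρ₁ ≤ ρ := by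
    by_cases h4 : ρ < 4
    · exact ⟨1, le_rfl, by omega, by omega⟩
    · exact ⟨ρ / 4, by omega, by omega, by omega⟩
  obtain ⟨hfp, hfv⟩ := hfree
  have hyp : y ≠ D.x p := by
    rintro rfl
    exact hfp p (Nr.refl _ _ _)
  have hyp' : y ≠ D.x p' := by
    rintro rfl
    exact hfp p' (Nr.refl _ _ _)
  -- split the path
  obtain ⟨W1, W2, hW12⟩ : ∃ (W1 : D.N.Walk (D.x p) y) (W2 : D.N.Walk y (D.x p')),
      W = W1.append W2 := ⟨W.takeUntil y hy, W.dropUntil y hy, (W.take_spec hy).symm⟩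
  obtain ⟨y', hyy, W3, hW3⟩ : ∃ (y' : V) (h : D.N.Adj y y') (W3 : D.N.Walk y' (D.x p')),
      W2 = SimpleGraph.Walk.cons h W3 := by
    cases W2 with
    | nil => exact absurd rfl hyp'
    | @cons _ y' _ h W3 => exact ⟨y', h, W3, rfl⟩
  subst hW3
  subst hW12
  have hyN : y ∈ D.VN := HD.VN_of_adj hyy
  have hW1 : W1.IsPath := hW.of_append_left
  have hW2 := hW.of_append_right
  have hW3 : W3.IsPath := ((SimpleGraph.Walk.cons_isPath_iff hyy W3).1 hW2).1
  have hyW3 : y ∉ W3.support := ((SimpleGraph.Walk.cons_isPath_iff hyy W3).1 hW2).2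
  have hdis : ∀ z ∈ W1.support, z ∉ W3.support := by
    intro z hz hz3
    have h1 := hW.support_nodup
    rw [SimpleGraph.Walk.support_append, SimpleGraph.Walk.support_cons, List.tail_cons] at h1
    exact (List.disjoint_of_nodup_append h1) hz hz3
  have hxp : D.x p ∈ W1.support := W1.start_mem_support
  have hxp' : D.x p' ∈ W3.support := W3.end_mem_support
  have hN1 : ∀ z ∈ W1.support, z ∈ D.VN := fun z hz => HD.VN_of_walk W1 (HD.x_VN p) hz
  have hN3 : ∀ z ∈ W3.support, z ∈ D.VN := fun z hz => HD.VN_of_walk W3 (HD.VN_of_adj' hyy) hz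
  -- the ball
  have hadj : ∀ z t z', t ≤ ρ → Nr (outG D.G D.U s(y, y')) t y z → D.G.Adj z z' → D.N.Adj z z' :=
    fun z t z' ht h h' => adj_N D hD hG _ y z z' ρ t hyN hfp ht h h'
  have hfr : ∀ z, Nr D.N ρ₁ y z → ∀ (v : V) (Z : D.N.Walk v v), Z.IsCycle → z ∈ Z.support →
      2 * ρ₁ + 1 < Z.length := by
    intro z hz v Z hZ hzZ
    obtain ⟨h1, h2⟩ := hcyc v Z hZ
    by_cases h3 : D.L ≤ ρ - ρ₁
    · have h4 := h2 z hzZ (ρ - ρ₁) h3 ⟨fun s hs => hfp s ((hz.trans hs).mono (by omega)),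
        (D.vol_mono ((D.ball_sub (s := ρ - ρ₁) hz).trans (D.ball_mono (by omega) y))).trans hfv⟩
      omega
    · omega
  have hcyc' : ∀ z (Z : (outG D.G D.U s(y, y')).Walk z z), Z.IsCycle →
      Nr (outG D.G D.U s(y, y')) ρ₁ y z → 2 * ρ₁ + 1 < Z.length := by
    intro z Z hZ hz
    by_contra hcon
    have h1 : ∀ w ∈ Z.support, Nr (outG D.G D.U s(y, y')) (2 * ρ₁) y w := by
      intro w hw
      exact (hz.trans (nr_half Z ρ₁ (by omega) hw)).mono (by omega)
    have h2 := edges_N D hD hG s(y, y') y ρ (2 * ρ₁) hyN hfp h2ρ Z h1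
    have h3 := (nr_out D hD hG s(y, y') y z ρ₁ hyN (fun s hs => hfp s (hs.mono (by omega))) hz).2
    have h4 := hfr z h3 z (Z.transfer D.N h2) (hZ.transfer h2) (by simp)
    rw [SimpleGraph.Walk.length_transfer] at h4
    exact hcon h4
  have hnr : ¬ Nr (outG D.G D.U s(y, y')) ρ₁ y y' := by
    rintro h
    obtain ⟨q0, hq0⟩ := h.symm
    obtain ⟨q, hq, hql⟩ : ∃ q : (outG D.G D.U s(y, y')).Walk y' y, q.IsPath ∧ q.length ≤ ρ₁ :=
      ⟨q0.bypass, q0.bypass_isPath, (q0.length_bypass_le_length).trans hq0⟩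
    have h1 : ∀ w ∈ q.support, Nr (outG D.G D.U s(y, y')) ρ₁ y w := by
      intro w hw
      have h2 : w ∈ q.reverse.support := by simpa using hw
      exact (Nr.of_mem h2).mono (by simpa using hql)
    have h2 := edges_N D hD hG s(y, y') y ρ ρ₁ hyN hfp (by omega) q h1
    have h3 : (SimpleGraph.Walk.cons hyy (q.transfer D.N h2)).IsCycle := by
      rw [SimpleGraph.Walk.cons_isCycle_iff]
      refine ⟨hq.transfer h2, ?_⟩
      rw [SimpleGraph.Walk.edges_transfer]
      intro h4
      exact (q.adj_of_mem_edges h4).2.1 rfl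
    have h4 := hfr y (Nr.refl _ _ _) y _ h3 (by simp)
    rw [SimpleGraph.Walk.length_cons, SimpleGraph.Walk.length_transfer] at h4
    omega
  -- the path
  have hwp' : ∀ z ∈ (D.w p').reverse.support, z ∈ (D.w p').support := by
    intro z hz
    simpa using hz
  have hmeet : ∀ z ∈ (D.w p).support, z ∈ (D.w p').support → z = D.hub p := by
    intro z h1 h2
    by_contra h3
    by_cases h4 : z = D.x p
    · subst h4
      have h5 : D.x p = D.x p' := by
        by_contra h5
        exact hD.w_N p' _ h2 h5 (HD.x_VN p)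
      exact hdis _ hxp (by rw [h5]; exact hxp')
    · exact hpp (hD.w_disj p p' z h1 h2 h4 h3)
  obtain ⟨R, hRdef⟩ : ∃ R : D.G.Walk y y', R = ((W1.reverse.mapLe hD.N_le).append (D.w p)).append
      (((D.w p').reverse.copy hhub.symm rfl).append (W3.reverse.mapLe hD.N_le)) := ⟨_, rfl⟩
  have hRs : ∀ z, z ∈ R.support ↔
      ((z ∈ W1.support ∨ z ∈ (D.w p).support) ∨ (z ∈ (D.w p').support ∨ z ∈ W3.support)) := by
    intro z
    rw [hRdef]
    simp only [SimpleGraph.Walk.mem_support_append_iff, SimpleGraph.Walk.support_mapLe_eq_support,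
      SimpleGraph.Walk.support_reverse, List.mem_reverse, SimpleGraph.Walk.support_copy]
  have hRp : R.IsPath := by
    rw [hRdef]
    refine path_append _ _ (path_append _ _ ?_ (hD.w_path p) ?_) (path_append _ _ ?_ ?_ ?_) ?_
    · exact (SimpleGraph.Walk.isPath_mapLe _).2 hW1.reverse
    · intro z h1 h2
      by_contra h3
      refine hD.w_N p z h2 h3 (hN1 z ?_)
      simpa using h1
    · simpa using (hD.w_path p')
    · exact (SimpleGraph.Walk.isPath_mapLe _).2 hW3.reverse
    · intro z h1 h2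
      by_contra h3
      refine hD.w_N p' z (by simpa using h1) h3 (hN3 z ?_)
      simpa using h2
    · intro z h1 h2
      rw [SimpleGraph.Walk.mem_support_append_iff] at h1 h2
      have h1' : z ∈ W1.support ∨ z ∈ (D.w p).support := by simpa using h1
      have h2' : z ∈ (D.w p').support ∨ z ∈ W3.support := by simpa using h2
      rcases h1' with h1' | h1' <;> rcases h2' with h2' | h2'
      · exfalso
        by_cases h3 : z = D.x p'
        · exact hdis z h1' (h3 ▸ hxp')
        · exact hD.w_N p' z h2' h3 (hN1 z h1')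
      · exact absurd h2' (hdis z h1')
      · exact hmeet z h1' h2'
      · exfalso
        by_cases h3 : z = D.x p
        · exact hdis z (h3 ▸ hxp) h2'
        · exact hD.w_N p z h1' h3 (hN3 z h2')
  have hRe : ∀ f ∈ R.edges, f ∈ (D.G.deleteEdges {s(y, y')}).edgeSet := by
    intro f hf
    rw [SimpleGraph.edgeSet_deleteEdges]
    refine ⟨R.edges_subset_edgeSet hf, ?_⟩
    intro hfe
    rw [Set.mem_singleton_iff] at hfe
    subst hfe
    rw [hRdef] at hf
    simp only [SimpleGraph.Walk.edges_append, SimpleGraph.Walk.edges_mapLe_eq_edges,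
      SimpleGraph.Walk.edges_reverse, List.mem_reverse, SimpleGraph.Walk.edges_copy,
      List.mem_append] at hf
    rcases hf with (hf | hf) | (hf | hf)
    · have h1 := W1.snd_mem_support_of_mem_edges hf
      exact hdis _ h1 W3.start_mem_support
    · have h1 := (D.w p).fst_mem_support_of_mem_edges hf
      exact hD.w_N p y h1 hyp hyN
    · have h1 := (D.w p').fst_mem_support_of_mem_edges hf
      exact hD.w_N p' y h1 hyp' hyN
    · exact hyW3 (W3.fst_mem_support_of_mem_edges hf)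
  have hRl : R.length ≤ (W1.append (SimpleGraph.Walk.cons hyy W3)).length + 2 * D.L := by
    rw [hRdef]
    simp only [SimpleGraph.Walk.length_append, SimpleGraph.Walk.length_mapLe,
      SimpleGraph.Walk.length_reverse, SimpleGraph.Walk.length_copy,
      SimpleGraph.Walk.length_cons]
    have h1 := hD.w_le p
    have h2 := hD.w_le p'
    omega
  have hRU : ∀ z ∈ R.support, z ∈ D.U → z = D.hub p := by
    intro z hz hzU
    by_contra h3
    rcases (hRs z).1 hz with (h | h) | (h | h)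
    · exact HD.VN_U hD (hN1 z h) hzU
    · exact hD.w_U p z h h3 hzU
    · exact hD.w_U p' z h (hhub ▸ h3) hzU
    · exact HD.VN_U hD (hN3 z h) hzU
  refine hk V P Q D hD hG (hC.trans (by omega)) hcrit y y' (hD.N_le hyy) (hD.N_U y y' hyy)
    (fun q hq => hD.wq_N q y hq hyN) ρ₁ h1ρ ?_ ?_ hcyc' hnr (R.transfer _ hRe) (hRp.transfer hRe) ?_
  · intro z hz a ha h
    exact absurd ha (hD.N_U a z (hadj z ρ₁ a (by omega) hz h).symm)
  · have h1 : ∀ z, Nr (outG D.G D.U s(y, y')) ρ₁ y z → z ∈ D.VN ∧ Nr D.N ρ₁ y z := fun z hz =>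
      nr_out D hD hG s(y, y') y z ρ₁ hyN (fun s hs => hfp s (hs.mono (by omega))) hz
    have h2 := vol_cmp D hD hG {z | Nr (outG D.G D.U s(y, y')) ρ₁ y z} (D.ball ρ y)
      (fun z hz => HD.VN_U hD (h1 z hz).1) (fun z hz _ => (h1 z hz).2.mono (by omega))
    refine h2.trans ((Nat.mul_le_mul_left 3 hfv).trans ?_)
    unfold HD.n0
    have h3 : D.Kh * D.r ≤ C * D.r := Nat.mul_le_mul_right _ hC
    calc 3 * (4 * D.Kh * D.r) = 12 * (D.Kh * D.r) := by ring
      _ ≤ 12 * (C * D.r) := Nat.mul_le_mul_left _ h3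
      _ = 12 * C * D.r := by ring
  · rw [SimpleGraph.Walk.length_transfer, SimpleGraph.Walk.support_transfer]
    have h1 := sum_one (fun z => if z ∈ D.U ∧ z ≠ y' then deg D.G z else 0) (D.hub p) R.support
      hRp.support_nodup (by
        intro z hz hza
        rw [if_neg]
        rintro ⟨h2, -⟩
        exact hza (hRU z hz h2))
    have h2 : (fun z => if z ∈ D.U ∧ z ≠ y' then deg D.G z else 0) (D.hub p)
        ≤ deg D.G (D.hub p) := by
      show (if D.hub p ∈ D.U ∧ D.hub p ≠ y' then deg D.G (D.hub p) else 0) ≤ _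
      split_ifs
      · exact le_rfl
      · exact Nat.zero_le _
    have h3 : (K + 2) * ρ ≤ (K + 2) * (8 * ρ₁) := Nat.mul_le_mul_left _ h8ρ
    have h4 : 8 * (K + 2) * ρ₁ = (K + 2) * (8 * ρ₁) := by ring
    have h5 : (K + 2) * ρ = K * ρ + 2 * ρ := by ring
    have h6 := h1.trans h2
    rw [h4]
    refine le_trans ?_ h3
    rw [h5]
    refine le_trans (Nat.add_le_add hRl h6) ?_
    omega

end Pool.Agent.Helper95.HH
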