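import Pool.Agent.Helper95.HH.GOk
import Pool.Agent.Helper71.QU.Any

/-!
# HH/Short: the places E0, E2 (near pins) and parallel threads between hubs (drawing half of (H), MP_0dbcb7_co)

D8f. All by `Helper71/QU/Any.insert_walk` (a thread `T` is redrawn along a walk with the same ends; the degrees of the two
ends are not counted). (i) A cycle of `N` of length at most `K L`: `T` a thread on it (`GOk.cyc`: it has two vertices of
degree at least three), the walk is the rest; its inner vertices of degree at least three are at most `K L / r + 1`, each of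
degree at most `Kh r`. (ii) `T` = the pin `p`, the walk = from `x p` to `x p'` in `N` and the pin `p'`. (iii) `T = wq q`, the
walk is `wq q'`. The sums of the degrees are at most `C' r ≤ C' |T|` since `L ≤ C r` (`HD.Ok.thr_ge` or `GOk.low` for the
number of vertices of degree at least three on a path).
-/

set_option autoImplicit false

open Set
open Pool.Agent.Helper83.OP Pool.Agent.Helper93.HH Pool.Agent.Helper71.QU

namespace Pool.Agent.Helper95.HH

private theorem sh_pos {V : Type} [Finite V] {G : SimpleGraph V} {a b : V} (h : G.Adj a b) :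
    deg G a ≠ 0 := by
  unfold deg
  intro h0
  rw [Set.ncard_eq_zero (Set.toFinite _)] at h0
  have : b ∈ G.neighborSet a := h
  rw [h0] at this
  exact this

private theorem sh_two {V : Type} [Finite V] {G : SimpleGraph V} (hd : ∀ v, deg G v ≠ 1)
    {a b : V} (h : G.Adj a b) (h3 : ¬ 3 ≤ deg G a) : deg G a = 2 := by
  have h1 := sh_pos h
  have h2 := hd a
  omega

/-- the vertices of degree at least three after the first vertex -/
private theorem sh_aux {V : Type} [Finite V] (G : SimpleGraph V) (r : ℕ)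
    (hd : ∀ v, deg G v ≠ 1)
    (low : ∀ u v (p : G.Walk u v), p.IsPath → u ≠ v → 3 ≤ deg G u → 3 ≤ deg G v →
      (∀ x ∈ p.support, x ≠ u → x ≠ v → deg G x = 2) → r ≤ p.length)
    {u v : V} (p : G.Walk u v) : ∀ {a : V} (q : G.Walk a u), (q.append p).IsPath →
      3 ≤ deg G a → (∀ x ∈ q.support, x ≠ a → deg G x = 2) →
      (p.support.tail.filter (fun x => 3 ≤ deg G x)).length * r ≤ q.length + p.length := by
  induction p with
  | nil =>
    intro a q _ _ _
    simp
  | @cons u u' v h p ih =>
    intro a q hp ha hq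
    have e1 : q.append (SimpleGraph.Walk.cons h p) = (q.concat h).append p := by
      rw [SimpleGraph.Walk.concat_append]
    rw [e1] at hp
    have hc : (q.concat h).IsPath := hp.of_append_left
    have hp' : p.IsPath := hp.of_append_right
    have hnot : u' ∉ q.support := ((SimpleGraph.Walk.concat_isPath_iff h).1 hc).2
    have hau : a ≠ u' := fun h0 => hnot (h0 ▸ q.start_mem_support)
    have e2 : (SimpleGraph.Walk.cons h p).support.tail = u' :: p.support.tail := by
      rw [SimpleGraph.Walk.support_cons, List.tail_cons]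
      exact p.cons_tail_support.symm
    rw [e2, SimpleGraph.Walk.length_cons]
    by_cases h3 : 3 ≤ deg G u'
    · rw [List.filter_cons_of_pos (by simpa using h3), List.length_cons, Nat.add_mul, Nat.one_mul]
      have h4 := ih (SimpleGraph.Walk.nil : G.Walk u' u') (by simpa using hp') h3 (by
        intro x hx hxu
        simp only [SimpleGraph.Walk.support_nil, List.mem_singleton] at hx
        exact absurd hx hxu)
      have h5 := low a u' (q.concat h) hc hau ha h3 (by
        intro x hx hxa hxu
        rw [SimpleGraph.Walk.support_concat, List.mem_append, List.mem_singleton] at hx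
        rcases hx with hx | hx
        · exact hq x hx hxa
        · exact absurd hx hxu)
      rw [SimpleGraph.Walk.length_concat] at h5
      rw [SimpleGraph.Walk.length_nil] at h4
      omega
    · rw [List.filter_cons_of_neg (by simpa using h3)]
      have h4 := ih (q.concat h) hp ha (by
        intro x hx hxa
        rw [SimpleGraph.Walk.support_concat, List.mem_append, List.mem_singleton] at hx
        rcases hx with hx | hx
        · exact hq x hx hxa
        · rw [hx]
          exact sh_two hd h.symm h3)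
      rw [SimpleGraph.Walk.length_concat] at h4
      omega

/-- the vertices of degree at least three on a path -/
private theorem sh_cnt {V : Type} [Finite V] (G : SimpleGraph V) (r : ℕ)
    (hd : ∀ v, deg G v ≠ 1)
    (low : ∀ u v (p : G.Walk u v), p.IsPath → u ≠ v → 3 ≤ deg G u → 3 ≤ deg G v →
      (∀ x ∈ p.support, x ≠ u → x ≠ v → deg G x = 2) → r ≤ p.length)
    {u v : V} (p : G.Walk u v) (hp : p.IsPath) :
    (p.support.filter (fun x => 3 ≤ deg G x)).length * r ≤ p.length + r := by
  induction p with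
  | @nil u =>
    rw [SimpleGraph.Walk.support_nil]
    have h1 : (List.filter (fun x => decide (3 ≤ deg G x)) [u]).length ≤ 1 :=
      (List.length_filter_le _ _)
    have h2 := Nat.mul_le_mul_right r h1
    simpa using h2
  | @cons u u' v h p ih =>
    by_cases h3 : 3 ≤ deg G u
    · have h4 := sh_aux G r hd low (SimpleGraph.Walk.cons h p) (SimpleGraph.Walk.nil : G.Walk u u)
        (by simpa using hp) h3 (by
          intro x hx hxu
          simp only [SimpleGraph.Walk.support_nil, List.mem_singleton] at hx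
          exact absurd hx hxu)
      rw [SimpleGraph.Walk.support_cons, List.tail_cons] at h4
      rw [SimpleGraph.Walk.support_cons, List.filter_cons_of_pos (by simpa using h3),
        List.length_cons, Nat.add_mul, Nat.one_mul]
      rw [SimpleGraph.Walk.length_nil] at h4
      omega
    · rw [SimpleGraph.Walk.support_cons, List.filter_cons_of_neg (by simpa using h3),
        SimpleGraph.Walk.length_cons]
      have h4 := ih hp.of_cons
      omega

open Classical in
/-- the sum of the degrees on a path -/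
private theorem sh_sum {V : Type} [Finite V] (G : SimpleGraph V) {u v : V} (p : G.Walk u v)
    (M : ℕ) (hM : ∀ x ∈ p.support, deg G x ≤ M) :
    ∑ y ∈ p.support.toFinset, deg G y ≤
      2 * (p.length + 1) + M * (p.support.filter (fun x => 3 ≤ deg G x)).length := by
  have h1 : ∑ y ∈ p.support.toFinset, deg G y ≤
      ∑ y ∈ p.support.toFinset, (2 + if 3 ≤ deg G y then M else 0) := by
    refine Finset.sum_le_sum fun y hy => ?_
    rw [List.mem_toFinset] at hy
    by_cases h3 : 3 ≤ deg G y
    · rw [if_pos h3]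
      exact (hM y hy).trans (Nat.le_add_left _ _)
    · rw [if_neg h3]
      omega
  rw [Finset.sum_add_distrib, Finset.sum_const, smul_eq_mul, ← Finset.sum_filter,
    Finset.sum_const, smul_eq_mul] at h1
  have h2 : p.support.toFinset.card ≤ p.length + 1 := by
    rw [← SimpleGraph.Walk.length_support]
    exact List.toFinset_card_le _
  have h3 : (p.support.toFinset.filter (fun y => 3 ≤ deg G y)).card ≤
      (p.support.filter (fun x => 3 ≤ deg G x)).length := by
    refine le_trans (Finset.card_le_card (t := (p.support.filter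
      (fun x => 3 ≤ deg G x)).toFinset) ?_) (List.toFinset_card_le _)
    intro y hy
    rw [Finset.mem_filter, List.mem_toFinset] at hy
    rw [List.mem_toFinset, List.mem_filter]
    exact ⟨hy.1, by simpa using hy.2⟩
  refine h1.trans ?_
  have h4 := Nat.mul_le_mul_right 2 h2
  have h5 := Nat.mul_le_mul_right M h3
  rw [Nat.mul_comm 2, Nat.mul_comm M]
  omega

/-- the next vertex of degree at least three -/
private theorem sh_first {V : Type} {G : SimpleGraph V} {u v : V} (p : G.Walk u v) :
    p.IsPath → u ≠ v → 3 ≤ deg G v → ∃ (b : V) (T : G.Walk u b) (R : G.Walk b v),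
      p = T.append R ∧ u ≠ b ∧ 3 ≤ deg G b ∧
      ∀ x ∈ T.support, x ≠ u → x ≠ b → ¬ 3 ≤ deg G x := by
  induction p with
  | nil => exact fun _ h _ => absurd rfl h
  | @cons u u' v h p ih =>
    intro hp huv hv
    have hu : u ∉ p.support := ((SimpleGraph.Walk.cons_isPath_iff h p).1 hp).2
    by_cases h3 : 3 ≤ deg G u'
    · refine ⟨u', SimpleGraph.Walk.cons h SimpleGraph.Walk.nil, p, rfl, h.ne, h3, ?_⟩
      intro x hx hx1 hx2
      simp only [SimpleGraph.Walk.support_cons, SimpleGraph.Walk.support_nil, List.mem_cons,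
        List.not_mem_nil, or_false] at hx
      rcases hx with hx | hx
      · exact absurd hx hx1
      · exact absurd hx hx2
    · obtain ⟨b, T, R, e, -, hb, hT⟩ := ih hp.of_cons (fun h0 => h3 (h0 ▸ hv)) hv
      have hb' : b ∈ p.support := by
        rw [e, SimpleGraph.Walk.mem_support_append_iff]
        exact Or.inl T.end_mem_support
      refine ⟨b, SimpleGraph.Walk.cons h T, R, by rw [e]; rfl, fun h0 => hu (h0 ▸ hb'), hb, ?_⟩
      intro x hx hx1 hx2
      rw [SimpleGraph.Walk.support_cons, List.mem_cons] at hx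
      rcases hx with hx | hx
      · exact absurd hx hx1
      · by_cases hxu : x = u'
        · rw [hxu]
          exact h3
        · exact hT x hx hxu hx2

/-- an edge of a path of length at least two does not join the two ends -/
private theorem sh_chord {V : Type} {G : SimpleGraph V} {u v : V} (p : G.Walk u v)
    (hp : p.IsPath) (h2 : 2 ≤ p.length) : s(u, v) ∉ p.edges := by
  cases p with
  | nil => simp at h2
  | @cons _ u' _ h p =>
    intro he
    rw [SimpleGraph.Walk.edges_cons, List.mem_cons] at he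
    obtain ⟨hp1, hp2⟩ := (SimpleGraph.Walk.cons_isPath_iff h p).1 hp
    rcases he with he | he
    · have hv : v = u' := by
        rcases Sym2.eq_iff.1 he with ⟨_, h5⟩ | ⟨h5, h6⟩
        · exact h5
        · exact absurd (h5 ▸ p.start_mem_support) hp2
      subst hv
      have := (SimpleGraph.Walk.isPath_iff_nil.1 hp1).length_eq_zero
      rw [SimpleGraph.Walk.length_cons, this] at h2
      omega
    · exact hp2 (p.fst_mem_support_of_mem_edges he)

private theorem sh_U {V P Q : Type} {D : HD V P Q} (hD : D.Ok) {a b : V} (W : D.N.Walk a b) :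
    a ∉ D.U → ∀ y ∈ W.support, y ∉ D.U := by
  induction W with
  | nil =>
    intro ha y hy
    simp only [SimpleGraph.Walk.support_nil, List.mem_singleton] at hy
    rw [hy]
    exact ha
  | @cons a a' b h W ih =>
    intro ha y hy
    rw [SimpleGraph.Walk.support_cons, List.mem_cons] at hy
    rcases hy with hy | hy
    · rw [hy]
      exact ha
    · exact ih (hD.N_U a' a h.symm) y hy

private theorem sh_adj {V : Type} {G : SimpleGraph V} {v : V} {Z : G.Walk v v}
    (hZ : Z.IsCycle) {x : V} (hx : x ∈ Z.support) : ∃ y, G.Adj x y := by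
  classical
  have h1 := hZ.rotate hx
  obtain ⟨Z1, hZ1⟩ : ∃ Z1, Z1 = Z.rotate x hx := ⟨_, rfl⟩
  rw [← hZ1] at h1
  cases Z1 with
  | nil => exact absurd rfl h1.ne_nil
  | cons h _ => exact ⟨_, h⟩

private theorem sh_num1 {C K K' Kh r L l T c s : ℕ} (hr : 1 ≤ r) (hKh : Kh ≤ C)
    (hL : L ≤ C * r) (hl : l ≤ K * L) (hs : s ≤ 2 * (l + 1) + Kh * r * c) (hc : c * r ≤ l + r)
    (hT : r ≤ T) (hK' : K' = 2 * (2 * (K * C + 1) + C * (K * C + 1) + 8 * (K * C))) :
    2 * (s + 8 * l) ≤ K' * T := by
  have h1 : l ≤ K * C * r := by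
    calc l ≤ K * L := hl
      _ ≤ K * (C * r) := Nat.mul_le_mul_left _ hL
      _ = K * C * r := by ring
  have h2 : Kh * r * c ≤ C * (K * C + 1) * r := by
    calc Kh * r * c = Kh * (c * r) := by ring
      _ ≤ C * (K * C * r + r) := Nat.mul_le_mul hKh (hc.trans (by omega))
      _ = C * (K * C + 1) * r := by ring
  have h3 : K' * r ≤ K' * T := Nat.mul_le_mul_left _ hT
  refine le_trans ?_ h3
  have h4 : K' * r = 20 * (K * C * r) + 2 * (C * (K * C + 1) * r) + 4 * r := by
    rw [hK']
    ring
  rw [h4]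
  omega

private theorem sh_num2 {C K K' Kh r L l l2 T c s s1 s2 : ℕ} (hr : 1 ≤ r) (hKh : Kh ≤ C)
    (hL : L ≤ C * r) (hl : l ≤ K * L) (hl2 : l2 ≤ L) (hs : s1 ≤ 2 * (l + 1) + Kh * r * c)
    (hc : c * r ≤ l + r) (hs2 : s2 ≤ 2 * (L + 1)) (hs3 : s ≤ s1 + s2) (hT : r ≤ T)
    (hK' : K' = 2 * (2 * (K * C + 1) + C * (K * C + 1) + 2 * (C + 1) + 8 * ((K + 1) * C))) :
    2 * (s + 8 * (l + l2)) ≤ K' * T := by
  have h1 : l ≤ K * C * r := by
    calc l ≤ K * L := hl
      _ ≤ K * (C * r) := Nat.mul_le_mul_left _ hL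
      _ = K * C * r := by ring
  have h2 : Kh * r * c ≤ C * (K * C + 1) * r := by
    calc Kh * r * c = Kh * (c * r) := by ring
      _ ≤ C * (K * C * r + r) := Nat.mul_le_mul hKh (hc.trans (by omega))
      _ = C * (K * C + 1) * r := by ring
  have h3 : K' * r ≤ K' * T := Nat.mul_le_mul_left _ hT
  refine le_trans ?_ h3
  have h4 : K' * r = 20 * (K * C * r) + 2 * (C * (K * C + 1) * r) + 8 * r + 20 * (C * r) := by
    rw [hK']
    ring
  rw [h4]
  omega

/-- **D8f (i)** -/
theorem short_cycle (C K : ℕ) : ∃ k : ℕ, ∀ (V P Q : Type) [Finite V] (D : HD V P Q),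
    D.Ok → GOk D → D.Kh ≤ C → D.L ≤ C * D.r →
    (∀ e ∈ D.G.edgeSet, KPl 1 (D.G.deleteEdges {e})) →
    ∀ v (Z : D.N.Walk v v), Z.IsCycle → Z.length ≤ K * D.L → KPl k D.G := by
  obtain ⟨K', hK'⟩ : ∃ K', K' = 2 * (2 * (K * C + 1) + C * (K * C + 1) + 8 * (K * C)) :=
    ⟨_, rfl⟩
  refine ⟨max 9 (2 * K'), ?_⟩
  intro V P Q _ D hD hG hKh hL hcrit v Z hZ hlen
  classical
  have hr : 1 ≤ D.r := by
    have := hD.r_pos
    omega
  have hZ' : (Z.mapLe hD.N_le).IsCycle := (SimpleGraph.Walk.isCycle_mapLe hD.N_le).2 hZ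
  obtain ⟨u, hu, b0, hb0, hub, hu3, hb3⟩ := hG.cyc v _ hZ'
  have hZ1 : ((Z.mapLe hD.N_le).rotate u hu).IsCycle := hZ'.rotate hu
  obtain ⟨Z1, hZ1e⟩ : ∃ Z1, Z1 = (Z.mapLe hD.N_le).rotate u hu := ⟨_, rfl⟩
  rw [← hZ1e] at hZ1
  have hl1 : Z1.length = Z.length := by
    rw [hZ1e, SimpleGraph.Walk.length_rotate, SimpleGraph.Walk.length_mapLe]
  have hs1 : ∀ y, y ∈ Z1.support → y ∈ Z.support := by
    intro y hy
    rw [hZ1e, SimpleGraph.Walk.mem_support_rotate_iff] at hy
    rw [SimpleGraph.Walk.support_mapLe_eq_support] at hy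
    exact hy
  have hb1 : b0 ∈ Z1.support := by
    rw [hZ1e, SimpleGraph.Walk.mem_support_rotate_iff]
    exact hb0
  have hp0 := hZ1.isPath_takeUntil hb1
  obtain ⟨b, T, R, e, hub', hb3', hT⟩ := sh_first (Z1.takeUntil b0 hb1) hp0 hub hb3
  have hW : Z1 = T.append (R.append (Z1.dropUntil b0 hb1)) := by
    conv_lhs => rw [← Z1.take_spec hb1, e]
    rw [SimpleGraph.Walk.append_assoc]
  obtain ⟨W, hWe⟩ : ∃ W, W = R.append (Z1.dropUntil b0 hb1) := ⟨_, rfl⟩
  rw [← hWe] at hW
  have hTp : T.IsPath := by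
    rw [e] at hp0
    exact hp0.of_append_left
  have hTn : ¬ T.Nil := SimpleGraph.Walk.not_nil_of_ne hub'
  have hWp : W.IsPath := by
    rw [hW] at hZ1
    exact hZ1.isPath_of_append_right hTn
  have hdis : ∀ f ∈ T.edges, f ∉ W.edges := by
    have h1 := hZ1.isTrail.edges_nodup
    rw [hW, SimpleGraph.Walk.edges_append] at h1
    intro f hf hf'
    exact (List.nodup_append.1 h1).2.2 f hf f hf' rfl
  have hlT : T.length + W.length = Z.length := by
    rw [← hl1, hW, SimpleGraph.Walk.length_append]
  have hvU : v ∉ D.U := by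
    cases Z with
    | nil => exact absurd rfl hZ.ne_nil
    | cons h _ => exact hD.N_U _ _ h
  have hdeg : ∀ y ∈ W.reverse.support, deg D.G y ≤ D.Kh * D.r := by
    intro y hy
    rw [SimpleGraph.Walk.support_reverse, List.mem_reverse] at hy
    apply hG.deg_le
    apply sh_U hD Z hvU
    apply hs1
    rw [hW, SimpleGraph.Walk.mem_support_append_iff]
    exact Or.inr hy
  have hT2 : ∀ x ∈ T.support, x ≠ u → x ≠ b → deg D.G x = 2 := by
    intro x hx h1 h2
    have h3 := hT x hx h1 h2
    have h4 := hG.deg_ne x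
    have h5 : deg D.G x ≠ 0 := by
      obtain ⟨y, hy⟩ : ∃ y, D.G.Adj x y := by
        have h6 : x ∈ (Z.mapLe hD.N_le).support := by
          rw [SimpleGraph.Walk.support_mapLe_eq_support]
          apply hs1
          rw [hW, SimpleGraph.Walk.mem_support_append_iff]
          exact Or.inl hx
        obtain ⟨y, hy⟩ := sh_adj hZ' h6
        exact ⟨y, hy⟩
      exact sh_pos hy
    omega
  have hlow := hG.low u b T hTp hub' hu3 hb3' hT2
  have hsum := sh_sum D.G W.reverse (D.Kh * D.r) hdeg
  have hcnt := sh_cnt D.G D.r hG.deg_ne hG.low W.reverse hWp.reverse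
  rw [SimpleGraph.Walk.length_reverse] at hsum hcnt
  refine insert_walk D.G hcrit hub' T W.reverse hTp hT2 ?_ W.reverse.support.toFinset ?_ K' ?_
  · intro f hf hf'
    rw [SimpleGraph.Walk.edges_reverse, List.mem_reverse] at hf'
    exact hdis f hf hf'
  · intro y hy _ _
    exact List.mem_toFinset.2 hy
  · rw [SimpleGraph.Walk.length_reverse]
    exact sh_num1 hr hKh hL (by omega) hsum hcnt hlow hK'

/-- **D8f (ii)** -/
theorem near_pins (C K : ℕ) : ∃ k : ℕ, ∀ (V P Q : Type) [Finite V] (D : HD V P Q),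
    D.Ok → GOk D → D.Kh ≤ C → D.L ≤ C * D.r →
    (∀ e ∈ D.G.edgeSet, KPl 1 (D.G.deleteEdges {e})) →
    ∀ p p', p ≠ p' → D.hub p = D.hub p' → ∀ t, Nr D.N t (D.x p) (D.x p') → t ≤ K * D.L →
    KPl k D.G := by
  obtain ⟨K', hK'⟩ : ∃ K', K' = 2 * (2 * (K * C + 1) + C * (K * C + 1) + 2 * (C + 1) +
      8 * ((K + 1) * C)) := ⟨_, rfl⟩
  refine ⟨max 9 (2 * K'), ?_⟩
  intro V P Q _ D hD hG hKh hL hcrit p p' hpp hhub t ht htK
  classical
  have hr2 := hD.r_pos
  have hr : 1 ≤ D.r := by omega
  obtain ⟨π0, hπ0⟩ := ht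
  obtain ⟨π, hπe⟩ : ∃ π, π = π0.bypass.mapLe hD.N_le := ⟨_, rfl⟩
  have hπp : π.IsPath := by
    rw [hπe]
    exact (SimpleGraph.Walk.isPath_mapLe hD.N_le).2 π0.bypass_isPath
  have hπl : π.length ≤ t := by
    rw [hπe, SimpleGraph.Walk.length_mapLe]
    exact π0.length_bypass_le_length.trans hπ0
  have hπN : ∀ f ∈ π.edges, f ∈ D.N.edgeSet := by
    intro f hf
    rw [hπe, SimpleGraph.Walk.edges_mapLe_eq_edges] at hf
    exact SimpleGraph.Walk.edges_subset_edgeSet _ hf
  have hπU : ∀ y ∈ π.support, deg D.G y ≤ D.Kh * D.r := by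
    intro y hy
    rw [hπe, SimpleGraph.Walk.support_mapLe_eq_support] at hy
    exact hG.deg_le y (sh_U hD π0.bypass (hD.x_U p) y hy)
  obtain ⟨w', hw'⟩ : ∃ w' : D.G.Walk (D.x p') (D.hub p), w' = (D.w p').copy rfl hhub.symm :=
    ⟨_, rfl⟩
  have hws : w'.support = (D.w p').support := by rw [hw', SimpleGraph.Walk.support_copy]
  have hwe : w'.edges = (D.w p').edges := by rw [hw', SimpleGraph.Walk.edges_copy]
  have hwl : w'.length = (D.w p').length := by rw [hw', SimpleGraph.Walk.length_copy]
  have hne : D.x p ≠ D.hub p := fun h => hD.x_U p (h ▸ hD.hub_U p)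
  have hTl : 2 ≤ (D.w p).length := hr2.trans (hD.w_ge p)
  have hsum := sh_sum D.G π (D.Kh * D.r) hπU
  have hcnt := sh_cnt D.G D.r hG.deg_ne hG.low π hπp
  obtain ⟨S2, hS2⟩ : ∃ S2, S2 = (D.w p').support.toFinset.filter
      (fun z => z ≠ D.x p' ∧ z ≠ D.hub p') := ⟨_, rfl⟩
  have hsum2 : ∑ y ∈ S2, deg D.G y ≤ 2 * (D.L + 1) := by
    have h1 : ∑ y ∈ S2, deg D.G y ≤ ∑ y ∈ S2, 2 := by
      refine Finset.sum_le_sum fun y hy => ?_
      rw [hS2, Finset.mem_filter, List.mem_toFinset] at hy
      exact (hG.w_deg p' y hy.1 hy.2.1 hy.2.2).le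
    have h2 : S2.card ≤ D.L + 1 := by
      rw [hS2]
      refine (Finset.card_le_card (Finset.filter_subset _ _)).trans ?_
      refine (List.toFinset_card_le _).trans ?_
      rw [SimpleGraph.Walk.length_support]
      exact Nat.add_le_add_right (hD.w_le p') 1
    rw [Finset.sum_const, smul_eq_mul] at h1
    omega
  refine insert_walk D.G hcrit hne (D.w p) (π.append w') (hD.w_path p) ?_ ?_
    (π.support.toFinset ∪ S2) ?_ K' ?_
  · intro z hz h1 h2
    exact hG.w_deg p z hz h1 h2
  · intro f hf hf'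
    rw [SimpleGraph.Walk.edges_append, List.mem_append] at hf'
    induction f using Sym2.ind with
    | _ a b =>
      have hab : D.G.Adj a b := SimpleGraph.Walk.edges_subset_edgeSet _ hf
      have ha := SimpleGraph.Walk.fst_mem_support_of_mem_edges _ hf
      have hb := SimpleGraph.Walk.snd_mem_support_of_mem_edges _ hf
      rcases hf' with hf' | hf'
      · have hN : D.N.Adj a b := hπN _ hf'
        by_cases hax : a = D.x p
        · have hbx : b ≠ D.x p := fun h => hab.ne (hax.trans h.symm)
          exact hD.w_N p b hb hbx (Or.inl (sh_pos hN.symm))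
        · exact hD.w_N p a ha hax (Or.inl (sh_pos hN))
      · rw [hwe] at hf'
        have ha' := SimpleGraph.Walk.fst_mem_support_of_mem_edges _ hf'
        have hb' := SimpleGraph.Walk.snd_mem_support_of_mem_edges _ hf'
        have key : ∀ z, z ∈ (D.w p).support → z ∈ (D.w p').support →
            z = D.x p ∨ z = D.hub p := by
          intro z h1 h2
          by_contra h3
          push Not at h3
          exact hpp (hD.w_disj p p' z h1 h2 h3.1 h3.2)
        have hch := sh_chord (D.w p) (hD.w_path p) hTl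
        rcases key a ha ha' with h1 | h1 <;> rcases key b hb hb' with h2 | h2
        · exact hab.ne (h1.trans h2.symm)
        · rw [h1, h2] at hf
          exact hch hf
        · rw [h1, h2, Sym2.eq_swap] at hf
          exact hch hf
        · exact hab.ne (h1.trans h2.symm)
  · intro y hy h1 h2
    rw [Finset.mem_union, List.mem_toFinset]
    rw [SimpleGraph.Walk.mem_support_append_iff, hws] at hy
    rcases hy with hy | hy
    · exact Or.inl hy
    · by_cases hyx : y = D.x p'
      · left
        rw [hyx]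
        exact π.end_mem_support
      · right
        rw [hS2, Finset.mem_filter, List.mem_toFinset]
        exact ⟨hy, hyx, fun h => h2 (h.trans hhub.symm)⟩
  · rw [SimpleGraph.Walk.length_append, hwl]
    have h1 : ∑ y ∈ π.support.toFinset ∪ S2, deg D.G y ≤
        ∑ y ∈ π.support.toFinset, deg D.G y + ∑ y ∈ S2, deg D.G y := by
      rw [← Finset.sum_union_inter]
      exact Nat.le_add_right _ _
    exact sh_num2 hr hKh hL (hπl.trans htK) (hD.w_le p') hsum hcnt hsum2 h1 (hD.w_ge p) hK'

/-- **D8f (iii)** -/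
theorem parallel (C : ℕ) : ∃ k : ℕ, ∀ (V P Q : Type) [Finite V] (D : HD V P Q),
    D.Ok → GOk D → D.L ≤ C * D.r → (∀ e ∈ D.G.edgeSet, KPl 1 (D.G.deleteEdges {e})) →
    ∀ q q', q ≠ q' → ((D.ha q = D.ha q' ∧ D.hb q = D.hb q') ∨
      (D.ha q = D.hb q' ∧ D.hb q = D.ha q')) → KPl k D.G := by
  obtain ⟨K', hK'⟩ : ∃ K', K' = 2 * (2 * (C + 1) + 8 * C) := ⟨_, rfl⟩
  refine ⟨max 9 (2 * K'), ?_⟩
  intro V P Q _ D hD hG hL hcrit q q' hqq hor
  classical
  have hr2 := hD.r_pos
  have hr : 1 ≤ D.r := by omega
  have hTl : 2 ≤ (D.wq q).length := hr2.trans (hG.wq_ge q)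
  obtain ⟨W, hWs, hWe, hWl⟩ : ∃ W : D.G.Walk (D.ha q) (D.hb q),
      (∀ y, y ∈ W.support → y ∈ (D.wq q').support) ∧
      (∀ f, f ∈ W.edges → f ∈ (D.wq q').edges) ∧ W.length = (D.wq q').length := by
    rcases hor with ⟨h1, h2⟩ | ⟨h1, h2⟩
    · refine ⟨(D.wq q').copy h1.symm h2.symm, ?_, ?_, ?_⟩
      · intro y hy
        rw [SimpleGraph.Walk.support_copy] at hy
        exact hy
      · intro f hf
        rw [SimpleGraph.Walk.edges_copy] at hf
        exact hf
      · rw [SimpleGraph.Walk.length_copy]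
    · refine ⟨(D.wq q').reverse.copy h1.symm h2.symm, ?_, ?_, ?_⟩
      · intro y hy
        rw [SimpleGraph.Walk.support_copy, SimpleGraph.Walk.support_reverse,
          List.mem_reverse] at hy
        exact hy
      · intro f hf
        rw [SimpleGraph.Walk.edges_copy, SimpleGraph.Walk.edges_reverse, List.mem_reverse] at hf
        exact hf
      · rw [SimpleGraph.Walk.length_copy, SimpleGraph.Walk.length_reverse]
  have hends : ∀ z, z ≠ D.ha q → z ≠ D.hb q → z ≠ D.ha q' ∧ z ≠ D.hb q' := by
    intro z h1 h2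
    rcases hor with ⟨h3, h4⟩ | ⟨h3, h4⟩
    · exact ⟨fun h => h1 (h.trans h3.symm), fun h => h2 (h.trans h4.symm)⟩
    · exact ⟨fun h => h2 (h.trans h4.symm), fun h => h1 (h.trans h3.symm)⟩
  refine insert_walk D.G hcrit (hD.q_ne q) (D.wq q) W (hD.wq_path q) ?_ ?_
    (W.support.toFinset.filter (fun z => z ≠ D.ha q ∧ z ≠ D.hb q)) ?_ K' ?_
  · intro z hz h1 h2
    exact hG.wq_deg q z hz h1 h2
  · intro f hf hf'
    induction f using Sym2.ind with
    | _ a b =>
      have hab : D.G.Adj a b := SimpleGraph.Walk.edges_subset_edgeSet _ hf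
      have ha := SimpleGraph.Walk.fst_mem_support_of_mem_edges _ hf
      have hb := SimpleGraph.Walk.snd_mem_support_of_mem_edges _ hf
      have ha' := hWs _ (SimpleGraph.Walk.fst_mem_support_of_mem_edges _ hf')
      have hb' := hWs _ (SimpleGraph.Walk.snd_mem_support_of_mem_edges _ hf')
      have key : ∀ z, z ∈ (D.wq q).support → z ∈ (D.wq q').support →
          z = D.ha q ∨ z = D.hb q := by
        intro z h1 h2
        by_contra h3
        push Not at h3
        exact hqq (hD.wq_disj q q' z h1 h2 (hD.wq_U q z h1 h3.1 h3.2))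
      have hch := sh_chord (D.wq q) (hD.wq_path q) hTl
      rcases key a ha ha' with h1 | h1 <;> rcases key b hb hb' with h2 | h2
      · exact hab.ne (h1.trans h2.symm)
      · rw [h1, h2] at hf
        exact hch hf
      · rw [h1, h2, Sym2.eq_swap] at hf
        exact hch hf
      · exact hab.ne (h1.trans h2.symm)
  · intro y hy h1 h2
    rw [Finset.mem_filter, List.mem_toFinset]
    exact ⟨hy, h1, h2⟩
  · have h1 : ∑ y ∈ W.support.toFinset.filter (fun z => z ≠ D.ha q ∧ z ≠ D.hb q),
        deg D.G y ≤ ∑ y ∈ W.support.toFinset.filter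
          (fun z => z ≠ D.ha q ∧ z ≠ D.hb q), 2 := by
      refine Finset.sum_le_sum fun y hy => ?_
      rw [Finset.mem_filter, List.mem_toFinset] at hy
      obtain ⟨h2, h3⟩ := hends y hy.2.1 hy.2.2
      exact (hG.wq_deg q' y (hWs y hy.1) h2 h3).le
    have h2 : (W.support.toFinset.filter (fun z => z ≠ D.ha q ∧ z ≠ D.hb q)).card ≤
        D.L + 1 := by
      refine (Finset.card_le_card (Finset.filter_subset _ _)).trans ?_
      refine (List.toFinset_card_le _).trans ?_
      rw [SimpleGraph.Walk.length_support, hWl]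
      exact Nat.add_le_add_right (hD.wq_le q') 1
    rw [Finset.sum_const, smul_eq_mul] at h1
    have h3 : W.length ≤ D.L := hWl ▸ hD.wq_le q'
    have h4 := hG.wq_ge q
    rw [hK']
    have h5 : 2 * (2 * (C + 1) + 8 * C) * D.r ≤ 2 * (2 * (C + 1) + 8 * C) * (D.wq q).length :=
      Nat.mul_le_mul_left _ h4
    refine le_trans ?_ h5
    have h6 : 2 * (2 * (C + 1) + 8 * C) * D.r = 20 * (C * D.r) + 4 * D.r := by ring
    rw [h6]
    omega

end Pool.Agent.Helper95.HH
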