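import Pool.Agent.Helper93.HH.Basic

/-!
# HH/Sparse: all cycles are long compared to Rs (MP_0dbcb7_co, theorem (H))

D9a. From E0, E1 with `K = 1024 (κ + 1)`: `κ (Rs y + L) < |Z|` for every cycle `Z` of `N` and every `y` on `Z`.
Proof (helper63, simplified by helper70). Induction on the length of `Z`. Suppose `|Z| ≤ κ (R + L)` with `R = Rs y`; then
`κ ≥ 1`, and by E0 `R ≥ 1023 L`, `|Z| > 1024 L`. Let `ρ = min R |Z| / 256 ≥ L`, and let `z 0 = y`, `z 1`, ... be the
vertices of `Z`. If one of `z i`, `i = 0, 2 ρ + 1, 4 ρ + 2`, has no foot within `ρ` then the ball of radius `ρ` at this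
vertex is free and E1 gives `1024 (κ + 1) ρ < |Z|`, a contradiction. Otherwise two of these three vertices are within `ρ`
of the same foot (there are at most two feet within `R - 1` of `y`), and the arc of `Z` and a path of length at most
`2 ρ` are two different paths with the same ends. They contain a cycle of length at most `8 ρ`, with a vertex `w` within
`8 ρ` of `y`, so `8 ρ ≤ R - 8 ρ ≤ Rs w`, against the induction hypothesis.
-/

set_option autoImplicit false

open Set
open Pool.Agent.Helper83.OP Pool.Agent.Helper93.HH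

namespace Pool.Agent.Helper95.HH

/-- two different paths with the same ends contain a cycle -/
private theorem exists_cyc {V : Type} {G : SimpleGraph V} {u v : V} (p q : G.Walk u v)
    (hp : p.IsPath) (hq : q.IsPath) (hne : p ≠ q) :
    ∃ (w : V) (Z : G.Walk w w), Z.IsCycle ∧ Z.length ≤ p.length + q.length ∧
      (w ∈ p.support ∨ w ∈ q.support) := by
  classical
  let H : SimpleGraph V := SimpleGraph.fromEdgeSet {e | e ∈ p.edges ∨ e ∈ q.edges}
  have hH : ∀ e, e ∈ H.edgeSet → e ∈ p.edges ∨ e ∈ q.edges := by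
    intro e he
    rw [SimpleGraph.edgeSet_fromEdgeSet] at he
    exact he.1
  have hHp : ∀ e ∈ p.edges, e ∈ H.edgeSet := by
    intro e he
    rw [SimpleGraph.edgeSet_fromEdgeSet]
    exact ⟨Or.inl he, SimpleGraph.not_isDiag_of_mem_edgeSet _ (p.edges_subset_edgeSet he)⟩
  have hHq : ∀ e ∈ q.edges, e ∈ H.edgeSet := by
    intro e he
    rw [SimpleGraph.edgeSet_fromEdgeSet]
    exact ⟨Or.inr he, SimpleGraph.not_isDiag_of_mem_edgeSet _ (q.edges_subset_edgeSet he)⟩
  have hcyc : ¬ H.IsAcyclic := by
    intro hac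
    have h1 := (hac.subsingleton_path u v).elim ⟨p.transfer H hHp, hp.transfer hHp⟩
      ⟨q.transfer H hHq, hq.transfer hHq⟩
    have h2 : p.transfer H hHp = q.transfer H hHq := congrArg Subtype.val h1
    refine hne (SimpleGraph.Walk.ext_support ?_)
    rw [← SimpleGraph.Walk.support_transfer p hHp, ← SimpleGraph.Walk.support_transfer q hHq, h2]
  unfold SimpleGraph.IsAcyclic at hcyc
  push Not at hcyc
  obtain ⟨w, c, hc⟩ := hcyc
  have hcG : ∀ e ∈ c.edges, e ∈ G.edgeSet := by
    intro e he
    rcases hH e (c.edges_subset_edgeSet he) with h | h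
    · exact p.edges_subset_edgeSet h
    · exact q.edges_subset_edgeSet h
  refine ⟨w, c.transfer G hcG, hc.transfer hcG, ?_, ?_⟩
  · rw [SimpleGraph.Walk.length_transfer, ← SimpleGraph.Walk.length_edges,
      ← SimpleGraph.Walk.length_edges, ← SimpleGraph.Walk.length_edges, ← List.length_append]
    refine (List.subperm_of_subset hc.isCircuit.isTrail.edges_nodup ?_).length_le
    intro e he
    rw [List.mem_append]
    exact hH e (c.edges_subset_edgeSet he)
  · have h1 : w ∈ c.support := c.start_mem_support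
    rw [SimpleGraph.Walk.mem_support_iff_exists_mem_edges_of_not_nil hc.not_nil] at h1
    obtain ⟨e, he, hwe⟩ := h1
    rcases hH e (c.edges_subset_edgeSet he) with h | h
    · exact Or.inl (SimpleGraph.Walk.mem_support_of_mem_edges h hwe)
    · exact Or.inr (SimpleGraph.Walk.mem_support_of_mem_edges h hwe)

/-- two vertices of a cycle which are far along the cycle but near to `f` -/
private theorem short_cyc {V : Type} {N : SimpleGraph V} {y f : V} (C : N.Walk y y)
    (hC : C.IsCycle) {i j ρ : ℕ} (hij : i + 2 * ρ < j) (hj : j < C.length)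
    (h1 : Nr N ρ (C.getVert i) f) (h2 : Nr N ρ (C.getVert j) f) :
    ∃ (w : V) (Z : N.Walk w w), Z.IsCycle ∧ Z.length ≤ j + 2 * ρ ∧ Nr N (j + 2 * ρ) y w := by
  classical
  have h3 : (C.take j).getVert i = C.getVert i := by
    rw [SimpleGraph.Walk.take_getVert, min_eq_right (by omega)]
  have hpj : (C.take j).IsPath := hC.isPath_take hj
  have hlj : (C.take j).length = j := by
    rw [SimpleGraph.Walk.take_length, min_eq_left hj.le]
  obtain ⟨q0, hq0⟩ := h1.trans h2.symm
  let p : N.Walk (C.getVert i) (C.getVert j) := ((C.take j).drop i).copy h3 rfl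
  have hp : p.IsPath := by
    rw [SimpleGraph.Walk.isPath_copy]
    exact hpj.drop i
  have hlp : p.length = j - i := by
    rw [SimpleGraph.Walk.length_copy, SimpleGraph.Walk.drop_length, hlj]
  have hlq : q0.bypass.length ≤ 2 * ρ := by
    have := q0.length_bypass_le_length
    omega
  obtain ⟨w, Z, hZ, hZl, hw⟩ := exists_cyc p q0.bypass hp q0.bypass_isPath (by
    intro h
    rw [h] at hlp
    omega)
  refine ⟨w, Z, hZ, by omega, ?_⟩
  rcases hw with hw | hw
  · have h4 : w ∈ (C.take j).support := by
      rw [SimpleGraph.Walk.support_copy, SimpleGraph.Walk.drop_support_eq_support_drop_min] at hw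
      exact List.mem_of_mem_drop hw
    have h5 := Nr.of_mem h4
    exact h5.mono (by omega)
  · have h4 : Nr N (2 * ρ) (C.getVert i) w := (Nr.of_mem hw).mono hlq
    have h5 : Nr N i y (C.getVert i) := ⟨C.take i, by
      rw [SimpleGraph.Walk.take_length]
      exact min_le_left _ _⟩
    exact (h5.trans h4).mono (by omega)

/-- **D9a** -/
theorem sparse {V P Q : Type} [Finite V] [Finite P] (D : HD V P Q) (hD : D.Ok) (κ : ℕ)
    (he0 : ∀ v (Z : D.N.Walk v v), Z.IsCycle → 1024 * (κ + 1) * D.L < Z.length)
    (he1 : ∀ v (Z : D.N.Walk v v), Z.IsCycle → ∀ y ∈ Z.support, ∀ ρ, D.L ≤ ρ → D.Free ρ y →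
      1024 * (κ + 1) * ρ < Z.length) :
    ∀ v (Z : D.N.Walk v v), Z.IsCycle → ∀ y ∈ Z.support, κ * (D.Rs y + D.L) < Z.length := by
  classical
  have key : ∀ (n : ℕ) v (Z : D.N.Walk v v), Z.IsCycle → Z.length = n → ∀ y ∈ Z.support,
      κ * (D.Rs y + D.L) < Z.length := by
    intro n
    induction n using Nat.strong_induction_on with
    | _ n ih =>
    intro v Z hZ hn y hy
    by_contra hcon
    rw [not_lt] at hcon
    have hZ3 := hZ.three_le_length
    have hκ : 1 ≤ κ := by
      rcases Nat.eq_zero_or_pos κ with h | h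
      · rw [h, zero_mul] at hcon
        omega
      · exact h
    have h0 := he0 v Z hZ
    have hL2 : 2 ≤ D.L := hD.r_pos.trans hD.r_le
    obtain ⟨R, hR⟩ : ∃ R, D.Rs y = R := ⟨_, rfl⟩
    rw [hR] at hcon
    -- `R` is large
    have hRL : 1023 * D.L < R := by
      by_contra hlt
      rw [not_lt] at hlt
      have h1 : κ * (R + D.L) ≤ κ * (1024 * D.L) := Nat.mul_le_mul_left _ (by omega)
      have h2 : κ * (1024 * D.L) ≤ 1024 * (κ + 1) * D.L := by nlinarith
      omega
    have hZL : 1024 * D.L < Z.length := by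
      have h2 : 1024 * D.L ≤ 1024 * (κ + 1) * D.L := by nlinarith
      omega
    obtain ⟨ρ, hρ⟩ : ∃ ρ, ρ = min R Z.length / 256 := ⟨_, rfl⟩
    have hρR : 256 * ρ ≤ R := by
      have := Nat.div_mul_le_self (min R Z.length) 256
      have := min_le_left R Z.length
      omega
    have hρZ : 256 * ρ ≤ Z.length := by
      have := Nat.div_mul_le_self (min R Z.length) 256
      have := min_le_right R Z.length
      omega
    have hρL : D.L ≤ ρ := by
      rw [hρ, Nat.le_div_iff_mul_le (by norm_num)]
      exact le_min (by omega) (by omega)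
    have hρ2 : min R Z.length < 256 * (ρ + 1) := by
      rw [hρ]
      exact Nat.lt_mul_div_succ _ (by norm_num)
    -- the cycle from `y`
    let C : D.N.Walk y y := Z.rotate y hy
    have hC : C.IsCycle := hZ.rotate hy
    have hCl : C.length = Z.length := SimpleGraph.Walk.length_rotate ..
    have hNr : ∀ i, Nr D.N i y (C.getVert i) := fun i => ⟨C.take i, by
      rw [SimpleGraph.Walk.take_length]
      exact min_le_left _ _⟩
    -- a vertex without feet
    have hfree : ∀ i ≤ 4 * ρ + 2, ∃ p, Nr D.N ρ (C.getVert i) (D.x p) := by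
      intro i hi
      by_contra hno
      push Not at hno
      have hmem : C.getVert i ∈ Z.support := by
        rw [← SimpleGraph.Walk.mem_support_rotate_iff Z y hy]
        exact C.getVert_mem_support i
      have hRv : i + ρ < D.Rv y := by
        have := D.Rs_le_Rv y
        omega
      have h1 := he1 v Z hZ _ hmem ρ hρL (D.free_of (hNr i) hRv hno)
      rcases le_total R Z.length with h | h
      · rw [min_eq_left h] at hρ2
        have h2 : κ * (R + D.L) ≤ κ * (2 * R) := Nat.mul_le_mul_left _ (by omega)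
        have h3 : R ≤ 512 * ρ := by omega
        have h4 : κ * (2 * R) ≤ κ * (1024 * ρ) := Nat.mul_le_mul_left _ (by omega)
        have h5 : κ * (1024 * ρ) ≤ 1024 * (κ + 1) * ρ := by nlinarith
        omega
      · rw [min_eq_right h] at hρ2
        have h3 : 1024 * ρ ≤ 1024 * (κ + 1) * ρ := by nlinarith
        omega
    -- no two vertices have the same foot
    have hsame : ∀ i j, i + 2 * ρ < j → j ≤ 4 * ρ + 2 → ∀ p, Nr D.N ρ (C.getVert i) (D.x p) →
        ¬ Nr D.N ρ (C.getVert j) (D.x p) := by
      intro i j hij hj p h1 h2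
      obtain ⟨w, Z', hZ', hl, hw⟩ := short_cyc C hC hij (by omega) h1 h2
      have h3 := D.Rs_lip hw
      rw [hR] at h3
      have h4 := ih Z'.length (by omega) w Z' hZ' rfl w Z'.start_mem_support
      have h5 : 1 * (D.Rs w + D.L) ≤ κ * (D.Rs w + D.L) := Nat.mul_le_mul_right _ hκ
      omega
    obtain ⟨p0, hp0⟩ := hfree 0 (by omega)
    obtain ⟨p1, hp1⟩ := hfree (2 * ρ + 1) (by omega)
    obtain ⟨p2, hp2⟩ := hfree (4 * ρ + 2) le_rfl
    have h01 : p0 ≠ p1 := by
      rintro rfl
      exact hsame 0 (2 * ρ + 1) (by omega) (by omega) p0 hp0 hp1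
    have h02 : p0 ≠ p2 := by
      rintro rfl
      exact hsame 0 (4 * ρ + 2) (by omega) (by omega) p0 hp0 hp2
    have h12 : p1 ≠ p2 := by
      rintro rfl
      exact hsame (2 * ρ + 1) (4 * ρ + 2) (by omega) (by omega) p1 hp1 hp2
    have h3 := D.sg_three (y := y) (t := 5 * ρ + 2) h01 h02 h12
      (((hNr 0).trans hp0).mono (by omega)) (((hNr _).trans hp1).mono (by omega))
      (((hNr _).trans hp2).mono (by omega))
    have h4 := D.Rs_le_sg y
    omega
  intro v Z hZ y hy
  exact key _ v Z hZ rfl y hy

end Pool.Agent.Helper95.HH
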