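import Pool.Agent.Helper95.HH.P1
import Pool.Agent.Helper95.HH.P2
import Pool.Agent.Helper95.HH.P3
import Pool.Agent.Helper95.HH.P4
import Pool.Agent.Helper95.HH.Short
import Pool.Agent.Helper95.HH.Sparse
import Pool.Agent.Helper95.UP.Assemble

/-!
# HH/NoPl: a critical graph that is not k-planar has no places (drawing half of theorem (H), MP_0dbcb7_co)

D9b. Assembly: `place_e1` with `K1 = K + 1024 * 65`, `short_cycle` with `K0 = 64 * (K1 + 1) + 1024 * 65`, then `sparse` with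
`κ = 64`, and `near_pins`, `parallel`, `place_e2'`, `place_e3`, `place_e4` with `K`; `k` = the maximum of the seven constants
(`KPl` is monotone in `k`: `Helper71/PV` `kpl_le`, or `OP.Mono`).
-/

set_option autoImplicit false

open Set
open Pool.Agent.Helper83.OP Pool.Agent.Helper93.HH

namespace Pool.Agent.Helper95.HH

/-- **D9b** -/
theorem noPl_of_crit (C K : ℕ) : ∃ k : ℕ, ∀ (V P Q : Type) [Finite V] [Finite P]
    (D : HD V P Q), D.Ok → GOk D → D.Kh ≤ C → D.L ≤ C * D.r →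
    (∀ e ∈ D.G.edgeSet, KPl 1 (D.G.deleteEdges {e})) → ¬ KPl k D.G → D.NoPl K := by
  obtain ⟨k1, h1⟩ := place_e1 C (K + 1024 * 65)
  obtain ⟨k0, h0⟩ := short_cycle C (64 * (K + 1024 * 65 + 1) + 1024 * 65)
  obtain ⟨k2, h2⟩ := near_pins C K
  obtain ⟨k2', h2'⟩ := place_e2' C K
  obtain ⟨k3, h3⟩ := place_e3 C K
  obtain ⟨k4, h4⟩ := place_e4 C K
  obtain ⟨k5, h5⟩ := parallel C
  refine ⟨k0 + k1 + k2 + k2' + k3 + k4 + k5, ?_⟩
  intro V P Q _ _ D hD hG hKh hL hcr hk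
  have up : ∀ k', k' ≤ k0 + k1 + k2 + k2' + k3 + k4 + k5 → ¬ KPl k' D.G := fun k' hk' h =>
    hk (Pool.Agent.Helper95.UP.kpl_le h hk')
  have c0 : ∀ v (Z : D.N.Walk v v), Z.IsCycle →
      (64 * (K + 1024 * 65 + 1) + 1024 * 65) * D.L < Z.length := by
    intro v Z hZ
    by_contra hc
    exact up k0 (by omega) (h0 V P Q D hD hG hKh hL hcr v Z hZ (not_lt.1 hc))
  have c1 : ∀ v (Z : D.N.Walk v v), Z.IsCycle → ∀ y ∈ Z.support, ∀ ρ, D.L ≤ ρ → D.Free ρ y →
      (K + 1024 * 65) * ρ < Z.length := by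
    intro v Z hZ y hy ρ hρ hf
    by_contra hc
    refine up k1 (by omega) (h1 V P Q D hD hG hKh hcr (fun v' Z' hZ' => ?_) v Z hZ y hy ρ hρ hf
      (not_lt.1 hc))
    exact lt_of_le_of_lt (Nat.mul_le_mul_right _ (by omega)) (c0 v' Z' hZ')
  have c0' : ∀ v (Z : D.N.Walk v v), Z.IsCycle → 1024 * (64 + 1) * D.L < Z.length := by
    intro v Z hZ
    exact lt_of_le_of_lt (Nat.mul_le_mul_right _ (by omega)) (c0 v Z hZ)
  have c1' : ∀ v (Z : D.N.Walk v v), Z.IsCycle → ∀ y ∈ Z.support, ∀ ρ, D.L ≤ ρ → D.Free ρ y →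
      1024 * (64 + 1) * ρ < Z.length := by
    intro v Z hZ y hy ρ hρ hf
    exact lt_of_le_of_lt (Nat.mul_le_mul_right _ (by omega)) (c1 v Z hZ y hy ρ hρ hf)
  have cs := sparse D hD 64 c0' c1'
  refine ⟨?_, ?_, ?_, ?_, ?_, ?_, ?_⟩
  · intro v Z hZ
    exact lt_of_le_of_lt (Nat.mul_le_mul_right _ (by omega)) (c0 v Z hZ)
  · intro v Z hZ y hy ρ hρ hf
    exact lt_of_le_of_lt (Nat.mul_le_mul_right _ (by omega)) (c1 v Z hZ y hy ρ hρ hf)
  · intro p p' hne hh t ht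
    by_contra hc
    exact up k2 (by omega) (h2 V P Q D hD hG hKh hL hcr p p' hne hh t ht (not_lt.1 hc))
  · intro p p' hne hh t ht ρ hρ hq hv
    by_contra hc
    refine up k2' (by omega) (h2' V P Q D hD hG hKh hL hcr (fun v Z hZ y hy => ?_) p p' hne hh t
      ht ρ hρ hq hv (not_lt.1 hc))
    exact lt_of_le_of_lt (Nat.mul_le_mul_right _ (by omega)) (cs v Z hZ y hy)
  · intro p p' q q' hne hq hq' hh hh' hne' g g' t hg hg' hs ht ρ hρ h4g hf hv
    by_contra hc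
    exact up k3 (by omega) (h3 V P Q D hD hG hKh hL hcr cs p p' q q' hne hq hq' hh hh' hne' g g'
      t hg hg' hs ht ρ hρ h4g hf hv (not_lt.1 hc))
  · intro p p' hne hh W hW y hy ρ hρ hf
    by_contra hc
    refine up k4 (by omega) (h4 V P Q D hD hG hKh hL hcr (fun v Z hZ => ⟨?_, ?_⟩) p p' hne hh W hW
      y hy ρ hρ hf (not_lt.1 hc))
    · exact lt_of_le_of_lt (Nat.mul_le_mul_right _ (by omega)) (c0 v Z hZ)
    · intro y' hy' ρ' hρ' hf'
      exact lt_of_le_of_lt (Nat.mul_le_mul_right _ (by omega)) (c1 v Z hZ y' hy' ρ' hρ' hf')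
  · intro q q' hne
    by_contra hc
    refine up k5 (by omega) (h5 V P Q D hD hG hL hcr q q' hne ?_)
    by_contra hd
    exact hc ⟨fun h => hd (Or.inl h), fun h => hd (Or.inr h)⟩

end Pool.Agent.Helper95.HH
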