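import Pool.Agent.Helper95.HH.VolCmp
import Pool.Agent.Helper95.HH.SU

/-!
# HH/P1: the place E1 (drawing half of theorem (H), MP_0dbcb7_co)

D8b. A cycle `Z` of `N` and a free ball of radius `ρ ≥ L` at a vertex `y` of `Z` with `|Z| ≤ K ρ`, and all cycles of `N`
longer than `64 (K + 1) L`. Take `(Z, y, ρ)` with `|Z|` minimal, `e` the edge of `Z` at `y` (`u = y`, `v` the other end),
`ρ₁ = min ρ |Z| / 16` (at least `1`) and apply `place_SU`: the ball of radius `ρ₁` in `outG` is in `N` and free of pins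
(`nr_out`), volume by `vol_cmp` (`3 n0 = 12 Kh r`); a cycle of length at most `2 ρ₁ + 1 < |Z|` through a vertex `z` of the
ball would have the free ball of radius `ρ - ρ₁ ≥ ρ / 2 ≥ L` at `z` (`ρ ≥ |Z| / K > 64 L`), against the minimality (or, if
`2 ρ₁ + 1 > K (ρ - ρ₁)`, `K = 0`: no cycle at all); the same for `v` in the ball; `P` = the rest of the cycle, no hub on it.
-/

set_option autoImplicit false

open Set
open Pool.Agent.Helper83.OP Pool.Agent.Helper93.HH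

namespace Pool.Agent.Helper95.HH

private theorem edge_N {V P Q : Type} [Finite V] (D : HD V P Q) (hD : D.Ok) (hG : GOk D)
    (e : Sym2 V) {y a b : V} {ρ t : ℕ} (hy : y ∈ D.VN) (hfree : ∀ p, ¬ Nr D.N ρ y (D.x p))
    (ht : t ≤ ρ) (h : Nr (outG D.G D.U e) t y a) (hab : (outG D.G D.U e).Adj a b) :
    D.N.Adj a b := by
  obtain ⟨h1, h2⟩ := nr_out D hD hG e y a t hy (fun p hp => hfree p (hp.mono ht)) h
  rcases adj_cases D hD hG a b h1 hab.1 with h3 | ⟨s, h3, -⟩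
  · exact h3
  · exact absurd (h3 ▸ h2.mono ht) (hfree s)

/-- a walk of `outG` near `y` is a walk of `N` -/
private theorem walk_N {V P Q : Type} [Finite V] (D : HD V P Q) (hD : D.Ok) (hG : GOk D)
    (e : Sym2 V) {y z w : V} {ρ t : ℕ} (hy : y ∈ D.VN) (hfree : ∀ p, ¬ Nr D.N ρ y (D.x p))
    (h : Nr (outG D.G D.U e) t y z) (p : (outG D.G D.U e).Walk z w) (ht : t + p.length ≤ ρ) :
    ∀ f ∈ p.edges, f ∈ D.N.edgeSet := by
  intro f hf
  induction f using Sym2.ind with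
  | _ a b =>
    have h1 : a ∈ p.support := p.fst_mem_support_of_mem_edges hf
    exact edge_N D hD hG e hy hfree ht (h.trans (Nr.of_mem h1)) (p.adj_of_mem_edges hf)

/-- a cycle with a free ball, of minimal length -/
private theorem exists_min {V P Q : Type} [Finite V] (D : HD V P Q) (K : ℕ) {v : V}
    (Z : D.N.Walk v v) (hZ : Z.IsCycle) {y : V} (hy : y ∈ Z.support) {ρ : ℕ} (hL : D.L ≤ ρ)
    (hF : D.Free ρ y) (hK : Z.length ≤ K * ρ) :
    ∃ (y : V) (Z : D.N.Walk y y) (ρ : ℕ), Z.IsCycle ∧ D.L ≤ ρ ∧ D.Free ρ y ∧ Z.length ≤ K * ρ ∧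
      ∀ (y' : V) (Z' : D.N.Walk y' y') (ρ' : ℕ), Z'.IsCycle → D.L ≤ ρ' → D.Free ρ' y' →
        Z'.length ≤ K * ρ' → Z.length ≤ Z'.length := by
  classical
  have hex : ∃ n, ∃ (y : V) (Z : D.N.Walk y y) (ρ : ℕ), Z.IsCycle ∧ D.L ≤ ρ ∧ D.Free ρ y ∧
      Z.length ≤ K * ρ ∧ Z.length = n := by
    refine ⟨_, y, Z.rotate y hy, ρ, ?_, hL, hF, ?_, rfl⟩
    · rwa [SimpleGraph.Walk.isCycle_rotate]
    · rwa [SimpleGraph.Walk.length_rotate]
  obtain ⟨y1, Z1, ρ1, h1, h2, h3, h4, h5⟩ := Nat.find_spec hex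
  refine ⟨y1, Z1, ρ1, h1, h2, h3, h4, fun y' Z' ρ' g1 g2 g3 g4 => ?_⟩
  rw [h5]
  exact Nat.find_min' hex ⟨y', Z', ρ', g1, g2, g3, g4, rfl⟩

/-- **D8b** -/
theorem place_e1 (C K : ℕ) : ∃ k : ℕ, ∀ (V P Q : Type) [Finite V] (D : HD V P Q),
    D.Ok → GOk D → D.Kh ≤ C → (∀ e ∈ D.G.edgeSet, KPl 1 (D.G.deleteEdges {e})) →
    (∀ v (Z : D.N.Walk v v), Z.IsCycle → 64 * (K + 1) * D.L < Z.length) →
    ∀ v (Z : D.N.Walk v v), Z.IsCycle → ∀ y ∈ Z.support, ∀ ρ, D.L ≤ ρ → D.Free ρ y →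
    Z.length ≤ K * ρ → KPl k D.G := by
  classical
  obtain ⟨k, hk⟩ := place_SU (12 * C) (32 * (K + 1))
  refine ⟨k, ?_⟩
  intro V P Q _ D hD hG hKh hcrit hE v0 Z0 hZ0 y0 hy0 ρ0 hL0 hF0 hZρ0
  obtain ⟨y, Z, ρ, hZ, hL, hF, hZρ, hmin⟩ := exists_min D K Z0 hZ0 hy0 hL0 hF0 hZρ0
  have hr := hD.r_pos
  have hrL := hD.r_le
  have hlong := hE y Z hZ
  have hK1 : 1 ≤ K := by
    by_contra hcon
    have h0 : K = 0 := by omega
    rw [h0, Nat.zero_mul] at hZρ
    have := hZ.three_le_length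
    omega
  have hρL : 64 * D.L < ρ := by
    by_contra hcon
    have h1 : ρ ≤ 64 * D.L := by omega
    have h2 : K * ρ ≤ K * (64 * D.L) := Nat.mul_le_mul_left _ h1
    have h3 : 64 * (K + 1) * D.L = K * (64 * D.L) + 64 * D.L := by ring
    omega
  have hZL : 64 * D.L < Z.length := by
    have h3 : 64 * (K + 1) * D.L = K * (64 * D.L) + 64 * D.L := by ring
    omega
  obtain ⟨m, hm⟩ : ∃ m, m = min ρ Z.length := ⟨_, rfl⟩
  obtain ⟨ρ₁, hρ₁⟩ : ∃ n, n = m / 16 := ⟨_, rfl⟩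
  have hm1 : m ≤ ρ := by omega
  have hm2 : m ≤ Z.length := by omega
  have hm3 : 128 ≤ m := by omega
  have hρ1 : 16 * ρ₁ ≤ m := by omega
  have hρ2 : m ≤ 32 * ρ₁ := by omega
  have hρ3 : 8 ≤ ρ₁ := by omega
  -- the cycle at `y`
  obtain ⟨v, hyv, W0, hW0, hWe, hWl⟩ : ∃ (v : V) (hyv : D.N.Adj y v) (W0 : D.N.Walk v y),
      W0.IsPath ∧ s(y, v) ∉ W0.edges ∧ W0.length + 1 = Z.length := by
    cases Z with
    | nil => exact absurd hZ.three_le_length (by simp)
    | @cons _ w _ h q =>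
      obtain ⟨h1, h2⟩ := (SimpleGraph.Walk.cons_isCycle_iff q h).1 hZ
      exact ⟨w, h, q, h1, h2, by rw [SimpleGraph.Walk.length_cons]⟩
  have hyVN : y ∈ D.VN := HD.VN_of_adj hyv
  have hyU : y ∉ D.U := hD.N_U _ _ hyv
  have hKρ : ρ ≤ K * ρ := Nat.le_mul_of_pos_left _ hK1
  refine hk V P Q D hD hG (by omega) hcrit y v (hD.N_le hyv) hyU
    (fun q hq => hD.wq_N q y hq hyVN) ρ₁ (by omega) ?_ ?_ ?_ ?_
    ((W0.reverse).transfer (D.G.deleteEdges {s(y, v)}) ?_) ?_ ?_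
  · -- no hub near `y`
    intro z hz a ha hza
    exfalso
    obtain ⟨h1, h2⟩ := nr_out D hD hG s(y, v) y z ρ₁ hyVN
      (fun p hp => hF.1 p (hp.mono (by omega))) hz
    rcases adj_cases D hD hG z a h1 hza with h3 | ⟨s, h3, -⟩
    · exact hD.N_U _ _ h3.symm ha
    · exact hF.1 s (h3 ▸ h2.mono (by omega))
  · -- the volume
    refine (vol_cmp D hD hG _ (D.ball ρ y) ?_ ?_).trans ?_
    · intro z hz
      exact HD.VN_U hD (nr_out D hD hG s(y, v) y z ρ₁ hyVN
        (fun p hp => hF.1 p (hp.mono (by omega))) hz).1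
    · intro z hz _
      exact (nr_out D hD hG s(y, v) y z ρ₁ hyVN
        (fun p hp => hF.1 p (hp.mono (by omega))) hz).2.mono (by omega)
    · have h1 : D.vol (D.ball ρ y) ≤ 4 * D.Kh * D.r := hF.2
      have h2 : 3 * (4 * D.Kh * D.r) ≤ 12 * C * D.r := by
        have : D.Kh * D.r ≤ C * D.r := Nat.mul_le_mul_right _ hKh
        nlinarith
      omega
  · -- short cycles
    intro z Z1 hZ1 hz
    by_contra hcon
    have hlen : Z1.length ≤ 2 * ρ₁ + 1 := by omega
    have hN : ∀ f ∈ Z1.edges, f ∈ D.N.edgeSet :=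
      walk_N D hD hG s(y, v) hyVN hF.1 hz Z1 (by omega)
    obtain ⟨-, hz2⟩ := nr_out D hD hG s(y, v) y z ρ₁ hyVN
      (fun p hp => hF.1 p (hp.mono (by omega))) hz
    have h1 := hmin z (Z1.transfer D.N hN) (ρ - ρ₁) (hZ1.transfer hN) (by omega) ⟨?_, ?_⟩ ?_
    · rw [SimpleGraph.Walk.length_transfer] at h1
      omega
    · intro p hp
      exact hF.1 p ((hz2.trans hp).mono (by omega))
    · refine (HD.vol_mono (D := D) (T := D.ball ρ y) fun w hw => ?_).trans hF.2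
      exact (hz2.trans hw).mono (by omega)
    · rw [SimpleGraph.Walk.length_transfer]
      have : ρ - ρ₁ ≤ K * (ρ - ρ₁) := Nat.le_mul_of_pos_left _ hK1
      omega
  · -- the other end
    intro hyv'
    obtain ⟨p, hp⟩ := hyv'
    have hpl : p.bypass.length ≤ ρ₁ := p.length_bypass_le_length.trans hp
    have hN : ∀ f ∈ p.bypass.edges, f ∈ D.N.edgeSet :=
      walk_N D hD hG s(y, v) hyVN hF.1 (Nr.refl _ 0 y) p.bypass (by omega)
    have hcyc : (SimpleGraph.Walk.cons hyv.symm (p.bypass.transfer D.N hN)).IsCycle := by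
      rw [SimpleGraph.Walk.cons_isCycle_iff]
      refine ⟨p.bypass_isPath.transfer hN, fun hmem => ?_⟩
      rw [SimpleGraph.Walk.edges_transfer] at hmem
      exact (p.bypass.adj_of_mem_edges hmem).2.1 (by rw [Sym2.eq_swap])
    have hmy : y ∈ (SimpleGraph.Walk.cons hyv.symm (p.bypass.transfer D.N hN)).support := by
      simp
    have h1 := hmin y ((SimpleGraph.Walk.cons hyv.symm (p.bypass.transfer D.N hN)).rotate y hmy) ρ
      (by rwa [SimpleGraph.Walk.isCycle_rotate]) hL hF ?_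
    · rw [SimpleGraph.Walk.length_rotate, SimpleGraph.Walk.length_cons,
        SimpleGraph.Walk.length_transfer] at h1
      omega
    · rw [SimpleGraph.Walk.length_rotate, SimpleGraph.Walk.length_cons,
        SimpleGraph.Walk.length_transfer]
      omega
  · intro f hf
    rw [SimpleGraph.Walk.edges_reverse, List.mem_reverse] at hf
    rw [SimpleGraph.edgeSet_deleteEdges]
    refine ⟨SimpleGraph.edgeSet_mono hD.N_le (W0.edges_subset_edgeSet hf), fun h => hWe ?_⟩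
    rw [Set.mem_singleton_iff] at h
    rwa [h] at hf
  · exact hW0.reverse.transfer _
  · rw [SimpleGraph.Walk.length_transfer, SimpleGraph.Walk.length_reverse]
    have h0 : ∀ (l : List V), (∀ z ∈ l, z ∉ D.U) →
        (l.map (fun z => if z ∈ D.U ∧ z ≠ v then deg D.G z else 0)).sum = 0 := by
      intro l hl
      refine List.sum_eq_zero fun x hx => ?_
      obtain ⟨z, hz, rfl⟩ := List.mem_map.1 hx
      exact if_neg fun h => hl z hz h.1
    rw [h0]
    · have h1 : Z.length ≤ 32 * (K + 1) * ρ₁ := by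
        rcases le_total ρ Z.length with h | h
        · have h2 : ρ ≤ 32 * ρ₁ := by omega
          have h3 : K * ρ ≤ K * (32 * ρ₁) := Nat.mul_le_mul_left _ h2
          have h4 : 32 * (K + 1) * ρ₁ = K * (32 * ρ₁) + 32 * ρ₁ := by ring
          omega
        · have h2 : Z.length ≤ 32 * ρ₁ := by omega
          have h4 : 32 * (K + 1) * ρ₁ = K * (32 * ρ₁) + 32 * ρ₁ := by ring
          omega
      omega
    · intro z hz
      rw [SimpleGraph.Walk.support_transfer, SimpleGraph.Walk.support_reverse,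
        List.mem_reverse] at hz
      exact HD.VN_U hD (HD.VN_of_walk W0 (HD.VN_of_adj' hyv) hz)

end Pool.Agent.Helper95.HH
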