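import Pool.Agent.Helper95.HH.RO

/-!
# HH/RingSum: the degrees on a path outside the hubs (drawing half of theorem (H), MP_0dbcb7_co)

D4b. A path of `ringOut H U ord` has small total degree compared to its length: doors have degree at most four (`(hord a ha).injOn`:
at most one next and one previous door), a vertex `v` outside `U` has the same degree as in `H`, at most `2` if
`deg G v = 2` and at most `C * r` otherwise, and two different vertices of degree at least three (in `G`) on the path are at
distance at least `r` on the path: the part after the first one is either a path of `G` through vertices of degree two, or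
it reaches a door `(y, a)`, and then the part up to `y` together with the edge `y a` is a path of `G` through vertices of
degree two from the first vertex to the hub `a` (`hsp`). Compare `Helper95/UP/Assemble` (`deg_sum`).
-/

set_option autoImplicit false

open Set
open Pool.Agent.Helper83.OP Pool.Agent.Helper83.HR

namespace Pool.Agent.Helper95.HH

private theorem rs_finite {V : Type} [Finite V] (H : SimpleGraph V) (U : Set V) :
    Finite (Dor H U) := by
  unfold Dor
  infer_instance

/-- a vertex outside `U` has in the graph with doors at most the degree in `G` -/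
private theorem rs_deg_inl {V : Type} [Finite V] (G H : SimpleGraph V) (U : Set V)
    (ord : V → V → ℕ) (hHG : H ≤ G) {v : V} (hv : v ∉ U) :
    deg (ringGraph H U ord) (Sum.inl v) ≤ deg G v := by
  classical
  unfold deg
  refine Set.ncard_le_ncard_of_injOn (fun x => Sum.elim id (fun d : Dor H U => d.1.2) x) ?_ ?_
    (Set.toFinite _)
  · rintro (w | d) h
    · have h1 : H.Adj v w ∧ v ∉ U ∧ w ∉ U := h
      exact hHG h1.1
    · have h1 : v = d.1.1 ∨ v = d.1.2 := h
      rcases h1 with h1 | h1
      · have h2 : H.Adj v d.1.2 := by
          rw [h1]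
          exact dor_adj d
        exact hHG h2
      · exact absurd (by rw [h1]; exact dor_mem d) hv
  · rintro (w | d) h (w' | d') h' he
    · exact congrArg Sum.inl he
    · have h1 : H.Adj v w ∧ v ∉ U ∧ w ∉ U := h
      have h2 : w = d'.1.2 := he
      exact absurd (by rw [h2]; exact dor_mem d') h1.2.2
    · have h1 : H.Adj v w' ∧ v ∉ U ∧ w' ∉ U := h'
      have h2 : d.1.2 = w' := he
      exact absurd (by rw [← h2]; exact dor_mem d) h1.2.2
    · have h1 : v = d.1.1 ∨ v = d.1.2 := h
      have h1' : v = d'.1.1 ∨ v = d'.1.2 := h'
      have h2 : d.1.2 = d'.1.2 := he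
      rcases h1 with h1 | h1
      · rcases h1' with h1' | h1'
        · exact congrArg Sum.inr (dor_ext d d' (h1.symm.trans h1') h2)
        · exact absurd (by rw [h1']; exact dor_mem d') hv
      · exact absurd (by rw [h1]; exact dor_mem d) hv

/-- doors have degree at most four -/
private theorem rs_deg_inr {V : Type} [Finite V] (H : SimpleGraph V) (U : Set V)
    (ord : V → V → ℕ) (hord : IsOrd H U ord) (d : Dor H U) :
    deg (ringGraph H U ord) (Sum.inr d) ≤ 4 := by
  classical
  have hf := rs_finite H U
  unfold deg
  have hA : ({x | ∃ d' : Dor H U, x = Sum.inr d' ∧ Cons ord d d'} : Set (V ⊕ Dor H U)).ncard ≤ 1 := by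
    rw [Set.ncard_le_one (Set.toFinite _)]
    rintro _ ⟨d1, rfl, h1, h2⟩ _ ⟨d2, rfl, h3, h4⟩
    refine congrArg Sum.inr (dor_ext d1 d2 ?_ (h1.symm.trans h3))
    refine (hord d.1.2 (dor_mem d)).injOn ?_ ?_ (by omega)
    · have := (dor_adj d1).symm
      rw [← h1] at this
      exact this
    · have := (dor_adj d2).symm
      rw [← h3] at this
      exact this
  have hB : ({x | ∃ d' : Dor H U, x = Sum.inr d' ∧ Cons ord d' d} : Set (V ⊕ Dor H U)).ncard ≤ 1 := by
    rw [Set.ncard_le_one (Set.toFinite _)]
    rintro _ ⟨d1, rfl, h1, h2⟩ _ ⟨d2, rfl, h3, h4⟩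
    refine congrArg Sum.inr (dor_ext d1 d2 ?_ (h1.trans h3.symm))
    rw [h1] at h2
    rw [h3] at h4
    refine (hord d.1.2 (dor_mem d)).injOn ?_ ?_ (by omega)
    · have := (dor_adj d1).symm
      rw [h1] at this
      exact this
    · have := (dor_adj d2).symm
      rw [h3] at this
      exact this
  have hsub : (ringGraph H U ord).neighborSet (Sum.inr d) ⊆
      (({Sum.inl d.1.1} ∪ {Sum.inl d.1.2}) ∪ {x | ∃ d' : Dor H U, x = Sum.inr d' ∧ Cons ord d d'}) ∪
        {x | ∃ d' : Dor H U, x = Sum.inr d' ∧ Cons ord d' d} := by
    rintro (w | d') h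
    · have h1 : w = d.1.1 ∨ w = d.1.2 := h
      rcases h1 with rfl | rfl
      · exact Or.inl (Or.inl (Or.inl rfl))
      · exact Or.inl (Or.inl (Or.inr rfl))
    · have h1 : Cons ord d d' ∨ Cons ord d' d := h
      rcases h1 with h1 | h1
      · exact Or.inl (Or.inr ⟨d', rfl, h1⟩)
      · exact Or.inr ⟨d', rfl, h1⟩
  have h1 := Set.ncard_le_ncard hsub (Set.toFinite _)
  have h2 := Set.ncard_union_le (({Sum.inl d.1.1} ∪ {Sum.inl d.1.2}) ∪
    {x | ∃ d' : Dor H U, x = Sum.inr d' ∧ Cons ord d d'} : Set (V ⊕ Dor H U))
    {x | ∃ d' : Dor H U, x = Sum.inr d' ∧ Cons ord d' d}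
  have h3 := Set.ncard_union_le (({Sum.inl d.1.1} ∪ {Sum.inl d.1.2}) : Set (V ⊕ Dor H U))
    {x | ∃ d' : Dor H U, x = Sum.inr d' ∧ Cons ord d d'}
  have h4 := Set.ncard_union_le ({Sum.inl d.1.1} : Set (V ⊕ Dor H U)) {Sum.inl d.1.2}
  rw [Set.ncard_singleton, Set.ncard_singleton] at h4
  omega

/-- an inner vertex of a path has degree at least two -/
private theorem rs_two_le_deg {V : Type} [Finite V] (G : SimpleGraph V) {u v : V}
    (p : G.Walk u v) (hp : p.IsPath) {x : V} (hx : x ∈ p.support) (hxu : x ≠ u) (hxv : x ≠ v) :
    2 ≤ deg G x := by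
  obtain ⟨i, hi, hil⟩ := SimpleGraph.Walk.mem_support_iff_exists_getVert.1 hx
  have hi0 : i ≠ 0 := by
    rintro rfl
    exact hxu (by rw [← hi, SimpleGraph.Walk.getVert_zero])
  have hiL : i ≠ p.length := by
    rintro rfl
    exact hxv (by rw [← hi, SimpleGraph.Walk.getVert_length])
  obtain ⟨j, rfl⟩ := Nat.exists_eq_succ_of_ne_zero hi0
  have h1 : G.Adj (p.getVert j) (p.getVert (j + 1)) := p.adj_getVert_succ (by omega)
  have h2 : G.Adj (p.getVert (j + 1)) (p.getVert (j + 1 + 1)) := p.adj_getVert_succ (by omega)
  have hne : p.getVert j ≠ p.getVert (j + 1 + 1) := by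
    intro h
    have := hp.getVert_injOn (show j ≤ p.length by omega)
      (show j + 1 + 1 ≤ p.length by omega) h
    omega
  have hi' : p.getVert (j + 1) = x := hi
  rw [hi'] at h1 h2
  have hsub : ({p.getVert j, p.getVert (j + 1 + 1)} : Set V) ⊆ G.neighborSet x := by
    intro y hy
    rcases hy with rfl | rfl
    · exact h1.symm
    · exact h2
  have := Set.ncard_le_ncard hsub (Set.toFinite _)
  rw [Set.ncard_pair hne] at this
  exact this

/-- the old vertices of degree at least three in `G` -/
private def rsBr {V : Type} (G H : SimpleGraph V) (U : Set V) (x : V ⊕ Dor H U) : Prop :=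
  ∃ v, x = Sum.inl v ∧ 3 ≤ deg G v

open Classical in
/-- the vertices of degree at least three on a path outside the hubs -/
private theorem rs_count {V : Type} [Finite V] (G H : SimpleGraph V) (U : Set V)
    (ord : V → V → ℕ) (r : ℕ) (hHG : H ≤ G) (hU3 : ∀ u ∈ U, 3 ≤ deg G u)
    (hsp : ∀ u v (p : G.Walk u v), p.IsPath → u ≠ v → 3 ≤ deg G u → 3 ≤ deg G v →
      (∀ x ∈ p.support, x ≠ u → x ≠ v → deg G x = 2) → r ≤ p.length)
    {s' t : V ⊕ Dor H U} (p : (ringOut H U ord).Walk s' t) : p.IsPath →
    (r * (p.support.countP (fun x => decide (rsBr G H U x))) ≤ p.length + r) ∧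
    ∀ (s u : V) (q : G.Walk s u), s' = Sum.inl u → q.IsPath → (∀ x ∈ q.support, x ∉ U) →
      (∀ x ∈ q.support, x ≠ u → Sum.inl x ∉ p.support) → 3 ≤ deg G s →
      (∀ x ∈ q.support, x ≠ s → ¬ 3 ≤ deg G x) →
      r * (p.support.tail.countP (fun x => decide (rsBr G H U x))) ≤ q.length + p.length := by
  induction p with
  | @nil s' =>
    intro _
    refine ⟨?_, ?_⟩
    · rw [SimpleGraph.Walk.support_nil, SimpleGraph.Walk.length_nil]
      have h1 : ([s'] : List (V ⊕ Dor H U)).countP (fun x => decide (rsBr G H U x)) ≤ 1 :=
        List.countP_le_length.trans (by simp)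
      have h2 := Nat.mul_le_mul_left r h1
      omega
    · intro s u q _ _ _ _ _ _
      simp
  | @cons s' w' t h p ih =>
    intro hp
    have hpp : p.IsPath := hp.of_cons
    have hnot : s' ∉ p.support := ((SimpleGraph.Walk.cons_isPath_iff h p).1 hp).2
    obtain ⟨ihM, ihA⟩ := ih hpp
    have aux : ∀ (s u : V) (q : G.Walk s u), s' = Sum.inl u → q.IsPath →
        (∀ x ∈ q.support, x ∉ U) →
        (∀ x ∈ q.support, x ≠ u → Sum.inl x ∉ (SimpleGraph.Walk.cons h p).support) →
        3 ≤ deg G s → (∀ x ∈ q.support, x ≠ s → ¬ 3 ≤ deg G x) →
        r * ((SimpleGraph.Walk.cons h p).support.tail.countP (fun x => decide (rsBr G H U x))) ≤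
          q.length + (SimpleGraph.Walk.cons h p).length := by
      intro s u q hs' hq hqU hqp hs3 hq3
      subst hs'
      rw [SimpleGraph.Walk.support_cons, List.tail_cons, SimpleGraph.Walk.length_cons]
      have hdegq : ∀ (w : V) (hG : G.Adj u w), w ∉ q.support → 3 ≤ deg G w →
          r ≤ q.length + 1 := by
        intro w hG hwq hw
        have hq' : (q.concat hG).IsPath := hq.concat hwq hG
        have hsw : s ≠ w := by
          rintro rfl
          exact hwq (SimpleGraph.Walk.start_mem_support q)
        have h1 := hsp s w (q.concat hG) hq' hsw hs3 hw (by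
          intro x hx hxs hxw
          have hx2 := rs_two_le_deg G (q.concat hG) hq' hx hxs hxw
          have hxq : x ∈ q.support := by
            rw [SimpleGraph.Walk.support_concat, List.mem_append] at hx
            rcases hx with hx | hx
            · exact hx
            · exact absurd (by simpa using hx) hxw
          have := hq3 x hxq hxs
          omega)
        rw [SimpleGraph.Walk.length_concat] at h1
        exact h1
      rcases w' with w | d
      · have h0 : H.Adj u w ∧ u ∉ U ∧ w ∉ U := h.1
        have hG : G.Adj u w := hHG h0.1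
        have hwq : w ∉ q.support := by
          intro hwq
          have hwu : w ≠ u := hG.ne'
          refine hqp w hwq hwu ?_
          rw [SimpleGraph.Walk.support_cons]
          exact List.mem_cons_of_mem _ (SimpleGraph.Walk.start_mem_support p)
        rw [← SimpleGraph.Walk.cons_tail_support p]
        by_cases hw : 3 ≤ deg G w
        · have h1 := hdegq w hG hwq hw
          have h2 := ihA w w SimpleGraph.Walk.nil rfl SimpleGraph.Walk.IsPath.nil
            (by
              intro x hx
              rw [SimpleGraph.Walk.support_nil, List.mem_singleton] at hx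
              rw [hx]
              exact h0.2.2)
            (by
              intro x hx hxw
              rw [SimpleGraph.Walk.support_nil, List.mem_singleton] at hx
              exact absurd hx hxw) hw
            (by
              intro x hx hxw
              rw [SimpleGraph.Walk.support_nil, List.mem_singleton] at hx
              exact absurd hx hxw)
          rw [SimpleGraph.Walk.length_nil] at h2
          rw [List.countP_cons_of_pos (by
            rw [decide_eq_true_eq]
            exact ⟨w, rfl, hw⟩), Nat.mul_add, Nat.mul_one]
          omega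
        · have h2 := ihA s w (q.concat hG) rfl (hq.concat hwq hG)
            (by
              intro x hx
              rw [SimpleGraph.Walk.support_concat, List.mem_append] at hx
              rcases hx with hx | hx
              · exact hqU x hx
              · have : x = w := by simpa using hx
                rw [this]
                exact h0.2.2)
            (by
              intro x hx hxw
              rw [SimpleGraph.Walk.support_concat, List.mem_append] at hx
              rcases hx with hx | hx
              · by_cases hxu : x = u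
                · rw [hxu]
                  exact hnot
                · intro h3
                  refine hqp x hx hxu ?_
                  rw [SimpleGraph.Walk.support_cons]
                  exact List.mem_cons_of_mem _ h3
              · exact absurd (by simpa using hx) hxw) hs3
            (by
              intro x hx hxs
              rw [SimpleGraph.Walk.support_concat, List.mem_append] at hx
              rcases hx with hx | hx
              · exact hq3 x hx hxs
              · have : x = w := by simpa using hx
                rw [this]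
                exact hw)
          rw [SimpleGraph.Walk.length_concat] at h2
          rw [List.countP_cons_of_neg (by
            rw [decide_eq_true_eq]
            rintro ⟨w1, hw1, hw2⟩
            rw [Sum.inl.inj hw1] at hw
            exact hw hw2)]
          omega
      · have h0 : u = d.1.1 ∨ u = d.1.2 := h.1
        have huU : u ∉ U := hqU u (SimpleGraph.Walk.end_mem_support q)
        have h1 : u = d.1.1 := by
          rcases h0 with h0 | h0
          · exact h0
          · exact absurd (by rw [h0]; exact dor_mem d) huU
        have hG : G.Adj u d.1.2 := by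
          rw [h1]
          exact hHG (dor_adj d)
        have h2 := hdegq d.1.2 hG (fun h3 => hqU _ h3 (dor_mem d)) (hU3 _ (dor_mem d))
        omega
    refine ⟨?_, aux⟩
    by_cases hb : rsBr G H U s'
    · obtain ⟨u, hu1, hu⟩ := hb
      have huU : u ∉ U := fun h3 => h.2.1 u h3 hu1
      have h1 := aux u u SimpleGraph.Walk.nil hu1 SimpleGraph.Walk.IsPath.nil
        (by
          intro x hx
          rw [SimpleGraph.Walk.support_nil, List.mem_singleton] at hx
          rw [hx]
          exact huU)
        (by
          intro x hx hxw
          rw [SimpleGraph.Walk.support_nil, List.mem_singleton] at hx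
          exact absurd hx hxw) hu
        (by
          intro x hx hxw
          rw [SimpleGraph.Walk.support_nil, List.mem_singleton] at hx
          exact absurd hx hxw)
      rw [SimpleGraph.Walk.length_nil, SimpleGraph.Walk.support_cons, List.tail_cons] at h1
      rw [SimpleGraph.Walk.support_cons, List.countP_cons_of_pos (by
        rw [decide_eq_true_eq]
        exact ⟨u, hu1, hu⟩), Nat.mul_add, Nat.mul_one]
      omega
    · rw [SimpleGraph.Walk.support_cons, List.countP_cons_of_neg (by
        rw [decide_eq_true_eq]
        exact hb), SimpleGraph.Walk.length_cons]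
      omega

open Classical in
private theorem rs_sum {V : Type} [Finite V] (G H : SimpleGraph V) (U : Set V)
    (ord : V → V → ℕ) (C r : ℕ) (hHG : H ≤ G) (hord : IsOrd H U ord)
    (hdeg : ∀ v, v ∉ U → deg G v ≤ C * r) (l : List (V ⊕ Dor H U))
    (hl : ∀ x ∈ l, ∀ a ∈ U, x ≠ Sum.inl a) :
    (l.map (deg (ringGraph H U ord))).sum ≤
      C * r * l.countP (fun x => decide (rsBr G H U x)) + 4 * l.length := by
  induction l with
  | nil => simp
  | cons x l ih =>
    have ih' := ih (fun y hy => hl y (List.mem_cons_of_mem _ hy))
    rw [List.map_cons, List.sum_cons, List.length_cons]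
    by_cases hb : rsBr G H U x
    · rw [List.countP_cons_of_pos (by rw [decide_eq_true_eq]; exact hb), Nat.mul_add, Nat.mul_one]
      obtain ⟨v, rfl, hv⟩ := hb
      have hvU : v ∉ U := fun h => hl _ List.mem_cons_self v h rfl
      have h1 := rs_deg_inl G H U ord hHG hvU
      have h2 := hdeg v hvU
      omega
    · rw [List.countP_cons_of_neg (by rw [decide_eq_true_eq]; exact hb)]
      have h1 : deg (ringGraph H U ord) x ≤ 4 := by
        rcases x with v | d
        · have hvU : v ∉ U := fun h => hl _ List.mem_cons_self v h rfl
          have h1 := rs_deg_inl G H U ord hHG hvU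
          have h2 : ¬ 3 ≤ deg G v := fun h => hb ⟨v, rfl, h⟩
          omega
        · exact rs_deg_inr H U ord hord d
      omega

/-- **D4b** -/
theorem ring_sum {V : Type} [Finite V] (G H : SimpleGraph V) (U : Set V) (ord : V → V → ℕ)
    (C r : ℕ) (hHG : H ≤ G) (hord : IsOrd H U ord) (hU : ∀ u ∈ U, ∀ v ∈ U, ¬ G.Adj u v)
    (hU3 : ∀ u ∈ U, 3 ≤ deg G u) (hr : 1 ≤ r) (hdeg : ∀ v, v ∉ U → deg G v ≤ C * r)
    (hsp : ∀ u v (p : G.Walk u v), p.IsPath → u ≠ v → 3 ≤ deg G u → 3 ≤ deg G v →
      (∀ x ∈ p.support, x ≠ u → x ≠ v → deg G x = 2) → r ≤ p.length)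
    (hone : ∀ v, deg G v ≠ 1)
    {s t : V ⊕ Dor H U} (p : (ringOut H U ord).Walk s t) (hp : p.IsPath)
    (hs : ∀ a ∈ U, s ≠ Sum.inl a) :
    (p.support.map (deg (ringGraph H U ord))).sum ≤ (C + 6) * (p.length + r) := by
  classical
  have hl : ∀ x ∈ p.support, ∀ a ∈ U, x ≠ Sum.inl a := by
    clear hp
    induction p with
    | nil =>
      intro x hx
      rw [SimpleGraph.Walk.support_nil, List.mem_singleton] at hx
      rw [hx]
      exact hs
    | cons h p ih =>
      intro x hx
      rw [SimpleGraph.Walk.support_cons, List.mem_cons] at hx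
      rcases hx with hx | hx
      · rw [hx]
        exact hs
      · exact ih h.2.2 x hx
  have h1 := rs_sum G H U ord C r hHG hord hdeg p.support hl
  have h2 := (rs_count G H U ord r hHG hU3 hsp p hp).1
  have h3 : C * r * p.support.countP (fun x => decide (rsBr G H U x)) ≤ C * (p.length + r) := by
    rw [Nat.mul_assoc]
    exact Nat.mul_le_mul_left _ h2
  have h4 : p.support.length = p.length + 1 := SimpleGraph.Walk.length_support p
  have h5 : (C + 6) * (p.length + r) = C * (p.length + r) + 6 * (p.length + r) := by ring
  rw [h5]
  omega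

end Pool.Agent.Helper95.HH
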