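import Pool.Agent.Helper93.HH.Basic

/-!
# HH/Slide: a neighbourhood of a core is moved along tracks (drawing half of theorem (H), MP_0dbcb7_co)

D5a. `B` is the neighbourhood of radius `J` of a core (the vertices of `B` with `tt = 0`) in the graph `G0`; it is a forest
rooted at the core (`par`, `core`). The core is moved along the tracks `trk z 0 = ι z, .., trk z M` of the graph `Rg`. The
vertex `z` of `B` with `t = tt z` goes to the image of `par^[J - t] z` if `J ≤ 2 t`, and to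
`trk (core z) (M * (J - 2 * t) / J)` if `2 t < J`. Adjacent vertices have images at distance at most
`c1 * (2 K + 1) + 2`: in the tree part the images of `z` and `par z` are at distance at most `2`, on the tracks the indices
differ by at most `2 M / J + 1 ≤ 2 K + 1`.
-/

set_option autoImplicit false

open Set
open Pool.Agent.Helper83.OP Pool.Agent.Helper93.HH

namespace Pool.Agent.Helper95.HH

private lemma sl_iter {V : Type} {B : Set V} {tt : V → ℕ} {par core : V → V}
    {G0 : SimpleGraph V}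
    (h2 : ∀ z ∈ B, tt z ≠ 0 →
      par z ∈ B ∧ G0.Adj z (par z) ∧ tt (par z) + 1 = tt z ∧ core (par z) = core z) :
    ∀ (k : ℕ) (z : V), z ∈ B → k ≤ tt z →
      par^[k] z ∈ B ∧ tt (par^[k] z) + k = tt z ∧ core (par^[k] z) = core z := by
  intro k
  induction k with
  | zero =>
    intro z hz _
    exact ⟨hz, rfl, rfl⟩
  | succ k ih =>
    intro z hz hk
    obtain ⟨a, -, c, d⟩ := h2 z hz (by omega)
    rw [Function.iterate_succ_apply]
    obtain ⟨e, f, g⟩ := ih (par z) a (by omega)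
    exact ⟨e, by omega, by rw [g, d]⟩

private lemma sl_core {V : Type} {B : Set V} {tt : V → ℕ} {par core : V → V}
    {G0 : SimpleGraph V}
    (h2 : ∀ z ∈ B, tt z ≠ 0 →
      par z ∈ B ∧ G0.Adj z (par z) ∧ tt (par z) + 1 = tt z ∧ core (par z) = core z)
    (h3 : ∀ z ∈ B, tt z = 0 → core z = z) {z : V} (hz : z ∈ B) :
    core z ∈ B ∧ tt (core z) = 0 := by
  obtain ⟨a, b, c⟩ := sl_iter h2 (tt z) z hz le_rfl
  have h0 : tt (par^[tt z] z) = 0 := by omega
  rw [← c, h3 _ a h0]
  exact ⟨a, h0⟩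

private lemma sl_track {W : Type} {Rg : SimpleGraph W} {c1 M : ℕ} {f : ℕ → W}
    (h : ∀ k < M, Nr Rg c1 (f k) (f (k + 1))) :
    ∀ j k : ℕ, k + j ≤ M → Nr Rg (c1 * j) (f k) (f (k + j)) := by
  intro j
  induction j with
  | zero =>
    intro k _
    exact Nr.refl _ _ _
  | succ j ih =>
    intro k hk
    have h1 := (ih k (by omega)).trans (h (k + j) (by omega))
    exact h1.mono (by rw [Nat.mul_succ])

private lemma sl_track' {W : Type} {Rg : SimpleGraph W} {c1 M : ℕ} {f : ℕ → W}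
    (h : ∀ k < M, Nr Rg c1 (f k) (f (k + 1))) {k k' D : ℕ} (h1 : k ≤ k') (h2 : k' ≤ M)
    (h3 : k' ≤ k + D) : Nr Rg (c1 * D) (f k) (f k') := by
  obtain ⟨j, rfl⟩ := Nat.exists_eq_add_of_le h1
  refine (sl_track h j k h2).mono (Nat.mul_le_mul_left _ ?_)
  omega

/-- **D5a** -/
theorem slide {V W : Type} (G0 : SimpleGraph V) (Rg : SimpleGraph W) (ι : V → W)
    (hι : ∀ a b, G0.Adj a b → Rg.Adj (ι a) (ι b)) (K c1 J M : ℕ) (hJ : 1 ≤ J) (hM : M ≤ K * J)
    (B : Set V) (tt : V → ℕ) (par core : V → V) (trk : V → ℕ → W)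
    (h1 : ∀ z ∈ B, tt z ≤ J)
    (h2 : ∀ z ∈ B, tt z ≠ 0 →
      par z ∈ B ∧ G0.Adj z (par z) ∧ tt (par z) + 1 = tt z ∧ core (par z) = core z)
    (h3 : ∀ z ∈ B, tt z = 0 → core z = z)
    (h4 : ∀ z ∈ B, ∀ z' ∈ B, G0.Adj z z' →
      (tt z ≠ 0 ∧ par z = z') ∨ (tt z' ≠ 0 ∧ par z' = z) ∨ (tt z = 0 ∧ tt z' = 0))
    (h5 : ∀ z ∈ B, ∀ z', z' ∉ B → G0.Adj z z' → tt z = J)
    (t0 : ∀ z ∈ B, tt z = 0 → trk z 0 = ι z)
    (t1 : ∀ z ∈ B, tt z = 0 → ∀ k < M, Nr Rg c1 (trk z k) (trk z (k + 1)))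
    (t2 : ∀ z ∈ B, ∀ z' ∈ B, G0.Adj z z' → tt z = 0 → tt z' = 0 →
      ∀ k ≤ M, Nr Rg c1 (trk z k) (trk z' k)) :
    ∃ pl : V → W, (∀ z, z ∉ B → pl z = ι z) ∧ (∀ z ∈ B, tt z = 0 → pl z = trk z M) ∧
      (∀ z, (∃ z', pl z = ι z' ∧ (z' = z ∨ z' ∈ B)) ∨
        ∃ y ∈ B, ∃ k ≤ M, tt y = 0 ∧ pl z = trk y k) ∧
      ∀ z z', G0.Adj z z' → Nr Rg (c1 * (2 * K + 1) + 2) (pl z) (pl z') := by
  classical
  have hJ0 : 0 < J := hJ
  let pl : V → W := fun z => if z ∈ B then
    (if J ≤ 2 * tt z then ι (par^[J - tt z] z) else trk (core z) (M * (J - 2 * tt z) / J)) else ι z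
  have hp1 : ∀ z, z ∉ B → pl z = ι z := fun z hz => if_neg hz
  have hp2 : ∀ z ∈ B, J ≤ 2 * tt z → pl z = ι (par^[J - tt z] z) := fun z hz hJz => by
    show (if z ∈ B then _ else _) = _
    rw [if_pos hz, if_pos hJz]
  have hp3 : ∀ z ∈ B, ¬ J ≤ 2 * tt z → pl z = trk (core z) (M * (J - 2 * tt z) / J) :=
    fun z hz hJz => by
      show (if z ∈ B then _ else _) = _
      rw [if_pos hz, if_neg hJz]
  have hdM : ∀ a : ℕ, M * (J - a) / J ≤ M := fun a => by
    refine Nat.div_le_of_le_mul ?_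
    rw [mul_comm J M]
    exact Nat.mul_le_mul_left _ (Nat.sub_le _ _)
  have key : ∀ z ∈ B, tt z ≠ 0 → Nr Rg (c1 * (2 * K + 1) + 2) (pl z) (pl (par z)) := by
    intro z hz hne
    obtain ⟨hpB, hadj, htt, hcore⟩ := h2 z hz hne
    have htJ := h1 z hz
    obtain ⟨hcB, hc0⟩ := sl_core h2 h3 hz
    by_cases hA : J ≤ 2 * tt z
    · rw [hp2 z hz hA]
      obtain ⟨hwB, hwt, hwc⟩ := sl_iter h2 (J - tt z) z hz (by omega)
      set w := par^[J - tt z] z with hw
      by_cases hA' : J ≤ 2 * tt (par z)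
      · rw [hp2 _ hpB hA']
        have e1 : par^[J - tt (par z)] (par z) = par (par w) := by
          rw [hw, ← Function.iterate_succ_apply' par, ← Function.iterate_succ_apply' par,
            ← Function.iterate_succ_apply par]
          congr 1
          omega
        rw [e1]
        obtain ⟨h5B, h5a, h5t, -⟩ := h2 w hwB (by omega)
        obtain ⟨-, h6a, -, -⟩ := h2 (par w) h5B (by omega)
        exact ((Nr.of_adj (hι _ _ h5a)).trans (Nr.of_adj (hι _ _ h6a))).mono (by omega)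
      · rw [hp3 _ hpB hA', hcore]
        have hk : M * (J - 2 * tt (par z)) / J ≤ 0 + 2 * K := by
          refine Nat.div_le_of_le_mul ?_
          have h7 : J - 2 * tt (par z) ≤ 2 := by omega
          calc M * (J - 2 * tt (par z)) ≤ (K * J) * 2 := Nat.mul_le_mul hM h7
            _ = J * (0 + 2 * K) := by ring
        have h8 : Nr Rg (c1 * (2 * K)) (ι (core z)) (trk (core z) (M * (J - 2 * tt (par z)) / J)) := by
          rw [← t0 _ hcB hc0]
          exact sl_track' (t1 _ hcB hc0) (Nat.zero_le _) (hdM _) hk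
        have h9 : Nr Rg 1 (ι w) (ι (core z)) := by
          rw [← hwc]
          by_cases hw0 : tt w = 0
          · rw [h3 w hwB hw0]
            exact Nr.refl _ _ _
          · obtain ⟨h5B, h5a, h5t, h5c⟩ := h2 w hwB hw0
            rw [← h5c, h3 _ h5B (by omega)]
            exact Nr.of_adj (hι _ _ h5a)
        refine (h9.trans h8).mono ?_
        rw [Nat.mul_add]
        omega
    · have hA' : ¬ J ≤ 2 * tt (par z) := by omega
      rw [hp3 z hz hA, hp3 _ hpB hA', hcore]
      have hle : M * (J - 2 * tt z) / J ≤ M * (J - 2 * tt (par z)) / J :=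
        Nat.div_le_div_right (Nat.mul_le_mul_left _ (by omega))
      have hle2 : M * (J - 2 * tt (par z)) / J ≤ M * (J - 2 * tt z) / J + 2 * K := by
        have h7 : M * (J - 2 * tt (par z)) ≤ M * (J - 2 * tt z) + 2 * K * J := by
          have h8 : J - 2 * tt (par z) = (J - 2 * tt z) + 2 := by omega
          rw [h8, Nat.mul_add]
          have h9 : M * 2 ≤ 2 * K * J := by
            calc M * 2 ≤ K * J * 2 := Nat.mul_le_mul_right _ hM
              _ = 2 * K * J := by ring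
          omega
        calc M * (J - 2 * tt (par z)) / J ≤ (M * (J - 2 * tt z) + 2 * K * J) / J :=
              Nat.div_le_div_right h7
          _ = M * (J - 2 * tt z) / J + 2 * K := Nat.add_mul_div_right _ _ hJ0
      refine (sl_track' (t1 _ hcB hc0) hle (hdM _) hle2).mono ?_
      rw [Nat.mul_add]
      omega
  refine ⟨pl, hp1, ?_, ?_, ?_⟩
  · intro z hz hz0
    rw [hp3 z hz (by omega), h3 z hz hz0, hz0, Nat.mul_zero, Nat.sub_zero,
      Nat.mul_div_cancel _ hJ0]
  · intro z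
    by_cases hz : z ∈ B
    · by_cases hA : J ≤ 2 * tt z
      · left
        have htJ := h1 z hz
        obtain ⟨hwB, -, -⟩ := sl_iter h2 (J - tt z) z hz (by omega)
        exact ⟨_, hp2 z hz hA, Or.inr hwB⟩
      · right
        obtain ⟨hcB, hc0⟩ := sl_core h2 h3 hz
        exact ⟨core z, hcB, _, hdM _, hc0, hp3 z hz hA⟩
    · left
      exact ⟨z, hp1 z hz, Or.inl rfl⟩
  · have hout : ∀ z ∈ B, ∀ z', z' ∉ B → G0.Adj z z' →
        Nr Rg (c1 * (2 * K + 1) + 2) (pl z) (pl z') := by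
      intro z hz z' hz' hadj
      have h6 := h5 z hz z' hz' hadj
      rw [hp2 z hz (by omega), hp1 z' hz', h6, Nat.sub_self, Function.iterate_zero_apply]
      exact (Nr.of_adj (hι _ _ hadj)).mono (by omega)
    intro z z' hadj
    by_cases hz : z ∈ B
    · by_cases hz' : z' ∈ B
      · rcases h4 z hz z' hz' hadj with ⟨h6, rfl⟩ | ⟨h6, rfl⟩ | ⟨h6, h7⟩
        · exact key z hz h6
        · exact (key z' hz' h6).symm
        · rw [hp3 z hz (by omega), hp3 z' hz' (by omega), h3 z hz h6, h3 z' hz' h7, h6, h7,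
            Nat.mul_zero, Nat.sub_zero, Nat.mul_div_cancel _ hJ0]
          refine (t2 z hz z' hz' hadj h6 h7 M le_rfl).mono ?_
          rw [Nat.mul_add]
          omega
      · exact hout z hz z' hz' hadj
    · by_cases hz' : z' ∈ B
      · exact (hout z' hz' z hz hadj.symm).symm
      · rw [hp1 z hz, hp1 z' hz']
        exact (Nr.of_adj (hι _ _ hadj)).mono (by omega)

end Pool.Agent.Helper95.HH
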